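import Pool.Agent.Y871.LW.Uni
import Pool.Agent.Y889.SK.Exc
import Pool.Agent.Y843.HS.PartA

/-!
# Szemerédi's theorem in the prime values of almost all polynomials of height `H`
-/

set_option autoImplicit false

namespace Pool.Agent.Y871.LW

open Finset
open Pool.Agent.TH892 (box pol pol_eval)
open Pool.Agent.H300R2.BH (SS rho)
open Pool.Agent.H300R2.FB (pa la)

/-- the vectors `(c 1, ..., c j)` -/
noncomputable def tails (j H : ℕ) : Finset (Fin j → ℤ) :=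
  Fintype.piFinset (fun i => if (i : ℕ) + 1 = j then Icc 1 (H : ℤ) else Icc (-(H : ℤ)) H)

theorem card_box_tails (j H : ℕ) (hj : 1 ≤ j) : (box j H).card = (2 * H + 1) * (tails j H).card := by
  unfold Pool.Agent.TH892.box tails
  rw [Fintype.card_piFinset, Fintype.card_piFinset, Fin.prod_univ_succ]
  congr 1
  · rw [if_neg (by simp; omega), Int.card_Icc]
    omega

theorem mem_tails {j H : ℕ} {c : Fin (j + 1) → ℤ} (hj : 1 ≤ j) (hc : c ∈ box j H) :
    Fin.tail c ∈ tails j H ∧ -(H : ℤ) ≤ c 0 ∧ c 0 ≤ H := by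
  unfold Pool.Agent.TH892.box at hc
  rw [Fintype.mem_piFinset] at hc
  constructor
  · unfold tails
    rw [Fintype.mem_piFinset]
    intro i
    have h1 := hc i.succ
    rw [Fin.val_succ] at h1
    exact h1
  · have h1 := hc 0
    rw [if_neg (by simp; omega), mem_Icc] at h1
    exact h1

/-- the polynomial without constant term -/
noncomputable def FT0 {j : ℕ} (τ : Fin j → ℤ) : Polynomial ℤ :=
  ∑ i : Fin j, Polynomial.C (τ i) * Polynomial.X ^ ((i : ℕ) + 1)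

theorem FT0_coeff {j : ℕ} (τ : Fin j → ℤ) (i : Fin j) : (FT0 τ).coeff ((i : ℕ) + 1) = τ i := by
  unfold FT0
  rw [Polynomial.finsetSum_coeff]
  simp only [Polynomial.coeff_C_mul, Polynomial.coeff_X_pow]
  rw [Finset.sum_eq_single i]
  · simp
  · intro b _ hb
    rw [if_neg, mul_zero]
    intro h
    apply hb
    exact Fin.ext (by omega)
  · intro h
    exact absurd (mem_univ i) h

theorem FT0_deg {j : ℕ} (τ : Fin j → ℤ) : (FT0 τ).natDegree ≤ j := by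
  unfold FT0
  apply Polynomial.natDegree_sum_le_of_forall_le
  intro i _
  refine (Polynomial.natDegree_C_mul_X_pow_le _ _).trans ?_
  omega

theorem pol_eq {j : ℕ} (c : Fin (j + 1) → ℤ) (n : ℤ) :
    (pol c).eval n = (FT0 (Fin.tail c)).eval n + c 0 := by
  rw [pol_eval, Fin.sum_univ_succ]
  unfold FT0 Fin.tail
  rw [Polynomial.eval_finsetSum]
  simp
  ring

/-- the `t ≤ K` with `|F(t)|` prime -/
def pv (F : Polynomial ℤ) (K : ℕ) : Finset ℕ :=
  (Icc 1 K).filter (fun t : ℕ => (F.eval (t : ℤ)).natAbs.Prime)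

theorem pts_eq {j : ℕ} (c : Fin (j + 1) → ℤ) (K : ℕ) :
    pts (fun _ : Fin 1 => FT0 (Fin.tail c)) (fun _ => c 0) 0 K = pv (pol c) K := by
  unfold pts pv
  rw [zero_add]
  have e : Ioc 0 K = Icc 1 K := by
    ext x
    rw [mem_Ioc, mem_Icc]
    omega
  rw [e]
  apply filter_congr
  intro n _
  rw [pol_eq]
  simp

theorem Cov_mono' {P P' : Finset ℕ} (hP : P ⊆ P') {k : ℕ} {D D' t t' : ℝ} (hD : D ≤ D') (ht : t ≤ t')
    (h : Cov P' k D t) : Cov P k D' t' := by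
  intro S hS T hT hn
  refine (h S (hS.trans hP) T hT (fun n hn' hc => hn n hn' ?_)).trans ht
  obtain ⟨b, d, h1, h2, h3⟩ := hc
  exact ⟨b, d, h1, h2.trans hD, h3⟩

open Classical in
/-- the bad polynomials for (UNI) -/
theorem uni_box (hU : S_UNI) (j k p₀ : ℕ) (hj : 1 ≤ j) (hk : 1 ≤ k) (ε : ℝ) (hε : 0 < ε) : ∃ B H₀ : ℕ,
    ∀ H K : ℕ, H₀ ≤ H → Real.log ((2 * H + 1 : ℕ) : ℝ) ^ B ≤ K →
    (((box j H).filter (fun c => (∀ p : ℕ, p.Prime → p₀ < p → ∃ i : Fin (j + 1), 1 ≤ (i : ℕ) ∧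
      ¬ (p : ℤ) ∣ c i) ∧ ¬ Cov (pv (pol c) K) k (Real.log ((2 * H + 1 : ℕ) : ℝ) ^ B)
        (ε * K / Real.log ((2 * H + 1 : ℕ) : ℝ)))).card : ℝ) ≤ ε * (box j H).card := by
  obtain ⟨B, X₀, h⟩ := hU k 1 j p₀ hk ε hε
  refine ⟨B, X₀, fun H K hH hK => ?_⟩
  set X := 2 * H + 1 with hX
  obtain ⟨G, hG⟩ : ∃ G : (Fin j → ℤ) → Prop, G = fun τ => ∀ p : ℕ, p.Prime → p₀ < p → ∃ i : Fin j,
    ¬ (p : ℤ) ∣ τ i := ⟨_, rfl⟩
  obtain ⟨W, hW⟩ : ∃ W : (Fin j → ℤ) → Finset ℤ, W = fun τ =>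
    (Ioc (-(H : ℤ) - 1) (-(H : ℤ) - 1 + (X : ℤ))).filter (fun a =>
      ¬ Cov (pts (fun _ : Fin 1 => FT0 τ) (fun _ => a) 0 K) k (Real.log X ^ B) (ε * K / Real.log X)) :=
    ⟨_, rfl⟩
  have hWc : ∀ τ, G τ → ((W τ).card : ℝ) ≤ ε * X := by
    intro τ hτ
    have h1 := h X K 0 (by omega) hK (fun _ => FT0 τ) (fun _ => FT0_deg τ) (by
      intro _ p hp hp0
      rw [hG] at hτ
      obtain ⟨i, hi⟩ := hτ p hp hp0
      exact ⟨(i : ℕ) + 1, by omega, by rw [FT0_coeff]; exact hi⟩) (fun _ => -(H : ℤ) - 1) (fun _ => X)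
      (fun _ => le_rfl)
    have h2 : (∏ _l : Fin 1, ((X : ℕ) : ℝ)) = X := by simp
    rw [h2, pow_one] at h1
    refine le_trans ?_ h1
    rw [Nat.cast_le]
    apply card_le_card_of_injOn (fun a _ => a)
    · intro a ha
      rw [hW, mem_coe, mem_filter] at ha
      rw [mem_coe, mem_filter]
      exact ⟨Fintype.mem_piFinset.2 (fun _ => ha.1), ha.2⟩
    · intro a _ b _ hab
      exact congrFun hab 0
  have h1 : (box j H).filter (fun c => (∀ p : ℕ, p.Prime → p₀ < p → ∃ i : Fin (j + 1), 1 ≤ (i : ℕ) ∧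
      ¬ (p : ℤ) ∣ c i) ∧ ¬ Cov (pv (pol c) K) k (Real.log X ^ B) (ε * K / Real.log X)) ⊆
      ((tails j H).filter G).biUnion (fun τ => (W τ).image (fun a => (Fin.cons a τ : Fin (j + 1) → ℤ))) := by
    intro c hc
    rw [mem_filter] at hc
    obtain ⟨hc1, hc2, hc3⟩ := hc
    obtain ⟨h2, h3, h4⟩ := mem_tails hj hc1
    rw [mem_biUnion]
    refine ⟨Fin.tail c, ?_, ?_⟩
    · rw [mem_filter]
      refine ⟨h2, ?_⟩
      rw [hG]
      intro p hp hp0
      obtain ⟨i, hi1, hi2⟩ := hc2 p hp hp0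
      refine ⟨i.pred (by intro h; rw [h] at hi1; simp at hi1), ?_⟩
      unfold Fin.tail
      rw [Fin.succ_pred]
      exact hi2
    · rw [mem_image]
      refine ⟨c 0, ?_, Fin.cons_self_tail c⟩
      rw [hW, mem_filter, mem_Ioc]
      refine ⟨⟨by omega, by rw [hX]; push_cast; omega⟩, ?_⟩
      rw [pts_eq]
      exact hc3
  have h2 := (card_le_card h1).trans card_biUnion_le
  have h3 : (((box j H).filter (fun c => (∀ p : ℕ, p.Prime → p₀ < p → ∃ i : Fin (j + 1), 1 ≤ (i : ℕ) ∧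
      ¬ (p : ℤ) ∣ c i) ∧ ¬ Cov (pv (pol c) K) k (Real.log X ^ B) (ε * K / Real.log X))).card : ℝ) ≤
      ∑ τ ∈ (tails j H).filter G, (((W τ).image (fun a => (Fin.cons a τ : Fin (j + 1) → ℤ))).card : ℝ) := by
    exact_mod_cast h2
  refine h3.trans ?_
  calc ∑ τ ∈ (tails j H).filter G, (((W τ).image (fun a => (Fin.cons a τ : Fin (j + 1) → ℤ))).card : ℝ)
      ≤ ∑ τ ∈ (tails j H).filter G, ε * X := by
        apply sum_le_sum
        intro τ hτ
        refine le_trans ?_ (hWc τ (mem_filter.1 hτ).2)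
        exact_mod_cast card_image_le
    _ = ((tails j H).filter G).card * (ε * X) := by rw [sum_const, nsmul_eq_mul]
    _ ≤ (tails j H).card * (ε * X) := by
        apply mul_le_mul_of_nonneg_right _ (by positivity)
        exact_mod_cast card_filter_le _ _
    _ = ε * (box j H).card := by
        rw [card_box_tails j H hj]
        push_cast
        rw [hX]
        push_cast
        ring

open Classical in
/-- **Szemerédi's theorem in the prime values of almost all polynomials.** -/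
theorem alm (hU : S_UNI) (hLT : S_LT) (hC : S_CONT) (hLA : S_LA) (j k : ℕ) (hj : 2 ≤ j) (hk : 1 ≤ k)
    (ε : ℝ) (hε : 0 < ε) : ∃ E B H₀ : ℕ, ∀ H : ℕ, H₀ ≤ H → ∀ K : ℕ, Real.log H ^ B ≤ K →
    (K : ℝ) * Real.log H ^ B ≤ H →
    (((box j H).filter (fun c =>
      (∀ p : ℕ, p.Prime → p ≤ ⌊Real.log H ^ E⌋₊ → rho (pol c) p ≠ p) ∧
      ¬ (0 < SS ⌊Real.log H ^ E⌋₊ (pol c) * la (pol c) K ∧
        |pa (pol c) K - SS ⌊Real.log H ^ E⌋₊ (pol c) * la (pol c) K| ≤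
          ε * (SS ⌊Real.log H ^ E⌋₊ (pol c) * la (pol c) K) ∧
        Cov (pv (pol c) K) k (Real.log H ^ B) (ε * pa (pol c) K)))).card : ℝ) ≤
      ε * (box j H).card := by
  obtain ⟨E, hexc⟩ := Pool.Agent.Y889.SK.exc_boxS j (by omega) 1
  obtain ⟨B2, Ha, hexc2⟩ := hexc E le_rfl
  obtain ⟨δ, hδ, hLT2⟩ := hLT j (by omega) (ε / 4) (by positivity)
  obtain ⟨Hb, hb⟩ := hLT2 E
  obtain ⟨c₀, hc₀, Hc, hLA2⟩ := hLA j (by omega)
  obtain ⟨p₀, Hd, hCONT2⟩ := hC j hj (ε / 4) (by positivity)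
  obtain ⟨ε₁, hε₁⟩ : ∃ ε₁ : ℝ, ε₁ = min (ε / 4) (ε * δ * c₀ / 2) := ⟨_, rfl⟩
  have hε₁0 : 0 < ε₁ := by rw [hε₁]; positivity
  have hε₁1 : ε₁ ≤ ε / 4 := by rw [hε₁]; exact min_le_left _ _
  have hε₁2 : ε₁ ≤ ε * δ * c₀ / 2 := by rw [hε₁]; exact min_le_right _ _
  obtain ⟨B1, X1, huni⟩ := uni_box hU j k p₀ (by omega) hk ε₁ hε₁0
  obtain ⟨He, hlog⟩ := Pool.Agent.Y843.HS.log_ge (max (max 2 (2 ^ B1)) (max (4 / ε) (max Hc (1 / ε))))
  refine ⟨E, B1 + B2 + 1, max (max Ha Hb) (max (max Hc Hd) (max X1 (max He 3))), fun H hH K hK1 hK2 => ?_⟩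
  have hHa : Ha ≤ H := le_trans (le_trans (le_max_left _ _) (le_max_left _ _)) hH
  have hHb : Hb ≤ H := le_trans (le_trans (le_max_right _ _) (le_max_left _ _)) hH
  have hH' := (le_max_right (max Ha Hb) _).trans hH
  have hHc : Hc ≤ H := le_trans (le_trans (le_max_left _ _) (le_max_left _ _)) hH'
  have hHd : Hd ≤ H := le_trans (le_trans (le_max_right _ _) (le_max_left _ _)) hH'
  have hH'' := (le_max_right (max Hc Hd) _).trans hH'
  have hX1 : X1 ≤ H := (le_max_left _ _).trans hH''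
  have hH3 := (le_max_right X1 _).trans hH''
  have hHe : He ≤ H := (le_max_left _ _).trans hH3
  have hH3' : 3 ≤ H := (le_max_right _ _).trans hH3
  have hl := hlog H hHe
  have hl2 : 2 ≤ Real.log H := le_trans (le_trans (le_max_left _ _) (le_max_left _ _)) hl
  have hlB : (2 : ℝ) ^ B1 ≤ Real.log H := le_trans (le_trans (le_max_right _ _) (le_max_left _ _)) hl
  have hl' := (le_max_right (max (2 : ℝ) (2 ^ B1)) _).trans hl
  have hl4 : 4 / ε ≤ Real.log H := (le_max_left _ _).trans hl'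
  have hl'' := (le_max_right (4 / ε) _).trans hl'
  have hlHc : (Hc : ℝ) ≤ Real.log H := (le_max_left _ _).trans hl''
  have hl1ε : 1 / ε ≤ Real.log H := (le_max_right _ _).trans hl''
  have hl0 : 0 < Real.log H := by linarith
  have hl1 : 1 ≤ Real.log H := by linarith
  have hHr : (3 : ℝ) ≤ H := by exact_mod_cast hH3'
  obtain ⟨z, hz⟩ : ∃ z, z = ⌊Real.log H ^ E⌋₊ := ⟨_, rfl⟩
  have hK0 : (1 : ℝ) ≤ K := (one_le_pow₀ hl1).trans hK1
  have hlogX : Real.log ((2 * H + 1 : ℕ) : ℝ) ≤ 2 * Real.log H := by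
    have h1 : ((2 * H + 1 : ℕ) : ℝ) ≤ (H : ℝ) ^ 2 := by
      push_cast
      nlinarith
    have h2 := Real.log_le_log (by positivity) h1
    rw [Real.log_pow] at h2
    push_cast at h2 ⊢
    exact h2
  have hlogX2 : Real.log H ≤ Real.log ((2 * H + 1 : ℕ) : ℝ) := by
    apply Real.log_le_log (by linarith)
    push_cast
    linarith
  have hlogB : Real.log ((2 * H + 1 : ℕ) : ℝ) ^ B1 ≤ Real.log H ^ (B1 + 1) := by
    calc Real.log ((2 * H + 1 : ℕ) : ℝ) ^ B1 ≤ (2 * Real.log H) ^ B1 :=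
          pow_le_pow_left₀ (by linarith) hlogX _
      _ = 2 ^ B1 * Real.log H ^ B1 := mul_pow _ _ _
      _ ≤ Real.log H * Real.log H ^ B1 := mul_le_mul_of_nonneg_right hlB (by positivity)
      _ = Real.log H ^ (B1 + 1) := by rw [pow_succ]; ring
  have hKB1 : Real.log H ^ (B1 + 1) ≤ K :=
    (pow_le_pow_right₀ hl1 (by omega)).trans hK1
  have hK2' : (K : ℝ) * Real.log H ^ B2 ≤ H := by
    refine le_trans ?_ hK2
    apply mul_le_mul_of_nonneg_left _ (by positivity)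
    exact pow_le_pow_right₀ hl1 (by omega)
  have hK1' : Real.log H ^ B2 ≤ K := (pow_le_pow_right₀ hl1 (by omega)).trans hK1
  have hKH : K ≤ H := by
    have h1 : (K : ℝ) ≤ H := by
      refine le_trans ?_ hK2
      exact le_mul_of_one_le_right (by positivity) (one_le_pow₀ hl1)
    exact_mod_cast h1
  have hKc : Hc ≤ K := by
    have h1 : (Hc : ℝ) ≤ K := by
      refine hlHc.trans (le_trans ?_ hK1)
      calc Real.log H = Real.log H ^ 1 := (pow_one _).symm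
        _ ≤ _ := pow_le_pow_right₀ hl1 (by omega)
    exact_mod_cast h1
  -- the exceptional sets
  obtain ⟨Q1, hQ1⟩ : ∃ Q1 : (Fin (j + 1) → ℤ) → Prop, Q1 = fun c =>
      (∀ p : ℕ, p.Prime → p ≤ ⌊Real.log H ^ E⌋₊ → rho (pol c) p ≠ p) ∧
      ∃ K : ℕ, Real.log H ^ B2 ≤ K ∧ (K : ℝ) * Real.log H ^ B2 ≤ H ∧
        SS ⌊Real.log H ^ E⌋₊ (pol c) * la (pol c) K / Real.log H ^ 1 <
        |pa (pol c) K - SS ⌊Real.log H ^ E⌋₊ (pol c) * la (pol c) K| := ⟨_, rfl⟩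
  have e1 := hexc2 H hHa Q1 (fun c _ hc => by rw [hQ1] at hc; exact hc)
  have e2 := hb H hHb
  have e3 := hCONT2 H hHd
  have e4 := huni H K hX1 (hlogB.trans hKB1)
  have hsub : (box j H).filter (fun c =>
      (∀ p : ℕ, p.Prime → p ≤ ⌊Real.log H ^ E⌋₊ → rho (pol c) p ≠ p) ∧
      ¬ (0 < SS ⌊Real.log H ^ E⌋₊ (pol c) * la (pol c) K ∧
        |pa (pol c) K - SS ⌊Real.log H ^ E⌋₊ (pol c) * la (pol c) K| ≤
          ε * (SS ⌊Real.log H ^ E⌋₊ (pol c) * la (pol c) K) ∧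
        Cov (pv (pol c) K) k (Real.log H ^ (B1 + B2 + 1)) (ε * pa (pol c) K))) ⊆
      (box j H).filter Q1 ∪ (box j H).filter (fun c =>
    (∀ p : ℕ, p.Prime → p ≤ ⌊Real.log H ^ E⌋₊ → rho (pol c) p ≠ p) ∧
      SS ⌊Real.log H ^ E⌋₊ (pol c) < δ) ∪ (box j H).filter (fun c => ∃ p : ℕ, p.Prime ∧ p₀ < p ∧
        ∀ i : Fin (j + 1), 1 ≤ (i : ℕ) → (p : ℤ) ∣ c i) ∪
      (box j H).filter (fun c => (∀ p : ℕ, p.Prime → p₀ < p → ∃ i : Fin (j + 1), 1 ≤ (i : ℕ) ∧
      ¬ (p : ℤ) ∣ c i) ∧ ¬ Cov (pv (pol c) K) k (Real.log ((2 * H + 1 : ℕ) : ℝ) ^ B1)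
        (ε₁ * K / Real.log ((2 * H + 1 : ℕ) : ℝ))) := by
    intro c hc
    rw [mem_filter] at hc
    obtain ⟨hcb, hcr, hcn⟩ := hc
    by_contra hcon
    rw [mem_union, mem_union, mem_union, not_or, not_or, not_or] at hcon
    obtain ⟨⟨⟨n1, n2⟩, n3⟩, n4⟩ := hcon
    apply hcn
    rw [mem_filter, not_and] at n1 n2 n3 n4
    have m1 := n1 hcb
    have m2 := n2 hcb
    have m3 := n3 hcb
    have m4 := n4 hcb
    clear n1 n2 n3 n4 hcn
    rw [← hz] at m2 ⊢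
    have hS : δ ≤ SS z (pol c) := by
      by_contra h
      exact m2 ⟨by rw [hz]; exact hcr, not_le.1 h⟩
    have hL := hLA2 H hHc c hcb K hKc hKH
    have hL0 : 0 < c₀ * K / Real.log H := by positivity
    have hM0 : 0 < SS z (pol c) * la (pol c) K := mul_pos (by linarith) (by linarith)
    have hlow : δ * (c₀ * K / Real.log H) ≤ SS z (pol c) * la (pol c) K :=
      mul_le_mul hS hL hL0.le (by linarith)
    have herr : |pa (pol c) K - SS z (pol c) * la (pol c) K| ≤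
        SS z (pol c) * la (pol c) K / Real.log H := by
      by_contra h
      apply m1
      rw [hQ1]
      refine ⟨hcr, K, hK1', hK2', ?_⟩
      rw [← hz, pow_one]
      exact not_le.1 h
    have hcov : Cov (pv (pol c) K) k (Real.log ((2 * H + 1 : ℕ) : ℝ) ^ B1)
        (ε₁ * K / Real.log ((2 * H + 1 : ℕ) : ℝ)) := by
      by_contra h
      apply m4
      refine ⟨?_, h⟩
      intro p hp hp0
      by_contra h2
      push Not at h2
      exact m3 ⟨p, hp, hp0, h2⟩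
    refine ⟨hM0, ?_, ?_⟩
    · refine herr.trans ?_
      rw [div_le_iff₀ hl0]
      rw [div_le_iff₀ hε] at hl1ε
      nlinarith
    · apply Cov_mono' (Subset.refl _) (hlogB.trans (pow_le_pow_right₀ hl1 (by omega))) _ hcov
      have h1 := (abs_le.1 herr).1
      have h2 : SS z (pol c) * la (pol c) K / Real.log H ≤ SS z (pol c) * la (pol c) K / 2 := by
        apply div_le_div_of_nonneg_left hM0.le (by norm_num) hl2
      have h3 : SS z (pol c) * la (pol c) K / 2 ≤ pa (pol c) K := by linarith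
      calc ε₁ * K / Real.log ((2 * H + 1 : ℕ) : ℝ) ≤ ε₁ * K / Real.log H :=
            div_le_div_of_nonneg_left (by positivity) hl0 hlogX2
        _ ≤ (ε * δ * c₀ / 2) * K / Real.log H := by gcongr
        _ = ε * (δ * (c₀ * K / Real.log H) / 2) := by ring
        _ ≤ ε * pa (pol c) K := by
            apply mul_le_mul_of_nonneg_left _ hε.le
            linarith
  have hcard := card_le_card hsub
  have hu1 := card_union_le ((box j H).filter Q1 ∪ (box j H).filter (fun c =>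
    (∀ p : ℕ, p.Prime → p ≤ ⌊Real.log H ^ E⌋₊ → rho (pol c) p ≠ p) ∧
      SS ⌊Real.log H ^ E⌋₊ (pol c) < δ) ∪ (box j H).filter (fun c => ∃ p : ℕ, p.Prime ∧ p₀ < p ∧
        ∀ i : Fin (j + 1), 1 ≤ (i : ℕ) → (p : ℤ) ∣ c i)) ((box j H).filter (fun c => (∀ p : ℕ, p.Prime → p₀ < p → ∃ i : Fin (j + 1), 1 ≤ (i : ℕ) ∧
      ¬ (p : ℤ) ∣ c i) ∧ ¬ Cov (pv (pol c) K) k (Real.log ((2 * H + 1 : ℕ) : ℝ) ^ B1)
        (ε₁ * K / Real.log ((2 * H + 1 : ℕ) : ℝ))))
  have hu2 := card_union_le ((box j H).filter Q1 ∪ (box j H).filter (fun c =>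
    (∀ p : ℕ, p.Prime → p ≤ ⌊Real.log H ^ E⌋₊ → rho (pol c) p ≠ p) ∧
      SS ⌊Real.log H ^ E⌋₊ (pol c) < δ)) ((box j H).filter (fun c => ∃ p : ℕ, p.Prime ∧ p₀ < p ∧
        ∀ i : Fin (j + 1), 1 ≤ (i : ℕ) → (p : ℤ) ∣ c i))
  have hu3 := card_union_le ((box j H).filter Q1) ((box j H).filter (fun c =>
    (∀ p : ℕ, p.Prime → p ≤ ⌊Real.log H ^ E⌋₊ → rho (pol c) p ≠ p) ∧
      SS ⌊Real.log H ^ E⌋₊ (pol c) < δ))
  have htot := hcard.trans (hu1.trans (Nat.add_le_add_right (hu2.trans (Nat.add_le_add_right hu3 _)) _))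
  have key : ∀ a b c d e : ℕ, a ≤ b + c + d + e → (a : ℝ) ≤ b + c + d + e := by
    intro a b c d e h
    exact_mod_cast h
  have htot' := key _ _ _ _ _ htot
  have hbc : (0 : ℝ) ≤ (box j H).card := Nat.cast_nonneg _
  have e1' : ((box j H).card : ℝ) / Real.log H ^ 1 ≤ ε / 4 * (box j H).card := by
    rw [pow_one, div_le_iff₀ hl0]
    rw [div_le_iff₀ hε] at hl4
    nlinarith
  have e4' : ε₁ * ((box j H).card : ℝ) ≤ ε / 4 * (box j H).card :=
    mul_le_mul_of_nonneg_right hε₁1 hbc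
  linarith

end Pool.Agent.Y871.LW
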