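import Pool.Agent.Y871.LW.Apu
import Pool.Agent.Y871.LW.Alm

/-!
# Project LW, part E: primes in almost all residue classes
-/

set_option autoImplicit false

namespace Pool.Agent.Y871.LW

open Finset
open Pool.Agent.TH892 (box pol pol_eval)
open Pool.Agent.H300R2.BH (SS rho)
open Pool.Agent.H300R2.FB (pa la)

/-- the statement of `t_APU` -/
def S_APU : Prop := ∀ (k : ℕ), 1 ≤ k → ∀ (R ε : ℝ), 0 < R → 0 < ε →
    ∃ B X₀ : ℕ, ∀ X H : ℕ, X₀ ≤ X → Real.log X ^ B ≤ H → ∀ cc : ℕ, 1 ≤ cc →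
    (cc : ℝ) ≤ R * (Nat.totient cc : ℝ) → ∀ (A : ℤ),
    ∃ Bad : Finset ℤ, (Bad.card : ℝ) ≤ ε * X ∧ ∀ a ∈ Ioc A (A + X), a ∉ Bad →
      Cov (pts (fun _ : Fin 1 => Polynomial.C (cc : ℤ) * Polynomial.X) (fun _ => a) 0 H) k
        (Real.log X ^ B) (ε * H / Real.log X)

theorem apu (hG : S_GEN2) (hV : S_VVC) : S_APU := by
  classical
  intro k hk R ε hR hε
  obtain ⟨B, X₀, h⟩ := t_APU hG hV k hk R ε hR hε
  refine ⟨B, X₀, fun X H hX hH cc hcc hccR A => ?_⟩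
  have h1 := h X H hX hH cc hcc hccR (fun _ => A) (fun _ => X) (fun _ => le_rfl)
  have h2 : (∏ _l : Fin 1, ((X : ℕ) : ℝ)) = X := by simp
  rw [h2, pow_one] at h1
  refine ⟨(Ioc A (A + X)).filter (fun a => ¬ Cov (pts (fun _ : Fin 1 => Polynomial.C (cc : ℤ) *
    Polynomial.X) (fun _ => a) 0 H) k (Real.log X ^ B) (ε * H / Real.log X)), ?_, ?_⟩
  · refine le_trans ?_ h1
    rw [Nat.cast_le]
    apply card_le_card_of_injOn (fun a _ => a)
    · intro a ha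
      rw [mem_coe, mem_filter] at ha ⊢
      exact ⟨Fintype.mem_piFinset.2 (fun _ => ha.1), ha.2⟩
    · intro a _ b _ hab
      exact congrFun hab 0
  · intro a ha haB
    by_contra hc
    exact haB (mem_filter.2 ⟨ha, hc⟩)

open Classical in
/-- the bad pairs -/
theorem uni_box1 (hU : S_APU) (k : ℕ) (hk : 1 ≤ k) (R ε : ℝ) (hR : 0 < R) (hε : 0 < ε) : ∃ B H₀ : ℕ,
    ∀ H K : ℕ, H₀ ≤ H → Real.log ((2 * H + 1 : ℕ) : ℝ) ^ B ≤ K →
    (((box 1 H).filter (fun c => (((c 1).toNat : ℕ) : ℝ) ≤ R * (Nat.totient (c 1).toNat : ℝ) ∧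
      ¬ Cov (pv (pol c) K) k (Real.log ((2 * H + 1 : ℕ) : ℝ) ^ B)
        (ε * K / Real.log ((2 * H + 1 : ℕ) : ℝ)))).card : ℝ) ≤ ε * (box 1 H).card := by
  obtain ⟨B, X₀, h⟩ := hU k hk R ε hR hε
  refine ⟨B, X₀, fun H K hH hK => ?_⟩
  obtain ⟨X, hX⟩ : ∃ X, X = 2 * H + 1 := ⟨_, rfl⟩
  rw [← hX] at hK ⊢
  have hex : ∀ τ : Fin 1 → ℤ, ∃ Bad : Finset ℤ, 1 ≤ τ 0 →
      (((τ 0).toNat : ℕ) : ℝ) ≤ R * (Nat.totient (τ 0).toNat : ℝ) → (Bad.card : ℝ) ≤ ε * X ∧
      ∀ a ∈ Ioc (-(H : ℤ) - 1) (-(H : ℤ) - 1 + X), a ∉ Bad →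
        Cov (pts (fun _ : Fin 1 => Polynomial.C (((τ 0).toNat : ℕ) : ℤ) * Polynomial.X) (fun _ => a) 0 K) k
        (Real.log X ^ B) (ε * K / Real.log X) := by
    intro τ
    by_cases h1 : 1 ≤ τ 0
    · by_cases h2 : (((τ 0).toNat : ℕ) : ℝ) ≤ R * (Nat.totient (τ 0).toNat : ℝ)
      · obtain ⟨Bad, hB⟩ := h X K (by omega) hK (τ 0).toNat (by omega) h2 (-(H : ℤ) - 1)
        exact ⟨Bad, fun _ _ => hB⟩
      · exact ⟨∅, fun _ h3 => absurd h3 h2⟩
    · exact ⟨∅, fun h3 => absurd h3 h1⟩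
  choose W hW using hex
  obtain ⟨G, hG⟩ : ∃ G : (Fin 1 → ℤ) → Prop, G = fun τ => 1 ≤ τ 0 ∧
      (((τ 0).toNat : ℕ) : ℝ) ≤ R * (Nat.totient (τ 0).toNat : ℝ) := ⟨_, rfl⟩
  have h1 : (box 1 H).filter (fun c => (((c 1).toNat : ℕ) : ℝ) ≤ R * (Nat.totient (c 1).toNat : ℝ) ∧
      ¬ Cov (pv (pol c) K) k (Real.log X ^ B) (ε * K / Real.log X)) ⊆
      ((tails 1 H).filter G).biUnion (fun τ => (W τ).image (fun a => (Fin.cons a τ : Fin (1 + 1) → ℤ))) := by
    intro c hc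
    rw [mem_filter] at hc
    obtain ⟨hc1, hc2, hc3⟩ := hc
    obtain ⟨h2, h3, h4⟩ := mem_tails le_rfl hc1
    have h5 : (Fin.tail c) 0 = c 1 := rfl
    have h6 : 1 ≤ (Fin.tail c) 0 := by
      unfold tails at h2
      rw [Fintype.mem_piFinset] at h2
      have h7 := h2 0
      rw [if_pos (by simp), mem_Icc] at h7
      exact h7.1
    rw [mem_biUnion]
    refine ⟨Fin.tail c, ?_, ?_⟩
    · rw [mem_filter, hG]
      exact ⟨h2, h6, hc2⟩
    · rw [mem_image]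
      refine ⟨c 0, ?_, Fin.cons_self_tail c⟩
      by_contra hcon
      apply hc3
      obtain ⟨-, h8⟩ := hW (Fin.tail c) h6 hc2
      have h9 := h8 (c 0) (by rw [mem_Ioc, hX]; push_cast; exact ⟨by omega, by omega⟩) hcon
      rw [← pts_eq]
      have h10 : pts (fun _ : Fin 1 => FT0 (Fin.tail c)) (fun _ => c 0) 0 K =
          pts (fun _ : Fin 1 => Polynomial.C ((((Fin.tail c) 0).toNat : ℕ) : ℤ) * Polynomial.X)
            (fun _ => c 0) 0 K := by
        unfold pts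
        apply filter_congr
        intro n _
        have h11 : ((((Fin.tail c) 0).toNat : ℕ) : ℤ) = (Fin.tail c) 0 := Int.toNat_of_nonneg (by omega)
        rw [h11]
        unfold FT0
        simp
      rw [h10]
      exact h9
  have h2 := (card_le_card h1).trans card_biUnion_le
  have h3 : (((box 1 H).filter (fun c => (((c 1).toNat : ℕ) : ℝ) ≤ R * (Nat.totient (c 1).toNat : ℝ) ∧
      ¬ Cov (pv (pol c) K) k (Real.log X ^ B) (ε * K / Real.log X))).card : ℝ) ≤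
      ∑ τ ∈ (tails 1 H).filter G, (((W τ).image (fun a => (Fin.cons a τ : Fin (1 + 1) → ℤ))).card : ℝ) := by
    exact_mod_cast h2
  refine h3.trans ?_
  calc ∑ τ ∈ (tails 1 H).filter G, (((W τ).image (fun a => (Fin.cons a τ : Fin (1 + 1) → ℤ))).card : ℝ)
      ≤ ∑ τ ∈ (tails 1 H).filter G, ε * X := by
        apply sum_le_sum
        intro τ hτ
        rw [mem_filter, hG] at hτ
        refine le_trans ?_ (hW τ hτ.2.1 hτ.2.2).1
        exact_mod_cast card_image_le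
    _ = ((tails 1 H).filter G).card * (ε * X) := by rw [sum_const, nsmul_eq_mul]
    _ ≤ (tails 1 H).card * (ε * X) := by
        apply mul_le_mul_of_nonneg_right _ (by positivity)
        exact_mod_cast card_filter_le _ _
    _ = ε * (box 1 H).card := by
        rw [card_box_tails 1 H le_rfl]
        push_cast
        rw [hX]
        push_cast
        ring

open Classical in
/-- the moduli with a large ratio -/
theorem ratio_box (hRa : S_RATIO) (η : ℝ) (hη : 0 < η) : ∃ R : ℝ, 0 < R ∧ ∀ H : ℕ,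
    (((box 1 H).filter (fun c => R * (Nat.totient (c 1).toNat : ℝ) < (((c 1).toNat : ℕ) : ℝ))).card : ℝ) ≤
      η * (box 1 H).card := by
  obtain ⟨R, hR, h⟩ := hRa η hη
  refine ⟨R, hR, fun H => ?_⟩
  have h1 : (tails 1 H).card = H := by
    unfold tails
    rw [Fintype.card_piFinset]
    simp
  have h2 : (((box 1 H).filter (fun c => R * (Nat.totient (c 1).toNat : ℝ) < (((c 1).toNat : ℕ) : ℝ))).card : ℝ)
      ≤ ((((Icc (-(H : ℤ)) H) ×ˢ ((Icc 1 H).filter (fun c : ℕ => R * (Nat.totient c : ℝ) < c))).card : ℕ) : ℝ) := by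
    rw [Nat.cast_le]
    apply card_le_card_of_injOn (fun c => (c 0, (c 1).toNat))
    · intro c hc
      rw [mem_coe, mem_filter] at hc
      obtain ⟨h3, h4, h5⟩ := mem_tails le_rfl hc.1
      unfold tails at h3
      rw [Fintype.mem_piFinset] at h3
      have h7 := h3 0
      rw [if_pos (by simp), mem_Icc] at h7
      have h8 : (Fin.tail c) 0 = c 1 := rfl
      rw [h8] at h7
      rw [mem_coe, mem_product, mem_Icc, mem_filter, mem_Icc]
      exact ⟨⟨h4, h5⟩, ⟨by simp only; omega, by simp only; omega⟩, hc.2⟩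
    · intro c hc c' hc' hcc
      rw [mem_coe, mem_filter] at hc hc'
      obtain ⟨h3, -, -⟩ := mem_tails le_rfl hc.1
      obtain ⟨h3', -, -⟩ := mem_tails le_rfl hc'.1
      unfold tails at h3 h3'
      rw [Fintype.mem_piFinset] at h3 h3'
      have h7 := h3 0
      have h7' := h3' 0
      rw [if_pos (by simp), mem_Icc] at h7 h7'
      have h8 : (Fin.tail c) 0 = c 1 := rfl
      have h8' : (Fin.tail c') 0 = c' 1 := rfl
      rw [h8] at h7
      rw [h8'] at h7'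
      simp only [Prod.mk.injEq] at hcc
      funext i
      fin_cases i
      · exact hcc.1
      · show c 1 = c' 1
        omega
  refine h2.trans ?_
  rw [card_product, card_box_tails 1 H le_rfl, h1, Int.card_Icc]
  have h3 : ((H : ℤ) + 1 - -(H : ℤ)).toNat = 2 * H + 1 := by omega
  rw [h3]
  have h4 := h H
  push_cast
  calc (2 * (H : ℝ) + 1) * ((((Icc 1 H).filter (fun c : ℕ => R * (Nat.totient c : ℝ) < c)).card : ℕ) : ℝ)
      ≤ (2 * (H : ℝ) + 1) * (η * H) := mul_le_mul_of_nonneg_left h4 (by positivity)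
    _ = η * ((2 * H + 1) * H) := by ring

open Classical in
/-- **Szemerédi's theorem for the primes in almost all residue classes.** -/
theorem alm1 (hU : S_APU) (hLT : S_LT) (hRa : S_RATIO) (hLA : S_LA) (k : ℕ) (hk : 1 ≤ k)
    (ε : ℝ) (hε : 0 < ε) : ∃ E B H₀ : ℕ, 2 ≤ E ∧ ∀ H : ℕ, H₀ ≤ H → ∀ K : ℕ, Real.log H ^ B ≤ K →
    (K : ℝ) * Real.log H ^ B ≤ H →
    (((box 1 H).filter (fun c =>
      (∀ p : ℕ, p.Prime → p ≤ ⌊Real.log H ^ E⌋₊ → rho (pol c) p ≠ p) ∧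
      ¬ (0 < SS ⌊Real.log H ^ E⌋₊ (pol c) * la (pol c) K ∧
        |pa (pol c) K - SS ⌊Real.log H ^ E⌋₊ (pol c) * la (pol c) K| ≤
          ε * (SS ⌊Real.log H ^ E⌋₊ (pol c) * la (pol c) K) ∧
        Cov (pv (pol c) K) k (Real.log H ^ B) (ε * pa (pol c) K)))).card : ℝ) ≤
      ε * (box 1 H).card := by
  obtain ⟨E₁, hexc⟩ := Pool.Agent.Y889.SK.exc_boxS 1 (by omega) 1
  obtain ⟨E, hE1, hE2⟩ : ∃ E, E₁ ≤ E ∧ 2 ≤ E := ⟨max E₁ 2, le_max_left _ _, le_max_right _ _⟩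
  obtain ⟨B2, Ha, hexc2⟩ := hexc E hE1
  obtain ⟨δ, hδ, hLT2⟩ := hLT 1 (by omega) (ε / 4) (by positivity)
  obtain ⟨Hb, hb⟩ := hLT2 E
  obtain ⟨c₀, hc₀, Hc, hLA2⟩ := hLA 1 (by omega)
  obtain ⟨R, hR, hrat⟩ := ratio_box hRa (ε / 4) (by positivity)
  obtain ⟨Hd, hHd0⟩ : ∃ Hd : ℕ, Hd = 0 := ⟨_, rfl⟩
  obtain ⟨ε₁, hε₁⟩ : ∃ ε₁ : ℝ, ε₁ = min (ε / 4) (ε * δ * c₀ / 2) := ⟨_, rfl⟩
  have hε₁0 : 0 < ε₁ := by rw [hε₁]; positivity
  have hε₁1 : ε₁ ≤ ε / 4 := by rw [hε₁]; exact min_le_left _ _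
  have hε₁2 : ε₁ ≤ ε * δ * c₀ / 2 := by rw [hε₁]; exact min_le_right _ _
  obtain ⟨B1, X1, huni⟩ := uni_box1 hU k hk R ε₁ hR hε₁0
  obtain ⟨He, hlog⟩ := Pool.Agent.Y843.HS.log_ge (max (max 2 (2 ^ B1)) (max (4 / ε) (max Hc (1 / ε))))
  refine ⟨E, B1 + B2 + 1, max (max Ha Hb) (max (max Hc Hd) (max X1 (max He 3))), hE2, fun H hH K hK1 hK2 => ?_⟩
  have hHa : Ha ≤ H := le_trans (le_trans (le_max_left _ _) (le_max_left _ _)) hH
  have hHb : Hb ≤ H := le_trans (le_trans (le_max_right _ _) (le_max_left _ _)) hH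
  have hH' := (le_max_right (max Ha Hb) _).trans hH
  have hHc : Hc ≤ H := le_trans (le_trans (le_max_left _ _) (le_max_left _ _)) hH'
  have hHd : Hd ≤ H := le_trans (le_trans (le_max_right _ _) (le_max_left _ _)) hH'
  have hH'' := (le_max_right (max Hc Hd) _).trans hH'
  have hX1 : X1 ≤ H := (le_max_left _ _).trans hH''
  have hH3 := (le_max_right X1 _).trans hH''
  have hHe : He ≤ H := (le_max_left _ _).trans hH3
  have hH3' : 3 ≤ H := (le_max_right _ _).trans hH3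
  have hl := hlog H hHe
  have hl2 : 2 ≤ Real.log H := le_trans (le_trans (le_max_left _ _) (le_max_left _ _)) hl
  have hlB : (2 : ℝ) ^ B1 ≤ Real.log H := le_trans (le_trans (le_max_right _ _) (le_max_left _ _)) hl
  have hl' := (le_max_right (max (2 : ℝ) (2 ^ B1)) _).trans hl
  have hl4 : 4 / ε ≤ Real.log H := (le_max_left _ _).trans hl'
  have hl'' := (le_max_right (4 / ε) _).trans hl'
  have hlHc : (Hc : ℝ) ≤ Real.log H := (le_max_left _ _).trans hl''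
  have hl1ε : 1 / ε ≤ Real.log H := (le_max_right _ _).trans hl''
  have hl0 : 0 < Real.log H := by linarith
  have hl1 : 1 ≤ Real.log H := by linarith
  have hHr : (3 : ℝ) ≤ H := by exact_mod_cast hH3'
  obtain ⟨z, hz⟩ : ∃ z, z = ⌊Real.log H ^ E⌋₊ := ⟨_, rfl⟩
  have hK0 : (1 : ℝ) ≤ K := (one_le_pow₀ hl1).trans hK1
  have hlogX : Real.log ((2 * H + 1 : ℕ) : ℝ) ≤ 2 * Real.log H := by
    have h1 : ((2 * H + 1 : ℕ) : ℝ) ≤ (H : ℝ) ^ 2 := by
      push_cast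
      nlinarith
    have h2 := Real.log_le_log (by positivity) h1
    rw [Real.log_pow] at h2
    push_cast at h2 ⊢
    exact h2
  have hlogX2 : Real.log H ≤ Real.log ((2 * H + 1 : ℕ) : ℝ) := by
    apply Real.log_le_log (by linarith)
    push_cast
    linarith
  have hlogB : Real.log ((2 * H + 1 : ℕ) : ℝ) ^ B1 ≤ Real.log H ^ (B1 + 1) := by
    calc Real.log ((2 * H + 1 : ℕ) : ℝ) ^ B1 ≤ (2 * Real.log H) ^ B1 :=
          pow_le_pow_left₀ (by linarith) hlogX _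
      _ = 2 ^ B1 * Real.log H ^ B1 := mul_pow _ _ _
      _ ≤ Real.log H * Real.log H ^ B1 := mul_le_mul_of_nonneg_right hlB (by positivity)
      _ = Real.log H ^ (B1 + 1) := by rw [pow_succ]; ring
  have hKB1 : Real.log H ^ (B1 + 1) ≤ K :=
    (pow_le_pow_right₀ hl1 (by omega)).trans hK1
  have hK2' : (K : ℝ) * Real.log H ^ B2 ≤ H := by
    refine le_trans ?_ hK2
    apply mul_le_mul_of_nonneg_left _ (by positivity)
    exact pow_le_pow_right₀ hl1 (by omega)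
  have hK1' : Real.log H ^ B2 ≤ K := (pow_le_pow_right₀ hl1 (by omega)).trans hK1
  have hKH : K ≤ H := by
    have h1 : (K : ℝ) ≤ H := by
      refine le_trans ?_ hK2
      exact le_mul_of_one_le_right (by positivity) (one_le_pow₀ hl1)
    exact_mod_cast h1
  have hKc : Hc ≤ K := by
    have h1 : (Hc : ℝ) ≤ K := by
      refine hlHc.trans (le_trans ?_ hK1)
      calc Real.log H = Real.log H ^ 1 := (pow_one _).symm
        _ ≤ _ := pow_le_pow_right₀ hl1 (by omega)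
    exact_mod_cast h1
  -- the exceptional sets
  obtain ⟨Q1, hQ1⟩ : ∃ Q1 : (Fin (1 + 1) → ℤ) → Prop, Q1 = fun c =>
      (∀ p : ℕ, p.Prime → p ≤ ⌊Real.log H ^ E⌋₊ → rho (pol c) p ≠ p) ∧
      ∃ K : ℕ, Real.log H ^ B2 ≤ K ∧ (K : ℝ) * Real.log H ^ B2 ≤ H ∧
        SS ⌊Real.log H ^ E⌋₊ (pol c) * la (pol c) K / Real.log H ^ 1 <
        |pa (pol c) K - SS ⌊Real.log H ^ E⌋₊ (pol c) * la (pol c) K| := ⟨_, rfl⟩
  have e1 := hexc2 H hHa Q1 (fun c _ hc => by rw [hQ1] at hc; exact hc)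
  have e2 := hb H hHb
  have e3 := hrat H
  have e4 := huni H K hX1 (hlogB.trans hKB1)
  have hsub : (box 1 H).filter (fun c =>
      (∀ p : ℕ, p.Prime → p ≤ ⌊Real.log H ^ E⌋₊ → rho (pol c) p ≠ p) ∧
      ¬ (0 < SS ⌊Real.log H ^ E⌋₊ (pol c) * la (pol c) K ∧
        |pa (pol c) K - SS ⌊Real.log H ^ E⌋₊ (pol c) * la (pol c) K| ≤
          ε * (SS ⌊Real.log H ^ E⌋₊ (pol c) * la (pol c) K) ∧
        Cov (pv (pol c) K) k (Real.log H ^ (B1 + B2 + 1)) (ε * pa (pol c) K))) ⊆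
      (box 1 H).filter Q1 ∪ (box 1 H).filter (fun c =>
    (∀ p : ℕ, p.Prime → p ≤ ⌊Real.log H ^ E⌋₊ → rho (pol c) p ≠ p) ∧
      SS ⌊Real.log H ^ E⌋₊ (pol c) < δ) ∪ (box 1 H).filter (fun c =>
        R * (Nat.totient (c 1).toNat : ℝ) < (((c 1).toNat : ℕ) : ℝ)) ∪
      (box 1 H).filter (fun c => (((c 1).toNat : ℕ) : ℝ) ≤ R * (Nat.totient (c 1).toNat : ℝ) ∧ ¬ Cov (pv (pol c) K) k (Real.log ((2 * H + 1 : ℕ) : ℝ) ^ B1)
        (ε₁ * K / Real.log ((2 * H + 1 : ℕ) : ℝ))) := by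
    intro c hc
    rw [mem_filter] at hc
    obtain ⟨hcb, hcr, hcn⟩ := hc
    by_contra hcon
    rw [mem_union, mem_union, mem_union, not_or, not_or, not_or] at hcon
    obtain ⟨⟨⟨n1, n2⟩, n3⟩, n4⟩ := hcon
    apply hcn
    rw [mem_filter, not_and] at n1 n2 n3 n4
    have m1 := n1 hcb
    have m2 := n2 hcb
    have m3 := n3 hcb
    have m4 := n4 hcb
    clear n1 n2 n3 n4 hcn
    rw [← hz] at m2 ⊢
    have hS : δ ≤ SS z (pol c) := by
      by_contra h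
      exact m2 ⟨by rw [hz]; exact hcr, not_le.1 h⟩
    have hL := hLA2 H hHc c hcb K hKc hKH
    have hL0 : 0 < c₀ * K / Real.log H := by positivity
    have hM0 : 0 < SS z (pol c) * la (pol c) K := mul_pos (by linarith) (by linarith)
    have hlow : δ * (c₀ * K / Real.log H) ≤ SS z (pol c) * la (pol c) K :=
      mul_le_mul hS hL hL0.le (by linarith)
    have herr : |pa (pol c) K - SS z (pol c) * la (pol c) K| ≤
        SS z (pol c) * la (pol c) K / Real.log H := by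
      by_contra h
      apply m1
      rw [hQ1]
      refine ⟨hcr, K, hK1', hK2', ?_⟩
      rw [← hz, pow_one]
      exact not_le.1 h
    have hcov : Cov (pv (pol c) K) k (Real.log ((2 * H + 1 : ℕ) : ℝ) ^ B1)
        (ε₁ * K / Real.log ((2 * H + 1 : ℕ) : ℝ)) := by
      by_contra h
      apply m4
      refine ⟨?_, h⟩
      exact not_lt.1 m3
    refine ⟨hM0, ?_, ?_⟩
    · refine herr.trans ?_
      rw [div_le_iff₀ hl0]
      rw [div_le_iff₀ hε] at hl1ε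
      nlinarith
    · apply Cov_mono' (Subset.refl _) (hlogB.trans (pow_le_pow_right₀ hl1 (by omega))) _ hcov
      have h1 := (abs_le.1 herr).1
      have h2 : SS z (pol c) * la (pol c) K / Real.log H ≤ SS z (pol c) * la (pol c) K / 2 := by
        apply div_le_div_of_nonneg_left hM0.le (by norm_num) hl2
      have h3 : SS z (pol c) * la (pol c) K / 2 ≤ pa (pol c) K := by linarith
      calc ε₁ * K / Real.log ((2 * H + 1 : ℕ) : ℝ) ≤ ε₁ * K / Real.log H :=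
            div_le_div_of_nonneg_left (by positivity) hl0 hlogX2
        _ ≤ (ε * δ * c₀ / 2) * K / Real.log H := by gcongr
        _ = ε * (δ * (c₀ * K / Real.log H) / 2) := by ring
        _ ≤ ε * pa (pol c) K := by
            apply mul_le_mul_of_nonneg_left _ hε.le
            linarith
  have hcard := card_le_card hsub
  have hu1 := card_union_le ((box 1 H).filter Q1 ∪ (box 1 H).filter (fun c =>
    (∀ p : ℕ, p.Prime → p ≤ ⌊Real.log H ^ E⌋₊ → rho (pol c) p ≠ p) ∧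
      SS ⌊Real.log H ^ E⌋₊ (pol c) < δ) ∪ (box 1 H).filter (fun c =>
        R * (Nat.totient (c 1).toNat : ℝ) < (((c 1).toNat : ℕ) : ℝ))) ((box 1 H).filter (fun c => (((c 1).toNat : ℕ) : ℝ) ≤ R * (Nat.totient (c 1).toNat : ℝ) ∧ ¬ Cov (pv (pol c) K) k (Real.log ((2 * H + 1 : ℕ) : ℝ) ^ B1)
        (ε₁ * K / Real.log ((2 * H + 1 : ℕ) : ℝ))))
  have hu2 := card_union_le ((box 1 H).filter Q1 ∪ (box 1 H).filter (fun c =>
    (∀ p : ℕ, p.Prime → p ≤ ⌊Real.log H ^ E⌋₊ → rho (pol c) p ≠ p) ∧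
      SS ⌊Real.log H ^ E⌋₊ (pol c) < δ)) ((box 1 H).filter (fun c =>
        R * (Nat.totient (c 1).toNat : ℝ) < (((c 1).toNat : ℕ) : ℝ)))
  have hu3 := card_union_le ((box 1 H).filter Q1) ((box 1 H).filter (fun c =>
    (∀ p : ℕ, p.Prime → p ≤ ⌊Real.log H ^ E⌋₊ → rho (pol c) p ≠ p) ∧
      SS ⌊Real.log H ^ E⌋₊ (pol c) < δ))
  have htot := hcard.trans (hu1.trans (Nat.add_le_add_right (hu2.trans (Nat.add_le_add_right hu3 _)) _))
  have key : ∀ a b c d e : ℕ, a ≤ b + c + d + e → (a : ℝ) ≤ b + c + d + e := by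
    intro a b c d e h
    exact_mod_cast h
  have htot' := key _ _ _ _ _ htot
  have hbc : (0 : ℝ) ≤ (box 1 H).card := Nat.cast_nonneg _
  have e1' : ((box 1 H).card : ℝ) / Real.log H ^ 1 ≤ ε / 4 * (box 1 H).card := by
    rw [pow_one, div_le_iff₀ hl0]
    rw [div_le_iff₀ hε] at hl4
    nlinarith
  have e4' : ε₁ * ((box 1 H).card : ℝ) ≤ ε / 4 * (box 1 H).card :=
    mul_le_mul_of_nonneg_right hε₁1 hbc
  linarith

end Pool.Agent.Y871.LW
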