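import Pool.Agent.Y73.LW.Gen

/-!
# Project LW, part E: the general theorem with a weaker hypothesis, and its statement
(the proof is helper73's proof of (GEN), with one hypothesis used only where it is needed)
-/

set_option autoImplicit false

namespace Pool.Agent.Y871.LW

open Finset
open Pool.Agent.Y843.HS
open Pool.Agent.Y73.LW

/-- (GEN2) -/
def S_GEN2 : Prop := ∀ k q r e p₀ : ℕ, ∀ κ δ : ℝ, 0 < κ → 0 < δ → ∃ B X₀ : ℕ, ∀ X H : ℕ, X₀ ≤ X →
  Real.log X ^ B ≤ H → ∀ A Xs : Fin q → ℕ, (∀ l, X ≤ Xs l) → ∀ Z : Fin q → ℕ → Finset ℕ,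
  (∀ l, ∀ p : ℕ, p.Prime → (p : ℝ) ≤ (X : ℝ) ^ κ →
    (Z l p).card ≤ r ∧ (Z l p).card < p ∧ ∀ c ∈ Z l p, c < p) →
  ∀ φ : Fin q → ℕ → ℕ,
  (∀ l m, ∀ i ∈ Icc 1 (2 * H), ∀ j ∈ Icc 1 (2 * H), i ≡ j [MOD m] → φ l i ≡ φ l j [MOD m]) →
  (∀ l, ∀ p : ℕ, p.Prime → p₀ < p → (p : ℝ) ≤ (X : ℝ) ^ κ → ∀ c : ℕ,
    (((Icc 1 (2 * H)).filter (fun i => φ l i % p = c)).image (fun i => i % p)).card ≤ e) →
  ∀ T : Finset ((Fin q → ℕ) × ℕ), (∀ t ∈ T, t.1 ∈ bx A Xs ∧ 1 ≤ t.2 ∧ t.2 ≤ H) →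
  (∀ t ∈ T, ∀ l, ∀ p : ℕ, p.Prime → (p : ℝ) ≤ (X : ℝ) ^ κ → (t.1 l + φ l t.2) % p ∉ Z l p) →
  δ * (∏ l, (Xs l : ℝ)) * H * ∏ l, VV (Z l) 0 ⌊(X : ℝ) ^ κ⌋₊ ≤ T.card →
  ∃ (x : Fin q → ℕ) (b d : ℕ), 1 ≤ d ∧ (d : ℝ) ≤ Real.log X ^ B ∧ ∀ j < k, (x, b + j * d) ∈ T

/-- (GEN2) (helper73; the hypothesis on the classes is needed only for the primes up to `X ^ κ`) -/
theorem t_GEN2 (hPA : S_PA) : S_GEN2 := by
  classical
  intro k q r e p₀ κ δ hκ hδ
  set k' := max k 2 with hk'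
  set L := ⌈2 / κ⌉₊ + ⌈2 * κ⌉₊ + 1 with hL
  have hL1 : 2 / κ ≤ L := by
    rw [hL]; push_cast
    have := Nat.le_ceil (2 / κ)
    have h2 : (0 : ℝ) ≤ (⌈2 * κ⌉₊ : ℝ) := Nat.cast_nonneg _
    linarith
  have hL2 : 2 * κ ≤ L := by
    rw [hL]; push_cast
    have := Nat.le_ceil (2 * κ)
    have h2 : (0 : ℝ) ≤ (⌈2 / κ⌉₊ : ℝ) := Nat.cast_nonneg _
    linarith
  clear_value L
  obtain ⟨s₀, hs₀⟩ := hPA k' (le_max_right _ _) q r e L (δ / (6 * 2 ^ q)) (by positivity)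
  set s := max s₀ p₀ with hs
  obtain ⟨B₁, X₁, hX₁⟩ := hs₀ s (le_max_left _ _)
  have hsp₀ : p₀ ≤ s := le_max_right _ _
  clear_value s
  set W := ∏ p ∈ Pr 0 s, p with hW
  have hW1 : 1 ≤ W := Nat.one_le_iff_ne_zero.2 (prod_ne_zero_iff.2 fun p hp => (Pr_prime hp).ne_zero)
  have hW0 : (0 : ℝ) < W := by exact_mod_cast hW1
  obtain ⟨X₂, hX₂⟩ := exists_N B₁ W
  obtain ⟨X₃, hX₃⟩ := sizes hκ hL1 hL2 s X₁ hW1
  refine ⟨B₁ + 2, max X₂ X₃, ?_⟩
  intro X H hX hXH A Xs hXs Z hZ φ hφ1 hφ2 T hTA hTZ hTc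
  obtain ⟨N, hNp, hN5, hNl, hNW⟩ := hX₂ X ((le_max_left _ _).trans hX)
  obtain ⟨hX4, hsY, hX1', hX'Y, hYX', h2W, hlog⟩ := hX₃ X ((le_max_right _ _).trans hX)
  have hX0 : (0 : ℝ) < X := by exact_mod_cast (show 0 < X by omega)
  have hX1 : (1 : ℝ) ≤ X := by exact_mod_cast (show 1 ≤ X by omega)
  have hXκ0 : 0 < (X : ℝ) ^ κ := by positivity
  set Y := ⌊(X : ℝ) ^ κ⌋₊ with hY
  have hYle : (Y : ℝ) ≤ (X : ℝ) ^ κ := Nat.floor_le hXκ0.le
  have hmemY : ∀ p ∈ Pr 0 Y, p.Prime ∧ (p : ℝ) ≤ (X : ℝ) ^ κ := by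
    intro p hp
    rw [Pr_mem] at hp
    exact ⟨hp.2, (by exact_mod_cast hp.1.2 : (p : ℝ) ≤ Y).trans hYle⟩
  have hsub0 : ∀ p ∈ Pr 0 s, p ∈ Pr 0 Y := by
    intro p hp
    rw [Pr_mem] at hp ⊢
    exact ⟨⟨hp.1.1, by omega⟩, hp.2⟩
  have hsub : ∀ p ∈ Pr s Y, p ∈ Pr 0 Y := by
    intro p hp
    rw [Pr_mem] at hp ⊢
    exact ⟨⟨by omega, hp.1.2⟩, hp.2⟩
  have hndvd : ∀ p ∈ Pr s Y, ¬ p ∣ W := by
    intro p hp hpW
    rw [hW, (Pr_prime hp).prime.dvd_finsetProd_iff] at hpW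
    obtain ⟨p', hp', hpp⟩ := hpW
    have h1 := (Nat.prime_dvd_prime_iff_eq (Pr_prime hp) (Pr_prime hp')).1 hpp
    have h2 := (Pr_mem.1 hp').1.2
    have h3 := (Pr_mem.1 hp).1.1
    omega
  have hVVpos : ∀ l, ∀ a b : ℕ, (∀ p ∈ Pr a b, p ∈ Pr 0 Y) → 0 < VV (Z l) a b := by
    intro l a b hab
    unfold VV
    apply prod_pos
    intro p hp
    obtain ⟨h2, h3⟩ := hmemY p (hab p hp)
    have h4 := (hZ l p h2 h3).2.1
    have hp0 : (0 : ℝ) < p := by exact_mod_cast h2.pos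
    have h5 : ((Z l p).card : ℝ) / p < 1 := by
      rw [div_lt_one hp0]
      exact_mod_cast h4
    linarith
  have hWNH : 2 * W * N ≤ H := by exact_mod_cast hNW.trans hXH
  obtain ⟨N2, hN2⟩ : ∃ N2, N2 = (N - 1) / 2 := ⟨_, rfl⟩
  have hN22 : 2 ≤ N2 := by omega
  have hN23 : N ≤ 3 * N2 := by omega
  have hN2N : 2 * N2 < N := by omega
  have hWN2 : 1 ≤ W * N2 := Nat.mul_pos hW1 (by omega)
  have hWN2H : W * N2 ≤ H := by
    have : W * N2 ≤ W * N := Nat.mul_le_mul_left _ (by omega)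
    have h2 : 2 * W * N = W * N + W * N := by ring
    omega
  set Q := H / (W * N2) + 1 with hQ
  -- the first pigeonhole
  have hmaps : ∀ t ∈ T, ((t.2 - 1) / (W * N2), (t.2 - 1) % W) ∈ range Q ×ˢ range W := by
    intro t ht
    obtain ⟨_, h1, h2⟩ := hTA t ht
    rw [mem_product, mem_range, mem_range]
    refine ⟨?_, Nat.mod_lt _ hW1⟩
    show (t.2 - 1) / (W * N2) < Q
    rw [hQ]
    have : (t.2 - 1) / (W * N2) ≤ H / (W * N2) := Nat.div_le_div_right (by omega)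
    omega
  obtain ⟨⟨j, b₀⟩, hjb, hjbT⟩ := pigeon T (range Q ×ˢ range W)
    (fun t => ((t.2 - 1) / (W * N2), (t.2 - 1) % W))
    (by
      rw [nonempty_product]
      exact ⟨⟨0, mem_range.2 (by rw [hQ]; exact Nat.succ_pos _)⟩, ⟨0, mem_range.2 hW1⟩⟩) hmaps
  rw [mem_product, mem_range, mem_range] at hjb
  have hjQ : j < Q := hjb.1
  have hb₀ : b₀ < W := hjb.2
  set T₁ := T.filter (fun t => ((t.2 - 1) / (W * N2), (t.2 - 1) % W) = (j, b₀)) with hT₁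
  set c := j * (W * N2) + b₀ + 1 with hc
  have hjH : j * (W * N2) ≤ H := by
    have h1 : j ≤ H / (W * N2) := by omega
    exact (Nat.mul_le_mul_right _ h1).trans (Nat.div_mul_le_self _ _)
  have hcN : c + W * (N - 1) ≤ 2 * H := by
    have h1 : W * (N - 1) + W = W * N := by
      obtain ⟨n, hn⟩ : ∃ n, N = n + 1 := ⟨N - 1, by omega⟩
      rw [hn, Nat.add_sub_cancel]
      ring
    have h2 : 2 * W * N = W * N + W * N := by ring
    omega
  have hT₁i : ∀ t ∈ T₁, ∃ i', 1 ≤ i' ∧ 2 * i' < N ∧ t.2 = c + W * (i' - 1) := by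
    intro t ht
    rw [hT₁, mem_filter, Prod.mk.injEq] at ht
    obtain ⟨htT, h1, h2⟩ := ht
    obtain ⟨_, h3, _⟩ := hTA t htT
    refine ⟨(t.2 - 1) / W % N2 + 1, Nat.le_add_left _ _, ?_, ?_⟩
    · have : (t.2 - 1) / W % N2 < N2 := Nat.mod_lt _ (by omega)
      omega
    · rw [Nat.add_sub_cancel, hc]
      have h4 := Nat.div_add_mod (t.2 - 1) W
      have h5 := Nat.div_add_mod ((t.2 - 1) / W) N2
      rw [Nat.div_div_eq_div_mul, h1] at h5
      rw [h2] at h4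
      rw [← h5] at h4
      have h6 : W * (N2 * j + (t.2 - 1) / W % N2) = j * (W * N2) + W * ((t.2 - 1) / W % N2) := by
        ring
      omega
  -- the second pigeonhole
  set adm : Finset (Fin q → ℕ) := Fintype.piFinset (fun l =>
    (range W).filter (fun a => ∀ p ∈ Pr 0 s, (a + φ l c) % p ∉ Z l p)) with hadm
  have hadmc : (adm.card : ℝ) = ∏ l, ((W : ℝ) * VV (Z l) 0 s) := by
    rw [hadm, Fintype.card_piFinset]
    push_cast
    apply prod_congr rfl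
    intro l _
    have h1 := card_adm (Z := Z l) (s := s) (φ l c) (fun p hp => by
      obtain ⟨h2, h3⟩ := hmemY p (hsub0 p hp)
      exact (hZ l p h2 h3).2.2)
    rw [← hW] at h1
    convert h1
  have hadm0 : (0 : ℝ) < adm.card := by
    rw [hadmc]
    apply prod_pos
    intro l _
    exact mul_pos hW0 (hVVpos l 0 s hsub0)
  have hadmne : adm.Nonempty := by
    rw [← card_pos]
    exact_mod_cast hadm0
  have hTH : ∀ t ∈ T, t.2 ∈ Icc 1 (2 * H) := by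
    intro t ht
    obtain ⟨_, h1, h2⟩ := hTA t ht
    rw [mem_Icc]
    omega
  have hcH : c ∈ Icc 1 (2 * H) := by
    rw [mem_Icc]
    omega
  have hmaps₁ : ∀ t ∈ T₁, (fun l => t.1 l % W) ∈ adm := by
    intro t ht
    have htT : t ∈ T := (mem_filter.1 ht).1
    obtain ⟨i', hi1, _, hi⟩ := hT₁i t ht
    rw [hadm, Fintype.mem_piFinset]
    intro l
    rw [mem_filter, mem_range]
    refine ⟨Nat.mod_lt _ hW1, ?_⟩
    intro p hp
    obtain ⟨h2, h3⟩ := hmemY p (hsub0 p hp)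
    have h4 := hTZ t htT l p h2 h3
    have hpW : p ∣ W := dvd_prod_of_mem _ hp
    have h5 : t.2 ≡ c [MOD p] := by
      rw [hi]
      obtain ⟨w, hw⟩ := hpW
      unfold Nat.ModEq
      rw [hw, mul_assoc, Nat.add_mul_mod_self_left]
    have h6 := hφ1 l p _ (hTH t htT) _ hcH h5
    have h7 : (t.1 l % W + φ l c) % p = (t.1 l + φ l t.2) % p := by
      have h8 : t.1 l % W ≡ t.1 l [MOD p] := (Nat.mod_modEq _ _).of_dvd hpW
      exact Nat.ModEq.add h8 h6.symm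
    rw [h7]
    exact h4
  obtain ⟨x0, hx0, hx0T⟩ := pigeon T₁ adm (fun t l => t.1 l % W) hadmne hmaps₁
  set T₂ := T₁.filter (fun t => (fun l => t.1 l % W) = x0) with hT₂
  have hT₂T : ∀ t ∈ T₂, t ∈ T := fun t ht => (mem_filter.1 (mem_filter.1 ht).1).1
  -- the cardinality
  have hcard : δ / (6 * 2 ^ q) * (∏ l, ((Xs l / W + 2 : ℕ) : ℝ)) * N * ∏ l, VV (Z l) s Y ≤
      T₂.card := by
    refine le_trans ?_ hx0T
    rw [le_div_iff₀ hadm0]
    refine le_trans ?_ hjbT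
    have hQW : (0 : ℝ) < ((range Q ×ˢ range W).card : ℝ) := by
      rw [card_product, card_range, card_range]
      have : 0 < Q * W := Nat.mul_pos (by omega) hW1
      exact_mod_cast this
    rw [le_div_iff₀ hQW, hadmc, prod_mul_distrib, prod_const, card_univ, Fintype.card_fin]
    refine le_trans ?_ hTc
    have hsplit : ∏ l, VV (Z l) 0 Y = (∏ l, VV (Z l) 0 s) * ∏ l, VV (Z l) s Y := by
      rw [← prod_mul_distrib]
      apply prod_congr rfl
      intro l _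
      rw [VV_split (Z l) (Nat.zero_le s) hsY]
    rw [hsplit]
    have hP0 : 0 < ∏ l, VV (Z l) 0 s := prod_pos fun l _ => hVVpos l 0 s hsub0
    have hP1 : 0 < ∏ l, VV (Z l) s Y := prod_pos fun l _ => hVVpos l s Y hsub
    have hXW : (W : ℝ) ^ q * ∏ l, ((Xs l / W + 2 : ℕ) : ℝ) ≤ 2 ^ q * ∏ l, (Xs l : ℝ) := by
      have h1 : ∀ l : Fin q, (W : ℝ) * ((Xs l / W + 2 : ℕ) : ℝ) ≤ 2 * (Xs l : ℝ) := by
        intro l
        have h2 := Nat.mul_div_le (Xs l) W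
        have h3 := hXs l
        have h4 : W * (Xs l / W + 2) ≤ 2 * Xs l := by
          rw [mul_add]
          omega
        exact_mod_cast h4
      have h5 : ∏ l : Fin q, ((W : ℝ) * ((Xs l / W + 2 : ℕ) : ℝ)) ≤ ∏ l : Fin q, (2 * (Xs l : ℝ)) :=
        prod_le_prod (fun l _ => by positivity) fun l _ => h1 l
      rw [prod_mul_distrib, prod_mul_distrib, prod_const, prod_const, card_univ,
        Fintype.card_fin] at h5
      exact h5
    have hQWN : (((range Q ×ˢ range W).card : ℕ) : ℝ) * N ≤ 6 * H := by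
      rw [card_product, card_range, card_range]
      have h1 : Q * (W * N2) ≤ 2 * H := by
        rw [hQ, add_mul, one_mul]
        have := Nat.div_mul_le_self H (W * N2)
        omega
      have h2 : Q * W * N ≤ 6 * H := by
        calc Q * W * N ≤ Q * W * (3 * N2) := Nat.mul_le_mul_left _ hN23
          _ = 3 * (Q * (W * N2)) := by ring
          _ ≤ 3 * (2 * H) := Nat.mul_le_mul_left _ h1
          _ = 6 * H := by ring
      exact_mod_cast h2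
    have hPX : (0 : ℝ) ≤ ∏ l, (Xs l : ℝ) := prod_nonneg fun l _ => Nat.cast_nonneg _
    generalize (((range Q ×ˢ range W).card : ℕ) : ℝ) = QW at *
    generalize (∏ l, ((Xs l / W + 2 : ℕ) : ℝ)) = PX' at *
    generalize (∏ l, (Xs l : ℝ)) = PX at *
    generalize (∏ l, VV (Z l) 0 s) = P0 at *
    generalize (∏ l, VV (Z l) s Y) = P1 at *
    have hH0 : (0 : ℝ) ≤ H := Nat.cast_nonneg _
    have hN0 : (0 : ℝ) ≤ N := Nat.cast_nonneg _
    calc δ / (6 * 2 ^ q) * PX' * N * P1 * ((W : ℝ) ^ q * P0) * QW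
        = δ / (6 * 2 ^ q) * P0 * P1 * (((W : ℝ) ^ q * PX') * (QW * N)) := by ring
      _ ≤ δ / (6 * 2 ^ q) * P0 * P1 * ((2 ^ q * PX) * (6 * H)) := by
          apply mul_le_mul_of_nonneg_left _ (by positivity)
          exact mul_le_mul hXW hQWN (by positivity) (by positivity)
      _ = δ * PX * H * (P0 * P1) := by
          field_simp
  obtain ⟨x, b, d, hd1, hd2, had⟩ := core (k := k') (q := q) (r := r) (e := e) (s := s) (Y := Y)
    (N := N) (W := W) (H := H) (c := c) (δ' := δ / (6 * 2 ^ q)) (A := A) (Xs := Xs) (Z := Z)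
    (φ := φ) hW1 hndvd
    (by
      intro l p hp
      obtain ⟨h2, h3⟩ := hmemY p (hsub p hp)
      exact ⟨(hZ l p h2 h3).1, (hZ l p h2 h3).2.2⟩)
    hφ1
    (by
      intro l p hp
      exact hφ2 l p (Pr_prime hp) (lt_of_le_of_lt hsp₀ (Pr_mem.1 hp).1.1) (hmemY p (hsub p hp)).2)
    (by omega) hcN x0 T₂ (fun t ht => (hTA t (hT₂T t ht)).1)
    (fun t ht l => congrFun (mem_filter.1 ht).2 l)
    (fun t ht => hT₁i t (mem_filter.1 ht).1)
    (by
      intro t ht l p hp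
      obtain ⟨h2, h3⟩ := hmemY p (hsub p hp)
      exact hTZ t (hT₂T t ht) l p h2 h3)
    (by
      intro Z' hZ' φ' hφ' T' hT'A hT'Z hT'c
      refine hX₁ (X / W + 2) Y N hX1' hX'Y hYX' hNp ?_ (fun l => A l / W)
        (fun l => Xs l / W + 2) ?_ Z' hZ' φ' hφ' T' hT'A hT'Z hT'c
      · refine le_trans ?_ hNl
        apply pow_le_pow_left₀ _ hlog
        apply Real.log_nonneg
        exact_mod_cast (show 1 ≤ X / W + 2 by generalize X / W = a; omega)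
      · intro l
        have : X / W ≤ Xs l / W := Nat.div_le_div_right (hXs l)
        show X / W + 2 ≤ Xs l / W + 2
        omega)
    (by omega) hcard
  refine ⟨x, b, d, hd1, ?_, ?_⟩
  · have h1 : (d : ℝ) ≤ W * N := by exact_mod_cast hd2
    have h2 : (W : ℝ) * N ≤ 2 * W * N := by
      have : (0 : ℝ) ≤ W * N := by positivity
      linarith
    exact h1.trans (h2.trans hNW)
  · intro i hi
    exact hT₂T _ (had i (lt_of_lt_of_le hi (le_max_left _ _)))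

end Pool.Agent.Y871.LW
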