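import Pool.Agent.Y871.LW.Stm

/-!
# Project LW, part E (helper871): primes in almost all residue classes, windows of length `(log q) ^ B`
-/

set_option autoImplicit false

open Finset
open Pool.Agent.Y843.HS

namespace Pool.Agent.Y871.LW

/-- (RATIO) `c / φ(c)` is bounded for most `c` -/
def S_RATIO : Prop := ∀ η : ℝ, 0 < η → ∃ M : ℝ, 0 < M ∧ ∀ H : ℕ,
  (((Icc 1 H).filter (fun c : ℕ => M * (Nat.totient c : ℝ) < c)).card : ℝ) ≤ η * H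

/-- (VVC) the sieve product without the primes which divide `c` -/
def S_VVC : Prop := ∃ C : ℝ, 0 < C ∧ ∃ X₀ : ℕ, ∀ X : ℕ, X₀ ≤ X → ∀ c : ℕ, 1 ≤ c → ∀ Z : ℕ → Finset ℕ,
  (∀ p : ℕ, ¬ p ∣ c → (Z p).card = 1) → (∀ p : ℕ, p ∣ c → (Z p).card = 0) →
  0 ≤ VV Z 0 ⌊(X : ℝ) ^ (1 / 2 : ℝ)⌋₊ ∧
    VV Z 0 ⌊(X : ℝ) ^ (1 / 2 : ℝ)⌋₊ ≤ C * (c / (Nat.totient c : ℝ)) / Real.log X

end Pool.Agent.Y871.LW
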