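import Pool.Agent.Y871.LW.Uni
import Pool.Agent.Y871.LW.GenB
import Pool.Agent.Y871.LW.StmE

/-!
# Project LW, part E: primes `c n + a`, `n` in a window of logarithmic length, for almost all `a`
(adapted from `t_UNI`, which goes back to helper497's proof of (POLY))
-/

set_option autoImplicit false

namespace Pool.Agent.Y871.LW

open Finset
open Pool.Agent.Y843.HS
open Pool.Agent.Y497.LW

/-- a multiplier which is a unit modulo all small primes, and `c` modulo those which do not divide `c` -/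
theorem unit_u (c y : ℕ) (hc : 1 ≤ c) : ∃ u : ℕ, ∀ p : ℕ, p.Prime → p ≤ y →
    ¬ p ∣ u ∧ (¬ p ∣ c → u ≡ c [MOD p]) := by
  refine ⟨c + ∏ p ∈ (Icc 1 y).filter (fun p => p.Prime ∧ ¬ p ∣ c), p, fun p hp hpy => ?_⟩
  have hmem : ¬ p ∣ c → p ∣ ∏ p ∈ (Icc 1 y).filter (fun p => p.Prime ∧ ¬ p ∣ c), p := by
    intro hpc
    apply dvd_prod_of_mem
    rw [mem_filter, mem_Icc]
    exact ⟨⟨hp.one_lt.le, hpy⟩, hp, hpc⟩
  constructor
  · by_cases hpc : p ∣ c
    · rw [(Nat.dvd_add_right hpc)]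
      intro h
      rw [hp.prime.dvd_finsetProd_iff] at h
      obtain ⟨p', hp', hpp⟩ := h
      rw [mem_filter] at hp'
      have h1 := (Nat.prime_dvd_prime_iff_eq hp hp'.2.1).1 hpp
      rw [← h1] at hp'
      exact hp'.2.2 hpc
    · intro h
      exact hpc ((Nat.dvd_add_left (hmem hpc)).1 h)
  · intro hpc
    have h1 := (Nat.modEq_zero_iff_dvd.2 (hmem hpc))
    have h2 := Nat.ModEq.add_left c h1
    rwa [add_zero] at h2

open Classical in
theorem t_APU (hG : S_GEN2) (hV : S_VVC) (k : ℕ) (hk : 1 ≤ k) (R ε : ℝ) (hR : 0 < R) (hε : 0 < ε) :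
    ∃ B X₀ : ℕ, ∀ X H : ℕ, X₀ ≤ X → Real.log X ^ B ≤ H → ∀ cc : ℕ, 1 ≤ cc →
    (cc : ℝ) ≤ R * (Nat.totient cc : ℝ) → ∀ (A : Fin 1 → ℤ) (Xs : Fin 1 → ℕ), (∀ l, X ≤ Xs l) →
    (((Fintype.piFinset fun l => Ioc (A l) (A l + Xs l)).filter (fun a =>
      ¬ Cov (pts (fun _ : Fin 1 => Polynomial.C (cc : ℤ) * Polynomial.X) a 0 H) k (Real.log X ^ B)
        (ε * H / Real.log X ^ 1))).card : ℝ) ≤ ε * ∏ l, (Xs l : ℝ) := by
  obtain ⟨q, hq⟩ : ∃ q : ℕ, q = 1 := ⟨_, rfl⟩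
  obtain ⟨m, hm⟩ : ∃ m : ℕ, m = 0 := ⟨_, rfl⟩
  rw [← hq]
  obtain ⟨C', hC', X₂, hVV'⟩ := hV
  obtain ⟨C, hC⟩ : ∃ C : ℝ, C = C' * R := ⟨_, rfl⟩
  have hC0 : 0 < C := by rw [hC]; positivity
  obtain ⟨δ, hδ⟩ : ∃ δ : ℝ, δ = ε ^ 2 / (2 * C ^ q) := ⟨_, rfl⟩
  have hδ0 : 0 < δ := by rw [hδ]; positivity
  obtain ⟨B, X₀, hGen⟩ := hG k q 1 1 0 (1 / 2) δ (by norm_num) hδ0
  obtain ⟨X₁, hX₁⟩ := log_small q (ε ^ 2 / (6 * (q + 1))) (by positivity)
  refine ⟨B, max (max X₀ X₁) (max X₂ 3), fun X H hX hH cc hcc' hccR A Xs hXs => ?_⟩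
  have hcc : 1 ≤ cc := by omega
  obtain ⟨F, hF⟩ : ∃ F : Fin q → Polynomial ℤ, F = fun _ => Polynomial.C (cc : ℤ) * Polynomial.X :=
    ⟨_, rfl⟩
  have hFev : ∀ l, ∀ n : ℤ, (F l).eval n = cc * n := by
    intro l n
    rw [hF]
    simp
  rw [← hF, ← hm]
  have hX0 : X₀ ≤ X := by omega
  have hX1 : X₁ ≤ X := by omega
  have hX2 : X₂ ≤ X := by omega
  have hX3 : 3 ≤ X := by omega
  by_contra hcon
  push Not at hcon
  obtain ⟨box, hbox⟩ : ∃ box, box = Fintype.piFinset fun l => Ioc (A l) (A l + Xs l) := ⟨_, rfl⟩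
  obtain ⟨t, ht⟩ : ∃ t : ℝ, t = ε * H / Real.log X ^ q := ⟨_, rfl⟩
  obtain ⟨D, hD⟩ : ∃ D : ℝ, D = Real.log X ^ B := ⟨_, rfl⟩
  rw [← hbox, ← ht, ← hD] at hcon
  generalize hbad : box.filter (fun a => ¬ Cov (pts F a m H) k D t) = bad at hcon
  have hbadm : ∀ a, a ∈ bad ↔ a ∈ box ∧ ¬ Cov (pts F a m H) k D t := by
    intro a
    rw [← hbad, mem_filter]
  have hex : ∀ a : Fin q → ℤ, ∃ ST : Finset ℕ × Finset ℕ, a ∈ bad → ST.1 ⊆ pts F a m H ∧
      ST.2 ⊆ ST.1 ∧ (∀ n ∈ ST.2, ¬ InAP ST.1 k D n) ∧ t < ST.2.card := by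
    intro a
    by_cases ha : a ∈ bad
    · have h1 := ((hbadm a).1 ha).2
      unfold Cov at h1
      push Not at h1
      obtain ⟨S, hS, T, hT, h2, h3⟩ := h1
      exact ⟨(S, T), fun _ => ⟨hS, hT, h2, h3⟩⟩
    · exact ⟨(∅, ∅), fun h => absurd h ha⟩
  choose ST hST using hex
  -- the polynomials
  obtain ⟨y, hy⟩ : ∃ y : ℕ, y = ⌊(X : ℝ) ^ (1 / 2 : ℝ)⌋₊ := ⟨_, rfl⟩
  obtain ⟨u, hu⟩ := unit_u cc y hcc
  obtain ⟨φ, hφd⟩ : ∃ φ : Fin q → ℕ → ℕ, φ = fun _ i => u * i := ⟨_, rfl⟩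
  obtain ⟨Z, hZ, hZ'⟩ : ∃ Z : Fin q → ℕ → Finset ℕ,
      (∀ l p, ¬ p ∣ cc → Z l p = {((0 - A l) % p).toNat}) ∧ ∀ l p, p ∣ cc → Z l p = ∅ :=
    ⟨fun l p => if p ∣ cc then ∅ else {((0 - A l) % p).toNat}, fun l p h => if_neg h,
      fun l p h => if_pos h⟩
  obtain ⟨U, hU⟩ : ∃ U : (Fin q → ℤ) → Finset ℕ, U = fun a =>
    (ST a).2.filter (fun n : ℕ => ∀ l, y < ((F l).eval (n : ℤ) + a l).natAbs) := ⟨_, rfl⟩
  have hUm : ∀ a ∈ bad, ∀ n ∈ U a, (∀ l, A l < a l ∧ a l ≤ A l + Xs l) ∧ m < n ∧ n ≤ m + H ∧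
      (∀ l, ((F l).eval (n : ℤ) + a l).natAbs.Prime ∧ y < ((F l).eval (n : ℤ) + a l).natAbs) ∧
      n ∈ (ST a).2 := by
    intro a ha n hn
    rw [hU] at hn
    simp only at hn
    rw [mem_filter] at hn
    obtain ⟨h1, h2⟩ := hn
    obtain ⟨h3, h4, -, -⟩ := hST a ha
    have h5 := h3 (h4 h1)
    unfold pts at h5
    rw [mem_filter, mem_Ioc] at h5
    have h6 := ((hbadm a).1 ha).1
    rw [hbox, Fintype.mem_piFinset] at h6
    exact ⟨fun l => mem_Ioc.1 (h6 l), h5.1.1, h5.1.2, fun l => ⟨h5.2 l, h2 l⟩, h1⟩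
  obtain ⟨g, hg⟩ : ∃ g : (Σ _ : Fin q → ℤ, ℕ) → (Fin q → ℕ) × ℕ,
    g = fun t => (fun l => (t.1 l - A l).toNat, t.2 - m) := ⟨_, rfl⟩
  obtain ⟨T, hT⟩ : ∃ T : Finset ((Fin q → ℕ) × ℕ), T = (bad.sigma U).image g := ⟨_, rfl⟩
  have hinj : Set.InjOn g (bad.sigma U : Set (Σ _ : Fin q → ℤ, ℕ)) := by
    rintro ⟨a, n⟩ h1 ⟨a', n'⟩ h2 h3
    rw [mem_coe, mem_sigma] at h1 h2
    obtain ⟨u1, u2, -, -, -⟩ := hUm a h1.1 n h1.2
    obtain ⟨v1, v2, -, -, -⟩ := hUm a' h2.1 n' h2.2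
    rw [hg] at h3
    simp only [Prod.mk.injEq] at h3
    obtain ⟨h4, h5⟩ := h3
    obtain rfl : a = a' := by
      funext l
      have h6 := congrFun h4 l
      have := u1 l
      have := v1 l
      omega
    obtain rfl : n = n' := by omega
    rfl
  have hTcard : T.card = ∑ a ∈ bad, (U a).card := by
    rw [hT, card_image_of_injOn hinj, card_sigma]
  obtain ⟨L, hL⟩ : ∃ L : ℕ, L = ∑ a ∈ box,
      ((Ioc m (m + H)).filter (fun n : ℕ => ∃ l, ((F l).eval (n : ℤ) + a l).natAbs ≤ y)).card :=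
    ⟨_, rfl⟩
  have hsum : ∑ a ∈ bad, (ST a).2.card ≤ T.card + L := by
    rw [hTcard, hL]
    refine (sum_le_sum (g := fun a => (U a).card + ((Ioc m (m + H)).filter (fun n : ℕ =>
      ∃ l, ((F l).eval (n : ℤ) + a l).natAbs ≤ y)).card) fun a ha => ?_).trans ?_
    · rw [hU]
      simp only
      rw [← card_filter_add_card_filter_not (s := (ST a).2)
        (fun n : ℕ => ∀ l, y < ((F l).eval (n : ℤ) + a l).natAbs)]
      refine Nat.add_le_add_left (card_le_card ?_) _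
      intro n hn
      rw [mem_filter] at hn ⊢
      obtain ⟨h3, h4, -, -⟩ := hST a ha
      have h5 := h3 (h4 hn.1)
      unfold pts at h5
      refine ⟨(mem_filter.1 h5).1, ?_⟩
      have h6 := hn.2
      push Not at h6
      exact h6
    · rw [sum_add_distrib]
      refine Nat.add_le_add_left (sum_le_sum_of_subset ?_) _
      intro a ha
      exact ((hbadm a).1 ha).1
  have hLX : X * L ≤ H * (q * ((2 * y + 1) * ∏ l, Xs l)) := by
    have := small_all A Xs X y hXs (Ioc m (m + H)) (fun l n => (F l).eval (n : ℤ))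
    rw [Nat.card_Ioc, Nat.add_sub_cancel_left, ← hbox, ← hL] at this
    exact this
  -- real inequalities
  obtain ⟨P, hP⟩ : ∃ P : ℝ, P = ∏ l, (Xs l : ℝ) := ⟨_, rfl⟩
  have hP0 : 0 ≤ P := by rw [hP]; positivity
  rw [← hP] at hcon
  have hXr : (3 : ℝ) ≤ X := by exact_mod_cast hX3
  have hlX : 0 < Real.log X := Real.log_pos (by linarith)
  obtain ⟨Λ, hΛ⟩ : ∃ Λ : ℝ, Λ = Real.log X ^ q := ⟨_, rfl⟩
  have hΛ0 : 0 < Λ := by rw [hΛ]; positivity
  obtain ⟨s, hs⟩ : ∃ s : ℝ, s = (X : ℝ) ^ (1 / 2 : ℝ) := ⟨_, rfl⟩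
  have hs1 : 1 ≤ s := by
    rw [hs]
    exact Real.one_le_rpow (by linarith) (by norm_num)
  have hss : s * s = X := by
    rw [hs, ← Real.rpow_add (by linarith)]
    norm_num
  have hys : (y : ℝ) ≤ s := by
    rw [hy, ← hs]
    exact Nat.floor_le (by linarith)
  have hΛs : Λ ≤ ε ^ 2 / (6 * (q + 1)) * s := by
    rw [hΛ, hs]
    exact hX₁ X hX1
  have hLr : (X : ℝ) * L ≤ H * (q * ((2 * y + 1) * P)) := by
    rw [hP]
    exact_mod_cast hLX
  have hH0 : (0 : ℝ) ≤ H := Nat.cast_nonneg _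
  have hL0 : (0 : ℝ) ≤ L := Nat.cast_nonneg _
  have hq0 : (0 : ℝ) ≤ q := Nat.cast_nonneg _
  have hLs : s * L ≤ 3 * (H * q * P) := by
    have h1 : s * (s * L) ≤ s * (3 * (H * q * P)) := by
      calc s * (s * L) = X * L := by rw [← hss]; ring
        _ ≤ H * (q * ((2 * y + 1) * P)) := hLr
        _ ≤ H * (q * ((3 * s) * P)) := by gcongr; linarith
        _ = _ := by ring
    exact le_of_mul_le_mul_left h1 (by linarith)
  have hLΛ : L * Λ ≤ ε ^ 2 / 2 * (H * P) := by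
    calc L * Λ ≤ L * (ε ^ 2 / (6 * (q + 1)) * s) := mul_le_mul_of_nonneg_left hΛs hL0
      _ = ε ^ 2 / (6 * (q + 1)) * (s * L) := by ring
      _ ≤ ε ^ 2 / (6 * (q + 1)) * (3 * (H * q * P)) :=
        mul_le_mul_of_nonneg_left hLs (by positivity)
      _ = ε ^ 2 / 2 * (H * P) * (q / (q + 1)) := by
        field_simp
        ring
      _ ≤ ε ^ 2 / 2 * (H * P) * 1 := by
        refine mul_le_mul_of_nonneg_left ?_ (by positivity)
        rw [div_le_one (by linarith)]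
        linarith
      _ = _ := mul_one _
  have ht0 : 0 ≤ t := by rw [ht]; positivity
  have htΛ : t * Λ = ε * H := by
    rw [ht, ← hΛ]
    field_simp
  have h1 : ε * P * t ≤ T.card + L := by
    have h2 : (bad.card : ℝ) * t ≤ ∑ a ∈ bad, ((ST a).2.card : ℝ) := by
      rw [← nsmul_eq_mul]
      exact card_nsmul_le_sum _ _ _ fun a ha => (hST a ha).2.2.2.le
    have h3 : ∑ a ∈ bad, ((ST a).2.card : ℝ) ≤ T.card + L := by exact_mod_cast hsum
    have h4 : ε * P * t ≤ bad.card * t := mul_le_mul_of_nonneg_right hcon.le ht0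
    linarith
  have h2 : ε ^ 2 / 2 * (H * P) ≤ T.card * Λ := by
    have h3 : ε * P * t * Λ ≤ (T.card + L) * Λ := mul_le_mul_of_nonneg_right h1 hΛ0.le
    have h4 : ε * P * t * Λ = ε ^ 2 * (H * P) := by
      rw [mul_assoc, htΛ]
      ring
    nlinarith
  have hprod : δ * (∏ l, (Xs l : ℝ)) * H * ∏ l, VV (Z l) 0 ⌊(X : ℝ) ^ (1 / 2 : ℝ)⌋₊ ≤ T.card := by
    rw [← hP]
    have h3 : ∏ l, VV (Z l) 0 ⌊(X : ℝ) ^ (1 / 2 : ℝ)⌋₊ ≤ (C / Real.log X) ^ q := by
      have h4 : ∀ l, 0 ≤ VV (Z l) 0 ⌊(X : ℝ) ^ (1 / 2 : ℝ)⌋₊ ∧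
          VV (Z l) 0 ⌊(X : ℝ) ^ (1 / 2 : ℝ)⌋₊ ≤ C / Real.log X := by
        intro l
        obtain ⟨v1, v2⟩ := hVV' X hX2 cc hcc (Z l)
          (fun p hp => by rw [hZ l p hp, card_singleton]) (fun p hp => by rw [hZ' l p hp, card_empty])
        refine ⟨v1, v2.trans ?_⟩
        apply div_le_div_of_nonneg_right _ hlX.le
        rw [hC]
        apply mul_le_mul_of_nonneg_left _ hC'.le
        have v3 : (0 : ℝ) < (Nat.totient cc : ℝ) := by exact_mod_cast Nat.totient_pos.2 hcc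
        rw [div_le_iff₀ v3]
        exact hccR
      refine (prod_le_prod (fun l _ => (h4 l).1) (fun l _ => (h4 l).2)).trans_eq ?_
      rw [prod_const, card_univ, Fintype.card_fin]
    calc δ * P * H * ∏ l, VV (Z l) 0 ⌊(X : ℝ) ^ (1 / 2 : ℝ)⌋₊ ≤
          δ * P * H * (C / Real.log X) ^ q := mul_le_mul_of_nonneg_left h3 (by positivity)
      _ = ε ^ 2 / 2 * (H * P) / Λ := by
        rw [hδ, hΛ, div_pow]
        field_simp
      _ ≤ T.card := by
        rw [div_le_iff₀ hΛ0]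
        exact h2
  obtain ⟨x, b, d, hd1, hd2, hxb⟩ := hGen X H hX0 hH (fun _ => 0) Xs hXs Z
    (by
      intro l p hp _
      by_cases hpc : p ∣ cc
      · rw [hZ' l p hpc, card_empty]
        exact ⟨by omega, hp.pos, fun c hc => absurd hc (notMem_empty c)⟩
      rw [hZ l p hpc, card_singleton]
      refine ⟨le_rfl, hp.one_lt, fun c hc => ?_⟩
      rw [mem_singleton] at hc
      have h3 := Int.emod_nonneg (0 - A l) (show (p : ℤ) ≠ 0 by exact_mod_cast hp.ne_zero)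
      have h4 := Int.emod_lt_of_pos (0 - A l) (show (0 : ℤ) < p by exact_mod_cast hp.pos)
      omega)
    φ
    (by
      intro l M i _ j _ hij
      rw [hφd]
      exact Nat.ModEq.mul_left u hij)
    (by
      intro l p hp hp0 hpX c
      have hpy : p ≤ y := by
        rw [hy]
        exact Nat.le_floor hpX
      obtain ⟨hpu, -⟩ := hu p hp hpy
      rw [hφd]
      apply card_le_one.2
      intro r hr r' hr'
      rw [mem_image] at hr hr'
      obtain ⟨i, hi, rfl⟩ := hr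
      obtain ⟨i', hi', rfl⟩ := hr'
      rw [mem_filter] at hi hi'
      have h3 : u * i ≡ u * i' [MOD p] := by
        unfold Nat.ModEq
        rw [hi.2, hi'.2]
      have h4 : Nat.Coprime p u := (Nat.Prime.coprime_iff_not_dvd hp).2 hpu
      exact Nat.ModEq.cancel_left_of_coprime (by rw [Nat.Coprime] at h4; exact h4) h3)
    T
    (by
      intro t' ht'
      rw [hT, mem_image] at ht'
      obtain ⟨⟨a, n⟩, han, rfl⟩ := ht'
      rw [mem_sigma] at han
      obtain ⟨u1, u2, u3, -, -⟩ := hUm a han.1 n han.2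
      rw [hg]
      simp only
      refine ⟨?_, by omega, by omega⟩
      unfold bx
      rw [Fintype.mem_piFinset]
      intro l
      rw [mem_Ioc]
      change 0 < (a l - A l).toNat ∧ (a l - A l).toNat ≤ 0 + Xs l
      have h3 : A l < a l ∧ a l ≤ A l + Xs l := u1 l
      omega)
    (by
      intro t' ht' l p hp hpX
      rw [hT, mem_image] at ht'
      obtain ⟨⟨a, n⟩, han, rfl⟩ := ht'
      rw [mem_sigma] at han
      obtain ⟨u1, u2, u3, u4, -⟩ := hUm a han.1 n han.2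
      rw [hg]
      simp only
      by_cases hpc : p ∣ cc
      · rw [hZ' l p hpc]
        exact notMem_empty _
      rw [hZ l p hpc, mem_singleton]
      intro hcon2
      have h3 := Int.emod_nonneg (0 - A l) (show (p : ℤ) ≠ 0 by exact_mod_cast hp.ne_zero)
      have hpy : p ≤ y := by
        rw [hy]
        exact Nat.le_floor hpX
      obtain ⟨-, hpu⟩ := hu p hp hpy
      have h4 : (φ l (n - m) : ℤ) ≡ (F l).eval (n : ℤ) [ZMOD p] := by
        rw [hφd, hFev, hm, Nat.sub_zero]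
        have h41 := Nat.ModEq.mul_right n (hpu hpc)
        have h42 := (Int.natCast_modEq_iff.2 h41)
        push_cast at h42
        simp only
        push_cast
        exact h42
      have h5 : ((((a l - A l).toNat + φ l (n - m)) % p : ℕ) : ℤ) = (0 - A l) % p := by
        rw [hcon2]
        exact Int.toNat_of_nonneg h3
      push_cast at h5
      rw [Int.toNat_of_nonneg (by have := u1 l; omega)] at h5
      have h51 : (a l - A l + (F l).eval (n : ℤ)) % p = (0 - A l) % p := by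
        rw [← h5]
        exact (Int.ModEq.add_left _ h4).symm
      have h6 : (p : ℤ) ∣ (a l - A l + (F l).eval (n : ℤ)) - (0 - A l) :=
        Int.ModEq.dvd (Int.ModEq.symm h51)
      have h7 : (a l - A l + (F l).eval (n : ℤ)) - (0 - A l) =
        (F l).eval (n : ℤ) + a l := by ring
      rw [h7] at h6
      have h8 := Int.natAbs_dvd_natAbs.2 h6
      rw [Int.natAbs_natCast] at h8
      have h9 := (Nat.prime_dvd_prime_iff_eq hp (u4 l).1).1 h8
      have h10 : p ≤ y := by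
        rw [hy]
        exact Nat.le_floor hpX
      have h11 := (u4 l).2
      omega)
    hprod
  -- the progression
  have hpt : ∀ j < k, (fun l => (x l : ℤ) + A l) ∈ bad ∧
      m + b + j * d ∈ (ST (fun l => (x l : ℤ) + A l)).2 := by
    intro j hj
    have h3 := hxb j hj
    rw [hT, mem_image] at h3
    obtain ⟨⟨a, n⟩, han, hgg⟩ := h3
    rw [mem_sigma] at han
    obtain ⟨u1, u2, u3, -, u5⟩ := hUm a han.1 n han.2
    simp only at u1 u2 u3 u5 han
    rw [hg] at hgg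
    simp only [Prod.mk.injEq] at hgg
    obtain ⟨h4, h5⟩ := hgg
    have h6 : (fun l => (x l : ℤ) + A l) = a := by
      funext l
      have h7 := congrFun h4 l
      have := u1 l
      omega
    rw [h6, show m + b + j * d = n by omega]
    exact ⟨han.1, u5⟩
  obtain ⟨h3, h4⟩ := hpt 0 (by omega)
  obtain ⟨-, h5, h6, -⟩ := hST _ h3
  refine h6 _ h4 ⟨m + b, d, hd1, by rw [hD]; exact hd2, fun j hj => h5 (hpt j hj).2, 0, by omega, rfl⟩

end Pool.Agent.Y871.LW
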