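import Mathlib

/-!
# Project LW, part C (helper871): windows near the real zeros of `F + k`
-/

set_option autoImplicit false

open Finset

namespace Pool.Agent.Y871.LW

/-- the number of residues `a` modulo `p` such that `p` divides `F(a) + k` -/
def rhoC (F : Polynomial ℤ) (k : ℤ) (p : ℕ) : ℕ :=
  ((range p).filter (fun a : ℕ => (p : ℤ) ∣ F.eval (a : ℤ) + k)).card

/-- the product of `(p - rho(p)) / (p - 1)` over the primes `p ≤ z` -/
noncomputable def SC (F : Polynomial ℤ) (k : ℤ) (z : ℕ) : ℝ :=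
  ∏ p ∈ (range (z + 1)).filter Nat.Prime, ((p : ℝ) - rhoC F k p) / ((p : ℝ) - 1)

open Classical in
/-- (LT0) the lower tail of the truncated singular series of `F + k`, `|k| ≤ N` -/
def S_LT0 : Prop := ∀ F : Polynomial ℤ, 1 ≤ F.natDegree → ∀ η : ℝ, 0 < η → ∃ δ : ℝ, 0 < δ ∧
  ∀ E : ℕ, ∃ N₀ : ℕ, ∀ N : ℕ, N₀ ≤ N → (((Icc (-(N : ℤ)) N).filter (fun k =>
    (∀ p : ℕ, p.Prime → p ≤ ⌊Real.log N ^ E⌋₊ → rhoC F k p < p) ∧
      SC F k ⌊Real.log N ^ E⌋₊ < δ)).card : ℝ) ≤ η * N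

end Pool.Agent.Y871.LW
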