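import Pool.Agent.Y871.LW.Uni
import Pool.Agent.Y871.LW.StmC

/-!
# Project LW, part C: covers for sets of integers, Lipschitz bound, one block
-/

set_option autoImplicit false

namespace Pool.Agent.Y871.LW

open Finset Polynomial

/-- the `m` in `(a, b]` for which `|F(m) + t|` is prime -/
noncomputable def zp (F : ℤ[X]) (t a b : ℤ) : Finset ℤ := (Ioc a b).filter (fun m => (F.eval m + t).natAbs.Prime)

/-- `n` is a term of a progression of `k` terms in `S` with a difference `1 ≤ d ≤ D` -/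
def InZ (S : Finset ℤ) (k : ℕ) (D : ℝ) (n : ℤ) : Prop :=
  ∃ b : ℤ, ∃ d : ℕ, 1 ≤ d ∧ (d : ℝ) ≤ D ∧ (∀ i < k, b + (i : ℤ) * d ∈ S) ∧ ∃ i < k, n = b + (i : ℤ) * d

/-- in every subset of `P`, all elements but at most `t` lie in progressions of the subset -/
def CovZ (P : Finset ℤ) (k : ℕ) (D t : ℝ) : Prop :=
  ∀ S ⊆ P, ∀ T ⊆ S, (∀ n ∈ T, ¬ InZ S k D n) → (T.card : ℝ) ≤ t

theorem InZ_mono {S S' : Finset ℤ} (hS : S ⊆ S') {k : ℕ} {D D' : ℝ} (hD : D ≤ D') {n : ℤ}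
    (h : InZ S k D n) : InZ S' k D' n := by
  obtain ⟨b, d, h1, h2, h3, h4⟩ := h
  exact ⟨b, d, h1, h2.trans hD, fun i hi => hS (h3 i hi), h4⟩

theorem CovZ_mono {P P' : Finset ℤ} (hP : P ⊆ P') {k : ℕ} {D D' t t' : ℝ} (hD : D ≤ D') (ht : t ≤ t')
    (h : CovZ P' k D t) : CovZ P k D' t' := by
  intro S hS T hT hn
  exact (h S (hS.trans hP) T hT (fun n hn' hc => hn n hn' (InZ_mono (Subset.refl _) hD hc))).trans ht

/-- from a window of natural numbers to a window of integers -/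
theorem shiftZ (F : ℤ[X]) (t m₀ : ℤ) (H k : ℕ) (D u : ℝ)
    (h : Cov (pts (fun _ : Fin 1 => F.comp (X + C m₀)) (fun _ => t) 0 H) k D u) :
    CovZ (zp F t m₀ (m₀ + H)) k D u := by
  intro S hS T hT hn
  have hmem : ∀ n ∈ S, m₀ < n ∧ n ≤ m₀ + H ∧ (F.eval n + t).natAbs.Prime := by
    intro n hn'
    have h1 := hS hn'
    unfold zp at h1
    rw [mem_filter, mem_Ioc] at h1
    exact ⟨h1.1.1, h1.1.2, h1.2⟩
  have hinj : ∀ n ∈ S, ((n - m₀).toNat : ℤ) = n - m₀ := by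
    intro n hn'
    exact Int.toNat_of_nonneg (by have := (hmem n hn').1; omega)
  have h1 := h (S.image (fun n => (n - m₀).toNat)) (by
    intro x hx
    rw [mem_image] at hx
    obtain ⟨n, hn', rfl⟩ := hx
    obtain ⟨a1, a2, a3⟩ := hmem n hn'
    unfold pts
    rw [mem_filter, mem_Ioc]
    refine ⟨⟨by omega, by omega⟩, fun _ => ?_⟩
    rw [eval_comp, eval_add, eval_X, eval_C, hinj n hn', sub_add_cancel]
    exact a3) (T.image (fun n => (n - m₀).toNat)) (image_subset_image hT) (by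
    intro x hx
    rw [mem_image] at hx
    obtain ⟨n, hn', rfl⟩ := hx
    rintro ⟨b, d, e1, e2, e3, i, hi, e4⟩
    apply hn n hn'
    refine ⟨(b : ℤ) + m₀, d, e1, e2, ?_, i, hi, ?_⟩
    · intro i hi
      have e5 := e3 i hi
      rw [mem_image] at e5
      obtain ⟨n', hn'', e6⟩ := e5
      have e7 := hinj n' hn''
      rw [e6] at e7
      push_cast at e7
      have e8 : (b : ℤ) + m₀ + (i : ℤ) * d = n' := by linarith
      rw [e8]
      exact hn''
    · have e7 := hinj n (hT hn')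
      rw [e4] at e7
      push_cast at e7
      linarith)
  rwa [card_image_of_injOn] at h1
  intro n hn1 n' hn2 he
  have e1 := hinj n (hT hn1)
  have e2 := hinj n' (hT hn2)
  simp only at he
  rw [he] at e1
  omega

/-- the window `(a, b]` is covered by blocks -/
theorem glue (F : ℤ[X]) (t a b : ℤ) (H k : ℕ) (hH : 1 ≤ H) (D u : ℝ) (hu : 0 ≤ u) (κ : ℝ)
    (hab : ((b : ℝ) - a) ≤ κ * H) (hab' : a < b)
    (h : ∀ i ∈ Icc (a / H) ((b - 1) / H), CovZ (zp F t (i * H) (i * H + H)) k D u) :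
    CovZ (zp F t a b) k D ((κ + 2) * u) := by
  classical
  intro S hS T hT hn
  have hH0 : (0 : ℤ) < H := by exact_mod_cast hH
  have hmem : ∀ n ∈ S, a < n ∧ n ≤ b ∧ (F.eval n + t).natAbs.Prime := by
    intro n hn'
    have h1 := hS hn'
    unfold zp at h1
    rw [mem_filter, mem_Ioc] at h1
    exact ⟨h1.1.1, h1.1.2, h1.2⟩
  have hblock : ∀ n ∈ T, (n - 1) / H ∈ Icc (a / (H : ℤ)) ((b - 1) / H) := by
    intro n hn'
    obtain ⟨a1, a2, _⟩ := hmem n (hT hn')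
    rw [mem_Icc]
    exact ⟨Int.ediv_le_ediv hH0 (by omega), Int.ediv_le_ediv hH0 (by omega)⟩
  have h1 : T.card = ∑ i ∈ Icc (a / (H : ℤ)) ((b - 1) / H), (T.filter (fun n => (n - 1) / H = i)).card :=
    card_eq_sum_card_fiberwise hblock
  have h2 : ∀ i ∈ Icc (a / (H : ℤ)) ((b - 1) / H), ((T.filter (fun n => (n - 1) / H = i)).card : ℝ) ≤ u := by
    intro i hi
    apply h i hi (S.filter (fun n => (n - 1) / H = i))
    · intro n hn'
      rw [mem_filter] at hn'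
      obtain ⟨a1, a2, a3⟩ := hmem n hn'.1
      unfold zp
      rw [mem_filter, mem_Ioc]
      refine ⟨⟨?_, ?_⟩, a3⟩
      · have e1 := Int.ediv_mul_le (n - 1) hH0.ne'
        rw [hn'.2] at e1
        omega
      · have e1 := Int.lt_ediv_add_one_mul_self (n - 1) hH0
        rw [hn'.2] at e1
        have e2 : (i + 1) * (H : ℤ) = i * H + H := by ring
        omega
    · exact filter_subset_filter _ hT
    · intro n hn' hc
      exact hn n (mem_filter.1 hn').1 (InZ_mono (filter_subset _ _) le_rfl hc)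
  have h3 : (T.card : ℝ) ≤ ∑ i ∈ Icc (a / (H : ℤ)) ((b - 1) / H), u := by
    rw [h1]
    push_cast
    exact sum_le_sum h2
  rw [sum_const, nsmul_eq_mul] at h3
  refine h3.trans (mul_le_mul_of_nonneg_right ?_ hu)
  rw [Int.card_Icc]
  have e1 := Int.ediv_mul_le (b - 1) hH0.ne'
  have e2 := Int.lt_ediv_add_one_mul_self a hH0
  have e3 : (((b - 1) / H - a / H : ℤ) : ℝ) * H ≤ (κ + 1) * H := by
    have e4 : ((b - 1) / H - a / H) * (H : ℤ) ≤ (b - a) + H := by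
      have e5 : (a / (H : ℤ) + 1) * (H : ℤ) = a / H * H + H := by ring
      have e6 : ((b - 1) / (H : ℤ) - a / H) * (H : ℤ) = (b - 1) / H * H - a / H * H := by ring
      omega
    have e5 : ((((b - 1) / H - a / H) * (H : ℤ) : ℤ) : ℝ) ≤ (((b - a) + H : ℤ) : ℝ) := by exact_mod_cast e4
    push_cast at e5 ⊢
    linarith
  have hHr : (0 : ℝ) < H := by exact_mod_cast hH
  have e4 := le_of_mul_le_mul_right e3 hHr
  have e5 : 0 ≤ (b - 1) / (H : ℤ) + 1 - a / H := by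
    have : a / (H : ℤ) ≤ (b - 1) / H := Int.ediv_le_ediv hH0 (by omega)
    omega
  have e6 : ((((b - 1) / (H : ℤ) + 1 - a / H).toNat : ℕ) : ℝ) = (((b - 1) / H + 1 - a / H : ℤ) : ℝ) := by
    have e7 : ((((b - 1) / (H : ℤ) + 1 - a / H).toNat : ℕ) : ℤ) = (b - 1) / H + 1 - a / H :=
      Int.toNat_of_nonneg e5
    exact_mod_cast e7
  rw [e6]
  push_cast at e4 ⊢
  linarith

/-- Lipschitz bound -/
theorem lip (k : ℕ) (F : ℤ[X]) (hF : F.natDegree = k + 1) : ∃ c : ℕ, ∀ (M : ℝ) (m n : ℤ), 1 ≤ M →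
    |(m : ℝ)| ≤ M → |(n : ℝ)| ≤ M →
    |((F.eval m : ℤ) : ℝ) - ((F.eval n : ℤ) : ℝ)| ≤ c * (|(m : ℝ) - n| * M ^ k) := by
  refine ⟨∑ i ∈ range (k + 2), (F.coeff i).natAbs * i, fun M m n hM hm hn => ?_⟩
  have h1 : ((F.eval m : ℤ) : ℝ) - ((F.eval n : ℤ) : ℝ) =
      ∑ i ∈ range (k + 2), (F.coeff i : ℝ) * ((m : ℝ) ^ i - (n : ℝ) ^ i) := by
    rw [eval_eq_sum_range, eval_eq_sum_range, hF]
    push_cast
    rw [← sum_sub_distrib]
    apply sum_congr rfl
    intro i _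
    ring
  rw [h1]
  push_cast
  rw [sum_mul]
  refine (abs_sum_le_sum_abs _ _).trans (sum_le_sum ?_)
  intro i hi
  rw [mem_range] at hi
  rw [abs_mul]
  have h2 := abs_pow_sub_pow_le (m : ℝ) (n : ℝ) i
  have h3 : max |(m : ℝ)| |(n : ℝ)| ^ (i - 1) ≤ M ^ k := by
    calc max |(m : ℝ)| |(n : ℝ)| ^ (i - 1) ≤ M ^ (i - 1) :=
          pow_le_pow_left₀ (le_max_of_le_left (abs_nonneg _)) (max_le hm hn) _
      _ ≤ M ^ k := pow_le_pow_right₀ hM (by omega)
  have h4 : |(m : ℝ) ^ i - (n : ℝ) ^ i| ≤ |(m : ℝ) - n| * i * M ^ k :=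
    h2.trans (mul_le_mul_of_nonneg_left h3 (by positivity))
  have h5 : ((F.coeff i).natAbs : ℝ) = |(F.coeff i : ℝ)| := by
    rw [Nat.cast_natAbs, Int.cast_abs]
  rw [h5]
  calc |(F.coeff i : ℝ)| * |(m : ℝ) ^ i - (n : ℝ) ^ i| ≤
        |(F.coeff i : ℝ)| * (|(m : ℝ) - n| * i * M ^ k) := mul_le_mul_of_nonneg_left h4 (abs_nonneg _)
    _ = _ := by ring

open Classical in
/-- one block -/
theorem block (hU : S_UNI) (k : ℕ) (F : ℤ[X]) (hF : F.natDegree = k + 1) (j : ℕ) (hj : 1 ≤ j)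
    (ε : ℝ) (hε : 0 < ε) : ∃ B X₀ : ℕ, ∀ X H : ℕ, X₀ ≤ X → Real.log X ^ B ≤ H → ∀ (i A : ℤ) (Xs : ℕ),
    X ≤ Xs → (((Ioc A (A + Xs)).filter (fun t => ¬ CovZ (zp F t (i * H) (i * H + H)) j (Real.log X ^ B)
      (ε * H / Real.log X))).card : ℝ) ≤ ε * Xs := by
  have hF0 : F ≠ 0 := by
    rintro rfl
    rw [natDegree_zero] at hF
    omega
  have hl0 : F.leadingCoeff ≠ 0 := leadingCoeff_ne_zero.2 hF0
  obtain ⟨B, X₀, h⟩ := hU j 1 (k + 1) F.leadingCoeff.natAbs hj ε hε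
  refine ⟨B, X₀, fun Y H hX hH i A Xs hXs => ?_⟩
  have hdeg : (F.comp (X + C (i * (H : ℤ)))).natDegree = k + 1 := by
    rw [natDegree_comp, natDegree_X_add_C, mul_one, hF]
  have h1 := h Y H 0 hX hH (fun _ => F.comp (X + C (i * (H : ℤ)))) (fun _ => hdeg.le) (by
    intro _ p hp hp0
    refine ⟨k + 1, by omega, ?_⟩
    have e1 : (F.comp (X + C (i * (H : ℤ)))).coeff (k + 1) = F.leadingCoeff := by
      rw [← hdeg, coeff_natDegree, leadingCoeff_comp (by rw [natDegree_X_add_C]; omega),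
        leadingCoeff_X_add_C, one_pow, mul_one]
    rw [e1]
    intro hd
    have e2 : p ∣ F.leadingCoeff.natAbs := Int.natCast_dvd.1 hd
    have e3 := Nat.le_of_dvd (Int.natAbs_pos.2 hl0) e2
    omega) (fun _ => A) (fun _ => Xs) (fun _ => hXs)
  have h2 : (∏ _l : Fin 1, ((Xs : ℕ) : ℝ)) = Xs := by simp
  rw [h2] at h1
  refine le_trans ?_ h1
  rw [Nat.cast_le]
  apply card_le_card_of_injOn (fun a _ => a)
  · intro a ha
    rw [mem_coe, mem_filter] at ha ⊢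
    refine ⟨Fintype.mem_piFinset.2 (fun _ => ha.1), ?_⟩
    intro hc
    apply ha.2
    rw [pow_one] at hc
    exact shiftZ F a (i * H) H j _ _ hc
  · intro a _ b _ hab
    exact congrFun hab 0

end Pool.Agent.Y871.LW
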