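import Pool.Agent.Y871.LW.NzA
import Pool.Agent.TH204.WR.W14
import Pool.Agent.Y843.HS.PartA

/-!
# Project LW, part C: windows near the real zeros of `F + t`
-/

set_option autoImplicit false

namespace Pool.Agent.Y871.LW

open Finset Polynomial
open Pool.Agent.TH204.WR (rt rt_pow rt_nonneg hh rho growthZ both)
open Pool.Agent.TH892.SW (wt)

theorem rhoC_eq (F : ℤ[X]) (t : ℤ) (p : ℕ) : rhoC F t p = rho F t p := rfl

theorem SC_eq (F : ℤ[X]) (t : ℤ) (z : ℕ) : SC F t z = hh F t z := by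
  unfold SC hh Pool.Agent.H373R2.T7.Vz
  rw [← prod_inv_distrib, ← prod_mul_distrib]
  have hs : (range (z + 1)).filter Nat.Prime = Pool.Agent.H373R2.T7.pz z := by
    ext p
    unfold Pool.Agent.H373R2.T7.pz
    rw [mem_filter, mem_filter, mem_range, mem_Icc]
    constructor
    · rintro ⟨h1, h2⟩
      exact ⟨⟨h2.one_le, by omega⟩, h2⟩
    · rintro ⟨⟨h1, h3⟩, h2⟩
      exact ⟨by omega, h2⟩
  rw [hs]
  apply prod_congr rfl
  intro p hp
  have hpp : p.Prime := by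
    unfold Pool.Agent.H373R2.T7.pz at hp
    exact (mem_filter.1 hp).2
  have h2 : (2 : ℝ) ≤ p := by exact_mod_cast hpp.two_le
  have h3 : (p : ℝ) ≠ 0 := by linarith
  have h4 : (p : ℝ) - 1 ≠ 0 := by linarith
  rw [rhoC_eq]
  field_simp

open Classical in
/-- the number of pairs (block, shift) which are bad -/
theorem badpairs (hU : S_UNI) (k : ℕ) (F : ℤ[X]) (hF : F.natDegree = k + 1) (j : ℕ) (hj : 1 ≤ j)
    (ε : ℝ) (hε : 0 < ε) : ∃ B X₀ : ℕ, ∀ X H I Δ : ℕ, X₀ ≤ X → Real.log X ^ B ≤ H → X ≤ 2 * Δ + 1 →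
    ∃ Bad : Finset ℤ, (Bad.card : ℝ) ≤ (2 * I + 1) * (ε * (2 * Δ + 1)) ∧ ∀ i : ℤ, |i| ≤ I →
      ∀ t : ℤ, |F.eval (i * H) + t| ≤ Δ → t ∉ Bad →
      CovZ (zp F t (i * H) (i * H + H)) j (Real.log X ^ B) (ε * H / Real.log X) := by
  obtain ⟨B, X₀, h⟩ := block hU k F hF j hj ε hε
  refine ⟨B, X₀, fun Y H I Δ hX hH hXD => ?_⟩
  obtain ⟨W, hW⟩ : ∃ W : ℤ → Finset ℤ, W = fun i : ℤ =>
    ((Ioc (-F.eval (i * H) - Δ - 1) (-F.eval (i * H) - Δ - 1 + ((2 * Δ + 1 : ℕ) : ℤ))).filter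
      (fun t => ¬ CovZ (zp F t (i * H) (i * H + H)) j (Real.log Y ^ B) (ε * H / Real.log Y))) := ⟨_, rfl⟩
  refine ⟨(Icc (-(I : ℤ)) I).biUnion W, ?_, ?_⟩
  · have h1 : (((Icc (-(I : ℤ)) I).biUnion W).card : ℝ) ≤ ∑ i ∈ Icc (-(I : ℤ)) I, ((W i).card : ℝ) := by
      exact_mod_cast card_biUnion_le
    refine h1.trans ?_
    have h2 : ∀ i ∈ Icc (-(I : ℤ)) I, ((W i).card : ℝ) ≤ ε * (2 * Δ + 1) := by
      intro i _
      have h3 := h Y H hX hH i (-F.eval (i * H) - Δ - 1) (2 * Δ + 1) hXD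
      rw [hW]
      push_cast at h3 ⊢
      exact h3
    refine (sum_le_sum h2).trans ?_
    rw [sum_const, nsmul_eq_mul, Int.card_Icc]
    apply mul_le_mul_of_nonneg_right _ (by positivity)
    have h4 : ((I : ℤ) + 1 - -(I : ℤ)).toNat = 2 * I + 1 := by omega
    rw [h4]
    push_cast
    linarith
  · intro i hi t ht htB
    by_contra hc
    apply htB
    rw [mem_biUnion]
    refine ⟨i, mem_Icc.2 (abs_le.1 hi), ?_⟩
    rw [hW, mem_filter, mem_Ioc]
    have h1 := abs_le.1 ht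
    refine ⟨⟨by linarith, ?_⟩, hc⟩
    push_cast
    linarith

theorem nz (hU : S_UNI) (hLT : S_LT0) (k : ℕ) (hk : 1 ≤ k) (F : ℤ[X]) (hF : F.natDegree = k + 1)
    (j : ℕ) (hj : 1 ≤ j) (κ ε : ℝ) (hκ : 1 ≤ κ) (hε : 0 < ε) : ∃ E B N₀ : ℕ, ∀ N : ℕ, N₀ ≤ N →
    ∀ H : ℕ, Real.log N ^ B ≤ H → (H : ℝ) ^ (k + 1) ≤ N → ∃ Bad : Finset ℤ, (Bad.card : ℝ) ≤ ε * N ∧
    ∀ t ∈ Icc (-(N : ℤ)) N, t ∉ Bad → (∀ p : ℕ, p.Prime → rho F t p < p) →
    0 < hh F t ⌊Real.log N ^ E⌋₊ ∧ ∀ a b : ℤ, (H : ℝ) ≤ (b : ℝ) - a → (b : ℝ) - a ≤ κ * H →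
      (∀ m ∈ Ioc a b, 2 ≤ F.eval m + t ∧
        ((F.eval m + t : ℤ) : ℝ) ≤ κ * ((b : ℝ) - a) * rt k N ^ k) →
      |((zp F t a b).card : ℝ) - hh F t ⌊Real.log N ^ E⌋₊ * ∑ m ∈ Ioc a b, wt (F.eval m + t).natAbs| ≤
        ε * (hh F t ⌊Real.log N ^ E⌋₊ * ∑ m ∈ Ioc a b, wt (F.eval m + t).natAbs) ∧
      0 < (zp F t a b).card ∧ CovZ (zp F t a b) j (Real.log N ^ B) (ε * (zp F t a b).card) := by
  classical
  obtain ⟨cF, hcF⟩ := lip k F hF
  obtain ⟨nP, _, _, _, hgr, _⟩ := growthZ k hk F hF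
  obtain ⟨δ, hδ, hLT2⟩ := hLT F (by omega) (ε / 4) (by positivity)
  obtain ⟨B2, Xa, hboth⟩ := both k hk F hF 1 1 (min ε (1 / 2)) (by positivity)
  obtain ⟨Xb, hLT3⟩ := hLT2 (B2 + 1)
  obtain ⟨c₀, hc₀⟩ : ∃ c₀ : ℝ, c₀ = 2 * κ ^ 2 + 2 := ⟨_, rfl⟩
  have hc₀1 : 1 ≤ c₀ := by rw [hc₀]; nlinarith
  obtain ⟨c₂, hc₂⟩ : ∃ c₂ : ℝ, c₂ = κ ^ 2 + cF * (c₀ + 1) ^ k + 1 := ⟨_, rfl⟩
  have hc₂1 : 1 ≤ c₂ := by
    rw [hc₂]
    have : 0 ≤ (cF : ℝ) * (c₀ + 1) ^ k := by positivity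
    nlinarith [sq_nonneg κ]
  obtain ⟨ε₁, hε₁⟩ : ∃ ε₁ : ℝ, ε₁ = min (ε / (4 * ((2 * c₀ + 5) * (2 * c₂ + 3))))
    (ε * δ / (16 * (κ + 2))) := ⟨_, rfl⟩
  have hε₁0 : 0 < ε₁ := by rw [hε₁]; positivity
  have hε₁1 : ε₁ ≤ ε / (4 * ((2 * c₀ + 5) * (2 * c₂ + 3))) := by rw [hε₁]; exact min_le_left _ _
  have hε₁2 : ε₁ ≤ ε * δ / (16 * (κ + 2)) := by rw [hε₁]; exact min_le_right _ _
  obtain ⟨B1, X1, hbad⟩ := badpairs hU k F hF j hj ε₁ hε₁0
  obtain ⟨Xc, hXc⟩ := Pool.Agent.Y843.HS.log_ge (max (4 / ε + 2) (κ ^ 2 + 4))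
  obtain ⟨Xd, hXd⟩ := Pool.Agent.Y843.HS.log_pow_le (3 * (B2 + 1)) 1
  refine ⟨B2 + 1, B1 + B2 + 1, max (max (max Xa Xb) (max Xc Xd)) (max (nP ^ (k + 1)) ((X1 + 10) ^ 2)),
    fun N hN H hH hHN => ?_⟩
  have hNa : Xa ≤ N := le_trans (le_trans (le_trans (le_max_left _ _) (le_max_left _ _)) (le_max_left _ _)) hN
  have hNb : Xb ≤ N := le_trans (le_trans (le_trans (le_max_right _ _) (le_max_left _ _)) (le_max_left _ _)) hN
  have hNc : Xc ≤ N := le_trans (le_trans (le_trans (le_max_left _ _) (le_max_right _ _)) (le_max_left _ _)) hN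
  have hNd : Xd ≤ N := le_trans (le_trans (le_trans (le_max_right _ _) (le_max_right _ _)) (le_max_left _ _)) hN
  have hNe : nP ^ (k + 1) ≤ N := le_trans (le_trans (le_max_left _ _) (le_max_right _ _)) hN
  have hNf : (X1 + 10) ^ 2 ≤ N := le_trans (le_trans (le_max_right _ _) (le_max_right _ _)) hN
  obtain ⟨Ba, _, hBa1, hBa2⟩ := hboth N hNa
  have hLT4 := hLT3 N hNb
  have hl := hXc N hNc
  have hlε : 4 / ε + 2 ≤ Real.log N := (le_max_left _ _).trans hl
  have hlκ : κ ^ 2 + 4 ≤ Real.log N := (le_max_right _ _).trans hl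
  have hpow := hXd N hNd
  have h4ε : 0 < 4 / ε := by positivity
  have hl4 : 4 ≤ Real.log N := by linarith [sq_nonneg κ]
  have hl0 : 0 < Real.log N := by linarith
  have hl1 : 1 ≤ Real.log N := by linarith
  have hN100 : 100 ≤ N := by
    have h1 : 10 ^ 2 ≤ (X1 + 10) ^ 2 := Nat.pow_le_pow_left (by omega) 2
    omega
  have hN0 : (0 : ℝ) < N := by exact_mod_cast (show 0 < N by omega)
  have hN1 : (1 : ℝ) ≤ N := by exact_mod_cast (show 1 ≤ N by omega)
  have hH1 : (1 : ℝ) ≤ H := (one_le_pow₀ hl1).trans hH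
  have hH1' : 1 ≤ H := by exact_mod_cast hH1
  -- the root
  obtain ⟨R, hR⟩ : ∃ R, R = rt k N := ⟨_, rfl⟩
  have hRp : R ^ (k + 1) = N := by rw [hR]; exact rt_pow k N
  have hR0 : 0 ≤ R := by rw [hR]; exact rt_nonneg k N
  have hR1 : 1 ≤ R := by
    by_contra hc
    push Not at hc
    have h1 : R ^ (k + 1) < 1 := pow_lt_one₀ hR0 hc (by omega)
    linarith
  have hHR : (H : ℝ) ≤ R := by
    by_contra hc
    push Not at hc
    have h1 : R ^ (k + 1) < (H : ℝ) ^ (k + 1) := pow_lt_pow_left₀ hc hR0 (by omega)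
    linarith
  have hnR : (nP : ℝ) ≤ R := by
    by_contra hc
    push Not at hc
    have h1 : R ^ (k + 1) < (nP : ℝ) ^ (k + 1) := pow_lt_pow_left₀ hc hR0 (by omega)
    have h2 : ((nP : ℝ)) ^ (k + 1) ≤ N := by exact_mod_cast hNe
    linarith
  have hRk1 : 1 ≤ R ^ k := one_le_pow₀ hR1
  have hRR : R * R ^ k = N := by rw [← hRp, pow_succ]; ring
  rw [← hR] at hBa2 ⊢
  -- the auxiliary parameters
  obtain ⟨Y, hY⟩ : ∃ Y, Y = Nat.sqrt N := ⟨_, rfl⟩
  have hYX : X1 + 10 ≤ Y := by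
    rw [hY, Nat.le_sqrt']
    exact hNf
  have hY2 : (Y : ℝ) ^ 2 ≤ N := by
    have h1 : Y ^ 2 ≤ N := by rw [hY]; exact Nat.sqrt_le' _
    exact_mod_cast h1
  have hlogY : Real.log Y ≤ Real.log N := by
    apply Real.log_le_log (by exact_mod_cast (show 0 < Y by omega))
    have h1 : (1 : ℝ) ≤ Y := by exact_mod_cast (show 1 ≤ Y by omega)
    exact (le_self_pow₀ h1 (by norm_num)).trans hY2
  have hlogY2 : Real.log N / 4 ≤ Real.log Y := by
    have h1 : N ≤ Y ^ 4 := by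
      have h2 : N < (Y + 1) ^ 2 := by rw [hY]; exact Nat.lt_succ_sqrt' _
      have h5 : 2 * Y ≤ Y * Y := Nat.mul_le_mul_right Y (by omega)
      have h6 : Y + 1 ≤ Y ^ 2 := by rw [pow_two]; omega
      have h3 : (Y + 1) ^ 2 ≤ (Y ^ 2) ^ 2 := Nat.pow_le_pow_left h6 2
      have h4 : (Y ^ 2) ^ 2 = Y ^ 4 := by ring
      omega
    have h2 : (N : ℝ) ≤ (Y : ℝ) ^ 4 := by exact_mod_cast h1
    have h3 := Real.log_le_log hN0 h2
    rw [Real.log_pow] at h3
    push_cast at h3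
    linarith
  obtain ⟨I, hI⟩ : ∃ I, I = ⌈(c₀ + 1) * R / H⌉₊ := ⟨_, rfl⟩
  obtain ⟨Δ, hΔ⟩ : ∃ Δ, Δ = ⌈c₂ * (H * R ^ k)⌉₊ := ⟨_, rfl⟩
  have hI1 : (c₀ + 1) * R / H ≤ I := by rw [hI]; exact Nat.le_ceil _
  have hI2 : (I : ℝ) ≤ (c₀ + 1) * R / H + 1 := by
    rw [hI]; exact (Nat.ceil_lt_add_one (by positivity)).le
  have hΔ1 : c₂ * (H * R ^ k) ≤ Δ := by rw [hΔ]; exact Nat.le_ceil _
  have hΔ2 : (Δ : ℝ) ≤ c₂ * (H * R ^ k) + 1 := by
    rw [hΔ]; exact (Nat.ceil_lt_add_one (by positivity)).le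
  have hHRk : 1 ≤ H * R ^ k := one_le_mul_of_one_le_of_one_le hH1 hRk1
  have hYD : Y ≤ 2 * Δ + 1 := by
    have h1 : (Y : ℝ) ≤ R ^ k := by
      have h2 : (Y : ℝ) ^ 2 ≤ (R ^ k) ^ 2 := by
        refine hY2.trans ?_
        rw [← hRp, ← pow_mul]
        exact pow_le_pow_right₀ hR1 (by omega)
      exact le_of_sq_le_sq h2 (by positivity)
    have h2 : R ^ k ≤ Δ := by
      calc R ^ k = 1 * (1 * R ^ k) := by ring
        _ ≤ c₂ * (H * R ^ k) := by gcongr
        _ ≤ Δ := hΔ1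
    have h3 : (Y : ℝ) ≤ (Δ : ℕ) := h1.trans h2
    have h4 : Y ≤ Δ := by exact_mod_cast h3
    omega
  have hYB : Real.log Y ^ B1 ≤ H := by
    refine le_trans ?_ hH
    calc Real.log Y ^ B1 ≤ Real.log N ^ B1 := pow_le_pow_left₀ (by linarith) hlogY _
      _ ≤ _ := pow_le_pow_right₀ hl1 (by omega)
  obtain ⟨Bc, hBc1, hBc2⟩ := hbad Y H I Δ (by omega) hYB hYD
  obtain ⟨z, hz⟩ : ∃ z, z = ⌊Real.log N ^ (B2 + 1)⌋₊ := ⟨_, rfl⟩
  rw [← hz] at hLT4 ⊢
  have hz1 : Real.log N ^ B2 ≤ z := by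
    have h1 : Real.log N ^ (B2 + 1) < z + 1 := by rw [hz]; exact Nat.lt_floor_add_one _
    have h2 : 1 ≤ Real.log N ^ B2 := one_le_pow₀ hl1
    rw [pow_succ] at h1
    have h3 : Real.log N ^ B2 * 2 ≤ Real.log N ^ B2 * Real.log N :=
      mul_le_mul_of_nonneg_left (by linarith) (by positivity)
    linarith
  have hz2 : z ^ 3 ≤ N := by
    have h1 : (z : ℝ) ≤ Real.log N ^ (B2 + 1) := by rw [hz]; exact Nat.floor_le (by positivity)
    have h2 : (z : ℝ) ^ 3 ≤ N := by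
      calc (z : ℝ) ^ 3 ≤ (Real.log N ^ (B2 + 1)) ^ 3 := pow_le_pow_left₀ (by positivity) h1 3
        _ = 1 * Real.log N ^ (3 * (B2 + 1)) := by rw [← pow_mul, one_mul]; congr 1; ring
        _ ≤ N := hpow
    exact_mod_cast h2
  obtain ⟨Bb, hBb⟩ : ∃ Bb : Finset ℤ, Bb = (Icc (-(N : ℤ)) N).filter (fun k =>
    (∀ p : ℕ, p.Prime → p ≤ z → rhoC F k p < p) ∧ SC F k z < δ) := ⟨_, rfl⟩
  refine ⟨Ba ∪ Bb ∪ Bc, ?_, ?_⟩
  · have a1 := card_union_le (Ba ∪ Bb) Bc
    have a2 := card_union_le Ba Bb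
    have a3 : ((Ba ∪ Bb ∪ Bc).card : ℝ) ≤ Ba.card + Bb.card + Bc.card := by
      exact_mod_cast (by omega : (Ba ∪ Bb ∪ Bc).card ≤ Ba.card + Bb.card + Bc.card)
    have a4 : (N : ℝ) / Real.log N ^ 1 ≤ ε / 4 * N := by
      rw [pow_one, div_le_iff₀ hl0]
      have b1 : 4 / ε ≤ Real.log N := by linarith
      rw [div_le_iff₀ hε] at b1
      have b2 := mul_le_mul_of_nonneg_right b1 hN0.le
      linarith
    have a5 : (Bb.card : ℝ) ≤ ε / 4 * N := by
      rw [hBb]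
      convert hLT4
    have a6 : (2 * (I : ℝ) + 1) * (ε₁ * (2 * Δ + 1)) ≤ ε / 4 * N := by
      have b1 : 2 * (I : ℝ) + 1 ≤ (2 * c₀ + 5) * (R / H) := by
        have b2 : 1 ≤ R / H := by rw [le_div_iff₀ (by linarith)]; linarith
        have b3 : (c₀ + 1) * R / H = (c₀ + 1) * (R / H) := by ring
        rw [b3] at hI2
        generalize R / (H : ℝ) = q at *
        have b4 : (2 * c₀ + 5) * q = 2 * ((c₀ + 1) * q) + 3 * q := by ring
        rw [b4]
        linarith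
      have b2 : 2 * (Δ : ℝ) + 1 ≤ (2 * c₂ + 3) * (H * R ^ k) := by
        have b5 : (2 * c₂ + 3) * (H * R ^ k) = 2 * (c₂ * (H * R ^ k)) + 3 * (H * R ^ k) := by ring
        rw [b5]
        linarith
      have b3 : (R / H) * (H * R ^ k) = N := by
        rw [← hRR]
        have : (H : ℝ) ≠ 0 := by linarith
        field_simp
      have b4 : 0 < (2 * c₀ + 5) * (2 * c₂ + 3) := by positivity
      calc (2 * (I : ℝ) + 1) * (ε₁ * (2 * Δ + 1)) ≤
            ((2 * c₀ + 5) * (R / H)) * (ε₁ * ((2 * c₂ + 3) * (H * R ^ k))) := by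
            apply mul_le_mul b1 (mul_le_mul_of_nonneg_left b2 hε₁0.le) (by positivity) (by positivity)
        _ = ε₁ * ((2 * c₀ + 5) * (2 * c₂ + 3)) * ((R / H) * (H * R ^ k)) := by ring
        _ = ε₁ * ((2 * c₀ + 5) * (2 * c₂ + 3)) * N := by rw [b3]
        _ ≤ ε / 4 * N := by
            apply mul_le_mul_of_nonneg_right _ hN0.le
            rw [le_div_iff₀ (by positivity)] at hε₁1
            linarith
    have a7 : 0 ≤ ε * (N : ℝ) := by positivity
    linarith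
  · intro t ht htB hfd
    rw [mem_union, mem_union, not_or, not_or] at htB
    obtain ⟨⟨hta, htb⟩, htc⟩ := htB
    obtain ⟨hhp, hwin⟩ := hBa2 t ht hta hfd z hz1 hz2
    have hδh : δ ≤ hh F t z := by
      by_contra hc
      push Not at hc
      apply htb
      rw [hBb, mem_filter]
      refine ⟨ht, fun p hp _ => ?_, ?_⟩
      · rw [rhoC_eq]; exact hfd p hp
      · rw [SC_eq]; exact hc
    refine ⟨hhp, fun a b hab1 hab2 hval => ?_⟩
    have hab0 : a < b := by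
      have : (a : ℝ) < b := by linarith
      exact_mod_cast this
    have hba0 : 0 < (b : ℝ) - a := by linarith
    have hRk0 : 0 < R ^ k := by linarith
    have hκl : κ ≤ Real.log N := by linarith [le_self_pow₀ hκ (show 2 ≠ 0 by norm_num)]
    have hw := (hwin a b hab0 (by
      intro m hm
      obtain ⟨v1, v2⟩ := hval m hm
      refine ⟨v1, v2.trans ?_⟩
      rw [pow_one]
      calc κ * ((b : ℝ) - a) * R ^ k = ((b : ℝ) - a) * (R ^ k * κ) := by ring
        _ ≤ ((b : ℝ) - a) * (R ^ k * Real.log N) := by gcongr)).1 (by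
      refine le_trans ?_ (hH.trans hab1)
      exact pow_le_pow_right₀ hl1 (by omega))
    have hzp : (Ioc a b).filter (fun m => (F.eval m + t).natAbs.Prime) = zp F t a b := by
      unfold zp
      apply filter_congr
      intro m _
      exact Iff.rfl
    rw [hzp] at hw
    obtain ⟨W, hW⟩ : ∃ W, W = ∑ m ∈ Ioc a b, wt (F.eval m + t).natAbs := ⟨_, rfl⟩
    rw [← hW] at hw ⊢
    -- sizes
    have hvalN : ∀ m ∈ Ioc a b, ((F.eval m + t : ℤ) : ℝ) ≤ κ ^ 2 * (H * R ^ k) := by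
      intro m hm
      refine (hval m hm).2.trans ?_
      calc κ * ((b : ℝ) - a) * R ^ k ≤ κ * (κ * H) * R ^ k := by gcongr
        _ = _ := by ring
    have hHRN : H * R ^ k ≤ N := by
      rw [← hRR]
      exact mul_le_mul_of_nonneg_right hHR hRk0.le
    have hWlow : (H : ℝ) / (2 * Real.log N) ≤ W := by
      have c1 : ∀ m ∈ Ioc a b, 1 / (2 * Real.log N) ≤ wt (F.eval m + t).natAbs := by
        intro m hm
        unfold wt
        have d1 := (hval m hm).1
        have d1' : (2 : ℝ) ≤ ((F.eval m + t : ℤ) : ℝ) := by exact_mod_cast d1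
        have d2 : (((F.eval m + t).natAbs : ℕ) : ℝ) = ((F.eval m + t : ℤ) : ℝ) := by
          rw [Nat.cast_natAbs, Int.cast_abs, abs_of_nonneg (by linarith)]
        rw [d2]
        have d3 : ((F.eval m + t : ℤ) : ℝ) ≤ (N : ℝ) ^ 2 := by
          refine (hvalN m hm).trans ?_
          have e1 : κ ^ 2 ≤ N := by
            have e2 : Real.log N ≤ N := (Real.log_le_self hN0.le)
            linarith
          calc κ ^ 2 * (H * R ^ k) ≤ N * N := by gcongr
            _ = _ := by ring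
        have d4 := Real.log_le_log (by linarith) d3
        rw [Real.log_pow] at d4
        have d5 : 0 < Real.log ((F.eval m + t : ℤ) : ℝ) := Real.log_pos (by linarith)
        push_cast at d4 d5 ⊢
        exact one_div_le_one_div_of_le d5 d4
      have c2 := sum_le_sum c1
      rw [sum_const, nsmul_eq_mul, Int.card_Ioc, ← hW] at c2
      have c3 : (((b - a).toNat : ℕ) : ℝ) = (b : ℝ) - a := by
        have e1 : (((b - a).toNat : ℕ) : ℤ) = b - a := Int.toNat_of_nonneg (by omega)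
        exact_mod_cast e1
      rw [c3] at c2
      refine le_trans ?_ c2
      rw [mul_one_div]
      exact div_le_div_of_nonneg_right hab1 (by positivity)
    have hW0 : 0 < W := lt_of_lt_of_le (by positivity) hWlow
    have hhW : 0 < hh F t z * W := mul_pos hhp hW0
    have hPlow : δ * H / (4 * Real.log N) ≤ (zp F t a b).card := by
      have c1 := (abs_le.1 hw).1
      have c2 : min ε (1 / 2) * (hh F t z * W) ≤ 1 / 2 * (hh F t z * W) :=
        mul_le_mul_of_nonneg_right (min_le_right _ _) hhW.le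
      have c3 : δ * (H / (2 * Real.log N)) ≤ hh F t z * W := mul_le_mul hδh hWlow (by positivity) hhp.le
      have c4 : δ * H / (4 * Real.log N) = 1 / 2 * (δ * (H / (2 * Real.log N))) := by
        field_simp
        ring
      rw [c4]
      linarith
    have hP0 : 0 < δ * H / (4 * Real.log N) := by positivity
    refine ⟨hw.trans (mul_le_mul_of_nonneg_right (min_le_left _ _) hhW.le), by exact_mod_cast hP0.trans_le hPlow, ?_⟩
    have hglue := glue F t a b H j hH1' (Real.log Y ^ B1) (ε₁ * H / Real.log Y)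
      (by have : 0 ≤ Real.log Y := by linarith
          positivity) κ hab2 hab0 (by
      intro i hi
      rw [mem_Icc] at hi
      have hHz : (0 : ℤ) < H := by exact_mod_cast hH1'
      -- a point of the window in the block
      obtain ⟨m, hm, hm1, hm2⟩ : ∃ m ∈ Ioc a b, i * (H : ℤ) < m ∧ m ≤ i * H + H := by
        refine ⟨max (a + 1) (i * H + 1), ?_, ?_, ?_⟩
        · rw [mem_Ioc]
          have e1 : i * (H : ℤ) ≤ b - 1 := by
            have e2 := Int.ediv_mul_le (b - 1) hHz.ne'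
            have e3 : i * (H : ℤ) ≤ (b - 1) / H * H := mul_le_mul_of_nonneg_right hi.2 hHz.le
            omega
          omega
        · omega
        · have e1 := Int.lt_ediv_add_one_mul_self a hHz
          have e2 : (a / (H : ℤ) + 1) * (H : ℤ) ≤ (i + 1) * H :=
            mul_le_mul_of_nonneg_right (by omega) hHz.le
          have e3 : (i + 1) * (H : ℤ) = i * H + H := by ring
          omega
      obtain ⟨v1, _⟩ := hval m hm
      have v2 := hvalN m hm
      have v1' : (2 : ℝ) ≤ ((F.eval m + t : ℤ) : ℝ) := by exact_mod_cast v1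
      have ht' := mem_Icc.1 ht
      have ht2 : |(t : ℝ)| ≤ N := by
        rw [abs_le]
        constructor
        · exact_mod_cast ht'.1
        · exact_mod_cast ht'.2
      -- the size of m
      have hmR : |(m : ℝ)| ≤ c₀ * R := by
        rcases lt_or_ge |m| (nP : ℤ) with hlt | hge
        · have e1 : ((|m| : ℤ) : ℝ) < (nP : ℝ) := by exact_mod_cast hlt
          push_cast at e1
          exact (e1.le.trans hnR).trans (le_mul_of_one_le_left hR0 hc₀1)
        · have e1 := hgr m hge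
          have e2 : |(m : ℝ)| ^ (k + 1) ≤ 2 * |((F.eval m : ℤ) : ℝ)| := by exact_mod_cast e1
          have e3 : |((F.eval m : ℤ) : ℝ)| ≤ κ ^ 2 * N + N := by
            have e4 : ((F.eval m : ℤ) : ℝ) = ((F.eval m + t : ℤ) : ℝ) - t := by push_cast; ring
            rw [e4]
            refine (abs_sub _ _).trans ?_
            rw [abs_of_nonneg (by linarith : (0 : ℝ) ≤ ((F.eval m + t : ℤ) : ℝ))]
            have e5 : κ ^ 2 * (H * R ^ k) ≤ κ ^ 2 * N := mul_le_mul_of_nonneg_left hHRN (sq_nonneg _)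
            linarith
          have e4 : |(m : ℝ)| ^ (k + 1) ≤ (c₀ * R) ^ (k + 1) := by
            calc |(m : ℝ)| ^ (k + 1) ≤ c₀ * N := by rw [hc₀]; linarith
              _ ≤ c₀ ^ (k + 1) * N := by
                  apply mul_le_mul_of_nonneg_right _ hN0.le
                  exact le_self_pow₀ hc₀1 (by omega)
              _ = (c₀ * R) ^ (k + 1) := by rw [mul_pow, hRp]
          exact le_of_pow_le_pow_left₀ (by omega) (by positivity) e4
      have hm1' : ((i * (H : ℤ) : ℤ) : ℝ) < (m : ℝ) := by exact_mod_cast hm1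
      have hm2' : (m : ℝ) ≤ ((i * (H : ℤ) + H : ℤ) : ℝ) := by exact_mod_cast hm2
      push_cast at hm1' hm2'
      have hmi : |(i : ℝ) * H - m| ≤ H := by
        rw [abs_le]
        constructor <;> linarith
      have hiR : |(i : ℝ) * H| ≤ (c₀ + 1) * R := by
        have e1 : |(i : ℝ) * H| ≤ |(i : ℝ) * H - m| + |(m : ℝ)| := by
          have e2 := abs_add_le ((i : ℝ) * H - m) (m : ℝ)
          rwa [sub_add_cancel] at e2
        linarith
      refine hBc2 i ?_ t ?_ htc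
      · have e1 : |(i : ℝ)| ≤ (c₀ + 1) * R / H := by
          rw [le_div_iff₀ (by linarith)]
          rw [abs_mul, abs_of_nonneg (by linarith : (0 : ℝ) ≤ (H : ℝ))] at hiR
          exact hiR
        have e2 : |(i : ℝ)| ≤ ((I : ℕ) : ℝ) := e1.trans hI1
        exact_mod_cast e2
      · have e1 := hcF ((c₀ + 1) * R) (i * H) m (one_le_mul_of_one_le_of_one_le (by linarith) hR1)
          (by push_cast; exact hiR) (by linarith)
        push_cast at e1
        have e2 : (cF : ℝ) * (|(i : ℝ) * H - m| * ((c₀ + 1) * R) ^ k) ≤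
            cF * (c₀ + 1) ^ k * (H * R ^ k) := by
          rw [mul_pow]
          calc (cF : ℝ) * (|(i : ℝ) * H - m| * ((c₀ + 1) ^ k * R ^ k)) ≤
                cF * (H * ((c₀ + 1) ^ k * R ^ k)) := by gcongr
            _ = _ := by ring
        have e3 : |((F.eval (i * (H : ℤ)) + t : ℤ) : ℝ)| ≤ Δ := by
          have e4 : ((F.eval (i * (H : ℤ)) + t : ℤ) : ℝ) =
              (((F.eval (i * (H : ℤ)) : ℤ) : ℝ) - ((F.eval m : ℤ) : ℝ)) + ((F.eval m + t : ℤ) : ℝ) := by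
            push_cast; ring
          rw [e4]
          refine (abs_add_le _ _).trans ?_
          rw [abs_of_nonneg (by linarith : (0 : ℝ) ≤ ((F.eval m + t : ℤ) : ℝ))]
          have e5 : c₂ * (H * R ^ k) = κ ^ 2 * (H * R ^ k) + cF * (c₀ + 1) ^ k * (H * R ^ k) + H * R ^ k := by
            rw [hc₂]; ring
          linarith
        exact_mod_cast e3)
    refine CovZ_mono (Subset.refl _) ?_ ?_ hglue
    · calc Real.log Y ^ B1 ≤ Real.log N ^ B1 := pow_le_pow_left₀ (by linarith) hlogY _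
        _ ≤ _ := pow_le_pow_right₀ hl1 (by omega)
    · have e1 : ε₁ * H / Real.log Y ≤ ε₁ * H / (Real.log N / 4) :=
        div_le_div_of_nonneg_left (by positivity) (by positivity) hlogY2
      have e2 : (κ + 2) * ε₁ ≤ ε * δ / 16 := by
        rw [le_div_iff₀ (by positivity)] at hε₁2
        linarith
      calc (κ + 2) * (ε₁ * H / Real.log Y) ≤ (κ + 2) * (ε₁ * H / (Real.log N / 4)) := by gcongr
        _ = (κ + 2) * ε₁ * (4 * H / Real.log N) := by
            field_simp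
        _ ≤ ε * δ / 16 * (4 * H / Real.log N) := mul_le_mul_of_nonneg_right e2 (by positivity)
        _ = ε * (δ * H / (4 * Real.log N)) := by
            field_simp
            ring
        _ ≤ ε * (zp F t a b).card := mul_le_mul_of_nonneg_left hPlow hε.le

end Pool.Agent.Y871.LW
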