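import Pool.Agent.Y871.LW.Stm
import Pool.Agent.Y843.HS.PartA

/-!
# The theorem relative to sets sifted by the primes of `(s, Y]` (adapted from `Y843.HS.partA`)
-/

set_option autoImplicit false

namespace Pool.Agent.Y871.LW

open Finset
open Pool.Agent.H602R3.DHJ (av av_const av_mono av_nonneg)
open Pool.Agent.Y727.PSP (rp)
open Pool.Agent.Y79.PSP.MK (rp_mem rp_inj)
open Pool.Agent.Y843.HS

/-- the function in the window of `x` -/
noncomputable def FT {q : ℕ} (T : Finset ((Fin q → ℕ) × ℕ)) (w : ℝ) (N : ℕ) (x : Fin q → ℕ)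
    (a : ZMod N) : ℝ := by
  classical exact if (x, rp a) ∈ T then w else 0

theorem card_bx {q : ℕ} (A Xs : Fin q → ℕ) : ((bx A Xs).card : ℝ) = ∏ l, (Xs l : ℝ) := by
  unfold bx
  rw [Fintype.card_piFinset]
  push_cast
  apply prod_congr rfl
  intro l _
  rw [Nat.card_Ioc]
  congr 1
  omega

/-- the sum of the densities in the windows -/
theorem sum_av_FT {q : ℕ} {T : Finset ((Fin q → ℕ) × ℕ)} {Ω : Finset (Fin q → ℕ)} {N : ℕ} [NeZero N]
    (hT : ∀ t ∈ T, t.1 ∈ Ω ∧ 1 ≤ t.2 ∧ 2 * t.2 < N) (w : ℝ) :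
    w * T.card / N = ∑ x ∈ Ω, av (FT T w N x) := by
  classical
  have h1 : ∑ x ∈ Ω, ∑ a : ZMod N, FT T w N x a = T.card * w := by
    have h2 : ∑ x ∈ Ω, ∑ a : ZMod N, FT T w N x a =
        ∑ p ∈ Ω ×ˢ (univ : Finset (ZMod N)), if (p.1, rp p.2) ∈ T then w else 0 := by
      rw [sum_product]
      rfl
    rw [h2, ← sum_filter, sum_const, nsmul_eq_mul]
    congr 2
    apply card_bij (fun p _ => (p.1, rp p.2))
    · intro p hp
      exact (mem_filter.1 hp).2
    · intro p _ p' _ h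
      rw [Prod.mk.injEq] at h
      exact Prod.ext h.1 (rp_inj h.2)
    · intro t ht
      obtain ⟨h3, h4, h5⟩ := hT t ht
      refine ⟨(t.1, ((t.2 : ℕ) : ZMod N)), ?_, ?_⟩
      · rw [mem_filter, mem_product]
        refine ⟨⟨h3, mem_univ _⟩, ?_⟩
        rw [rp_nat h4 (by omega)]
        exact ht
      · rw [rp_nat h4 (by omega)]
  unfold av
  rw [← sum_div, h1, ZMod.card, mul_comm]

theorem t_PA (hTH : S_TH) (hDEN : S_DEN) (hCORS : S_CORS) (hTR : S_TRANS) : S_PA := by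
  classical
  intro k hk q r e L δ hδ
  obtain ⟨C, hC1, hC⟩ := hTH r
  obtain ⟨C1, hC1'⟩ := hCORS q r e (2 * (k * 2 ^ k)) C
  set C2 := C1 + L + 1 with hC2
  obtain ⟨cD, hcD, R₀, hR₀⟩ := hDEN r (2 * C2 * L)
  have hC0 : (0 : ℝ) < C := by exact_mod_cast hC1
  set δ₁ := δ * (cD / C) ^ q with hδ₁
  have hδ₁0 : 0 < δ₁ := by positivity
  obtain ⟨c, E, hc0, hE0, hTRk⟩ := hTR k hk δ₁ hδ₁0
  obtain ⟨g, s₁, B₀, hs₁⟩ := hC1' E hE0
  refine ⟨max s₁ (2 * r + 3), ?_⟩
  intro s hs
  have hs1 : s₁ ≤ s := (le_max_left _ _).trans hs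
  have hs3 : 2 * r + 3 ≤ s := (le_max_right _ _).trans hs
  obtain ⟨J₁, hJ₁⟩ := hs₁ s hs1
  obtain ⟨cM, hcM1, hcM⟩ := EE_log
  set G := 2 * r * q * k with hG
  set B' := B₀ + G + 1 with hB'
  set J₂ := J₁ + C + g + s + R₀ + 1 with hJ₂
  obtain ⟨X₂, hX₂⟩ := log_ge (max 4 (max (k + 1) (cM ^ G / c + 1)))
  refine ⟨B', max X₂ ((2 ^ 2 ^ J₂) ^ C2), ?_⟩
  intro X Y N hX hXY hYX hNp hN A Xs hXs Z hZ φ hφ T hT hTZ hTc
  have hXX₂ := hX₂ X ((le_max_left _ _).trans hX)
  have hXX₄ : (2 ^ 2 ^ J₂) ^ C2 ≤ X := (le_max_right _ _).trans hX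
  have hlog4 : 4 ≤ Real.log X := (le_max_left _ _).trans hXX₂
  have hlogk : (k : ℝ) + 1 ≤ Real.log X := (le_max_left _ _).trans ((le_max_right _ _).trans hXX₂)
  have hlogc : cM ^ G / c + 1 ≤ Real.log X :=
    (le_max_right _ _).trans ((le_max_right _ _).trans hXX₂)
  -- the level
  obtain ⟨J, hJ2, hJX, hJX'⟩ := exists_cross (P := fun J => (2 ^ 2 ^ J) ^ C2 ≤ X)
    (a := J₂) (b := J₂ + X) (Nat.le_add_right _ _) hXX₄ (by
      rw [not_le]
      calc X < 2 ^ X := Nat.lt_two_pow_self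
        _ ≤ 2 ^ 2 ^ (J₂ + X) := Nat.pow_le_pow_right (by norm_num)
            ((Nat.le_add_left _ _).trans Nat.lt_two_pow_self.le)
        _ = (2 ^ 2 ^ (J₂ + X)) ^ 1 := (pow_one _).symm
        _ ≤ (2 ^ 2 ^ (J₂ + X)) ^ C2 := Nat.pow_le_pow_right (by positivity) (by omega))
  rw [not_le] at hJX'
  set R := 2 ^ 2 ^ J with hR
  set z := 2 ^ 2 ^ (J - g) with hz
  have hR1 : 1 ≤ R := Nat.one_le_two_pow
  have hXR : X < R ^ (2 * C2) := by
    have : 2 ^ 2 ^ (J + 1) = R ^ 2 := by rw [hR, ← pow_mul, pow_succ]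
    rw [this, ← pow_mul] at hJX'
    exact hJX'
  have hX1 : 1 ≤ X := (Nat.one_le_pow _ _ hR1).trans hJX
  have hX0 : (0 : ℝ) < X := by exact_mod_cast hX1
  have hRX : R ≤ X := by
    refine le_trans ?_ hJX
    calc R = R ^ 1 := (pow_one R).symm
      _ ≤ R ^ C2 := Nat.pow_le_pow_right hR1 (by omega)
  have hRY : R ≤ Y := by
    by_contra hcon
    rw [not_le] at hcon
    have hL : L ≠ 0 := by
      intro h0
      rw [h0, pow_zero] at hXY
      have : X = 1 := by omega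
      rw [this] at hlog4
      simp at hlog4
      linarith
    have h1 : Y ^ L < R ^ L := Nat.pow_lt_pow_left hcon hL
    have h2 : R ^ L ≤ R ^ C2 := Nat.pow_le_pow_right hR1 (by omega)
    omega
  have hYR : Y ≤ R ^ (2 * C2 * L) := by
    rw [pow_mul]
    exact hYX.trans (Nat.pow_le_pow_left hXR.le L)
  have hsz : s ≤ z := by
    rw [hz]
    exact (show s ≤ J - g by omega).trans (tower_ge _)
  have hzR : z ≤ R := by
    rw [hz, hR]
    exact Nat.pow_le_pow_right (by norm_num) (Nat.pow_le_pow_right (by norm_num) (Nat.sub_le _ _))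
  have hR₀R : R₀ ≤ R := (show R₀ ≤ J by omega).trans (tower_ge J)
  have hθex : ∀ l, ∃ θ : Finset ℕ → ℝ, Wt C (Z l) z R θ := fun l =>
    hC (J - g) J (by omega) (Nat.sub_le _ _) (Z l) (Sv_mono (hZ l) hsz hRY)
  choose θ hθ using hθex
  have hZR : ∀ l, Sv r s R (Z l) := fun l => Sv_mono (hZ l) le_rfl hRY
  set V : Fin q → ℝ := fun l => VV (Z l) s z with hV
  set qz : Fin q → ℝ := fun l => qq (Z l) z R (θ l) with hq
  have hVR : ∀ l, 1 / EE s R ^ (2 * r) ≤ VV (Z l) s R := fun l => VV_ge (by omega) (hZR l)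
  have hEE : EE s R ≤ cM * Real.log X := by
    refine (hcM s R (by omega) (hsz.trans hzR)).trans ?_
    apply mul_le_mul_of_nonneg_left _ (by linarith)
    exact Real.log_le_log (by exact_mod_cast hR1) (by exact_mod_cast hRX)
  have hEE1 := one_le_EE s R
  have hV0 : ∀ l, 0 < V l := by
    intro l
    have := VV_ge (a := s) (b := z) (r := r) (Z := Z l) (by omega) (Sv_mono (hZR l) le_rfl hzR)
    have h1 := one_le_EE s z
    exact lt_of_lt_of_le (by positivity) this
  have hVzR0 : ∀ l, 0 < VV (Z l) z R := by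
    intro l
    have := VV_ge (a := z) (b := R) (r := r) (Z := Z l) (by omega) (Sv_mono (hZR l) hsz le_rfl)
    have h1 := one_le_EE z R
    exact lt_of_lt_of_le (by positivity) this
  have hq0 : ∀ l, 0 < qz l := fun l => lt_of_lt_of_le (hVzR0 l) (hθ l).lo
  have hsplit : ∀ l, V l * VV (Z l) z R = VV (Z l) s R := fun l => VV_split (Z l) hsz hzR
  have hVR0 : ∀ l, 0 < VV (Z l) s R := by
    intro l
    rw [← hsplit l]
    exact mul_pos (hV0 l) (hVzR0 l)
  set w := ∏ l, (1 / (V l * qz l)) with hw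
  have hwl : ∀ l, 0 < 1 / (V l * qz l) := fun l => by
    have := hV0 l; have := hq0 l; positivity
  have hw0 : 0 < w := prod_pos fun l _ => hwl l
  have hVq : ∀ l, V l * qz l ≤ C * VV (Z l) s R := by
    intro l
    rw [← hsplit l]
    calc V l * qz l ≤ V l * (C * VV (Z l) z R) := mul_le_mul_of_nonneg_left (hθ l).hi (hV0 l).le
      _ = C * (V l * VV (Z l) z R) := by ring
  have hwup1 : ∀ l, 1 / (V l * qz l) ≤ (cM * Real.log X) ^ (2 * r) := by
    intro l
    have h1 : VV (Z l) s R ≤ V l * qz l := by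
      rw [← hsplit l]
      exact mul_le_mul_of_nonneg_left (hθ l).lo (hV0 l).le
    have hVRl := hVR l
    have hVR0l := hVR0 l
    calc 1 / (V l * qz l) ≤ 1 / VV (Z l) s R := one_div_le_one_div_of_le hVR0l h1
      _ ≤ EE s R ^ (2 * r) := by
          rw [div_le_iff₀ hVR0l]
          rw [div_le_iff₀ (by positivity)] at hVRl
          linarith
      _ ≤ _ := pow_le_pow_left₀ (by positivity) hEE _
  have hwup : w ≤ (cM * Real.log X) ^ (2 * r * q) := by
    calc w ≤ ∏ _l : Fin q, (cM * Real.log X) ^ (2 * r) :=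
          prod_le_prod (fun l _ => (hwl l).le) (fun l _ => hwup1 l)
      _ = (cM * Real.log X) ^ (2 * r * q) := by
          rw [prod_const, card_univ, Fintype.card_fin, ← pow_mul]
  -- the prime `N`
  have : Fact N.Prime := ⟨hNp⟩
  have : NeZero N := ⟨hNp.ne_zero⟩
  set y := Real.log X ^ B' with hy
  have hy1 : Real.log X ≤ y := by
    rw [hy]
    calc Real.log X = Real.log X ^ 1 := (pow_one _).symm
      _ ≤ Real.log X ^ B' := pow_le_pow_right₀ (by linarith) (by omega)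
  have hkN : k < N := by
    have : (k : ℝ) < N := by linarith
    exact_mod_cast this
  have hN0 : (0 : ℝ) < N := by linarith
  -- the size of `T`
  have hΩ : (bx A Xs).Nonempty := by
    rw [bx, Fintype.piFinset_nonempty]
    intro l
    rw [nonempty_Ioc]
    have := hXs l
    omega
  have hXs0 : ∀ l, (0 : ℝ) < Xs l := fun l => by
    have := hXs l
    exact_mod_cast (show 0 < Xs l by omega)
  have hden : ∀ l, cD ≤ VV (Z l) R Y := fun l =>
    hR₀ R Y hR₀R hYR (Z l) (Sv_mono (hZ l) (hsz.trans hzR) le_rfl)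
  have hwVV : (cD / C) ^ q ≤ w * ∏ l, VV (Z l) s Y := by
    rw [hw, ← prod_mul_distrib]
    calc (cD / C) ^ q = ∏ _l : Fin q, (cD / C) := by rw [prod_const, card_univ, Fintype.card_fin]
      _ ≤ _ := by
          apply prod_le_prod (fun _ _ => by positivity)
          intro l _
          have hVR0l := hVR0 l
          have hVl := hV0 l
          have hql := hq0 l
          have hVql := hVq l
          have hdl := hden l
          rw [← VV_split (Z l) (hsz.trans hzR) hRY]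
          rw [one_div, inv_mul_eq_div, div_le_div_iff₀ hC0 (mul_pos hVl hql)]
          calc cD * (V l * qz l) ≤ cD * (C * VV (Z l) s R) :=
                mul_le_mul_of_nonneg_left hVql hcD.le
            _ = (VV (Z l) s R * cD) * C := by ring
            _ ≤ (VV (Z l) s R * VV (Z l) R Y) * C := by gcongr
  have hwT : δ₁ * (bx A Xs).card ≤ ∑ x ∈ bx A Xs, av (FT T w N x) := by
    rw [← sum_av_FT hT w, le_div_iff₀ hN0, card_bx]
    have hP : 0 < ∏ l, (Xs l : ℝ) := prod_pos fun l _ => hXs0 l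
    calc δ₁ * (∏ l, (Xs l : ℝ)) * N = (δ * (∏ l, (Xs l : ℝ)) * N) * (cD / C) ^ q := by
          rw [hδ₁]; ring
      _ ≤ (δ * (∏ l, (Xs l : ℝ)) * N) * (w * ∏ l, VV (Z l) s Y) :=
          mul_le_mul_of_nonneg_left hwVV (by positivity)
      _ = w * (δ * (∏ l, (Xs l : ℝ)) * N * ∏ l, VV (Z l) s Y) := by ring
      _ ≤ w * T.card := mul_le_mul_of_nonneg_left hTc hw0.le
  -- the weight
  have hν0 : ∀ l n, 0 ≤ nu (Z l) s z R (θ l) n := by
    intro l n
    unfold nu
    apply div_nonneg _ (mul_nonneg (hV0 l).le (hq0 l).le)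
    apply mul_nonneg _ ((hθ l).nonneg n)
    split_ifs
    · exact zero_le_one
    · exact le_rfl
  have hνT : ∀ t ∈ T, ∀ l, nu (Z l) s z R (θ l) (t.1 l + φ l t.2) = 1 / (V l * qz l) := by
    intro t ht l
    unfold nu
    have h1 : ∀ p ∈ Pr s z, (t.1 l + φ l t.2) % p ∉ Z l p := fun p hp => hTZ t ht l p (by
      rw [Pr_mem] at hp ⊢
      exact ⟨⟨hp.1.1, by omega⟩, hp.2⟩)
    have h2 : ∀ p ∈ Pr z R, (t.1 l + φ l t.2) % p ∉ Z l p := fun p hp => hTZ t ht l p (by
      rw [Pr_mem] at hp ⊢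
      exact ⟨⟨by omega, by omega⟩, hp.2⟩)
    rw [if_pos h1, Th_one (hθ l).one h2, one_mul]
  have hJX1 : R ^ C1 ≤ X := (Nat.pow_le_pow_right hR1 (by omega)).trans hJX
  have hcor : Cor (bx A Xs) (nuS Z s z R θ φ N) (2 * (k * 2 ^ k)) E :=
    hJ₁ J X N (by omega) hJX1 (by
      refine le_trans ?_ hN
      exact pow_le_pow_right₀ (by linarith) (by omega)) hNp A Xs hXs Z hZR θ hθ φ (by
        intro l p hp c'
        apply hφ l p _ c'
        rw [Pr_mem] at hp ⊢
        exact ⟨⟨hp.1.1, by omega⟩, hp.2⟩)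
  have hF : ∀ x (a : ZMod N), 0 ≤ FT T w N x a ∧ FT T w N x a ≤ nuS Z s z R θ φ N x a := by
    intro x a
    unfold FT nuS
    split_ifs with h
    · refine ⟨hw0.le, ?_⟩
      rw [hw]
      apply le_of_eq
      apply prod_congr rfl
      intro l _
      exact (hνT _ h l).symm
    · exact ⟨le_rfl, prod_nonneg fun l _ => hν0 l _⟩
  obtain ⟨x, hx, hav⟩ := hTRk N hNp hkN _ (bx A Xs) (nuS Z s z R θ φ N) (FT T w N) hΩ hF hcor hwT
  have hfw : ∀ a, 0 ≤ FT T w N x a ∧ FT T w N x a ≤ w := by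
    intro a
    refine ⟨(hF x a).1, ?_⟩
    unfold FT
    split_ifs
    · exact le_rfl
    · exact hw0.le
  obtain ⟨a, d, hd, had⟩ := exists_ne hfw hav (by
    rw [div_lt_iff₀ hN0]
    have h1 : w ^ k ≤ (cM * Real.log X) ^ G := by
      rw [hG, pow_mul]
      exact pow_le_pow_left₀ hw0.le hwup k
    have h2 : Real.log X ^ G * Real.log X ≤ y := by
      rw [hy, ← pow_succ]
      exact pow_le_pow_right₀ (by linarith) (by omega)
    have h3 : cM ^ G < c * Real.log X := by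
      have h4 : cM ^ G / c < Real.log X := by linarith
      rw [div_lt_iff₀ hc0] at h4
      linarith
    calc w ^ k ≤ (cM * Real.log X) ^ G := h1
      _ = cM ^ G * Real.log X ^ G := mul_pow _ _ _
      _ < (c * Real.log X) * Real.log X ^ G :=
          mul_lt_mul_of_pos_right h3 (by positivity)
      _ = c * (Real.log X ^ G * Real.log X) := by ring
      _ ≤ c * y := mul_le_mul_of_nonneg_left h2 hc0.le
      _ ≤ c * N := mul_le_mul_of_nonneg_left hN hc0.le)
  have hmem : ∀ j < k, (x, rp (a + (j : ZMod N) * d)) ∈ T := by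
    intro j hj
    have h1 := had j hj
    unfold FT at h1
    by_contra hcon
    rw [if_neg hcon] at h1
    exact h1 rfl
  obtain ⟨b, D, hD1, hDN, hb⟩ := ap_of_rp hk hd (fun j hj => (hT _ (hmem j hj)).2.2)
  refine ⟨x, b, D, hD1, hDN, ?_⟩
  intro j hj
  obtain ⟨i, hi, hij⟩ := hb j hj
  rw [hij]
  exact hmem i hi

end Pool.Agent.Y871.LW
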