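import Pool.Agent.W468.ConjFDefs
import Pool.Agent.TH204.WR.W7

/-!
# Project LW, part D (helper871): exact constants for the quadratics `a m² + b m + c`, `a`, `b` fixed
-/

set_option autoImplicit false

open Finset Polynomial Filter Topology

namespace Pool.Agent.Y871.LW

open Pool.Agent.W468.ConjF (Admissible CF)
open Pool.Agent.TH204.WR (hh)

/-- (QC1) the cut product -/
def S_QC1 : Prop := ∀ a b c : ℤ, Admissible a b c → ∀ z : ℕ, 2 ≤ z →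
  hh (C a * X ^ 2 + C b * X) c z = 2 * CF a b c z

/-- (QC2) the cut products are close to their limits, for almost all `c < 0` -/
def S_QC2 : Prop := ∀ a b : ℤ, 0 < a → ∀ η : ℝ, 0 < η → ∀ B : ℕ, ∃ N₀ : ℕ, ∀ N : ℕ, N₀ ≤ N →
  ∃ z : ℕ, Real.log N ^ B ≤ z ∧ z ^ 3 ≤ N ∧ ∃ Bad : Finset ℤ, (Bad.card : ℝ) ≤ η * N ∧
    ∀ c : ℤ, -(N : ℤ) ≤ c → c < 0 → c ∉ Bad → Admissible a b c → ∃ S : ℝ, 0 < S ∧
      Tendsto (fun y : ℕ => CF a b c y) atTop (𝓝 S) ∧ |CF a b c z - S| ≤ η * S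

end Pool.Agent.Y871.LW
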