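import Pool.Agent.Y871.LW.TopC
import Pool.Agent.Y871.LW.StmD

/-!
# Project LW, part D: windows at the zeros of quadratics, with the exact constant
-/

set_option autoImplicit false

namespace Pool.Agent.Y871.LW

open Finset Polynomial Filter Topology
open Pool.Agent.W468.ConjF (Admissible CF)
open Pool.Agent.TH204.WR (rt hh rho both)
open Pool.Agent.TH892.SW (wt)

/-- `ε` -/
noncomputable def epsQ (a b : ℤ) : ℝ := if (2 : ℤ) ∣ a + b then 2 else 1

/-- the product over the odd primes dividing `a` and `b` -/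
noncomputable def gcdQ (a b : ℤ) : ℝ :=
  ∏ p ∈ (Int.gcd a b).primeFactors.filter (fun p => 2 < p), (p : ℝ) / (p - 1)

/-- the product over `2 < p ≤ z`, `p ∤ a` -/
noncomputable def cutQ (a b c : ℤ) (z : ℕ) : ℝ :=
  ∏ p ∈ (Icc 3 z).filter (fun p : ℕ => p.Prime ∧ ¬ (p : ℤ) ∣ a), (1 - (jacobiSym (b ^ 2 - 4 * a * c) p : ℝ) / (p - 1))

theorem CF_eq (a b c : ℤ) (ha : 0 < a) (z : ℕ) (hz : a ≤ z) :
    2 * CF a b c z = epsQ a b * gcdQ a b * cutQ a b c z := by
  unfold CF epsQ gcdQ cutQ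
  have e1 : (range (z + 1)).filter (fun p : ℕ => p.Prime ∧ 3 ≤ p ∧ (p : ℤ) ∣ a ∧ (p : ℤ) ∣ b) =
      (Int.gcd a b).primeFactors.filter (fun p => 2 < p) := by
    ext p
    simp only [mem_filter, mem_range, Nat.mem_primeFactors]
    have hg : Int.gcd a b ≠ 0 := by
      intro h
      have := (Int.gcd_eq_zero_iff.1 h).1
      omega
    constructor
    · rintro ⟨-, h1, h2, h3, h4⟩
      refine ⟨⟨h1, ?_, hg⟩, by omega⟩
      have := Int.dvd_coe_gcd h3 h4
      exact_mod_cast this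
    · rintro ⟨⟨h1, h2, -⟩, h3⟩
      have h4 : (p : ℤ) ∣ (Int.gcd a b : ℤ) := by exact_mod_cast h2
      have h5 : (p : ℤ) ∣ a := h4.trans (Int.gcd_dvd_left _ _)
      have h6 : (p : ℤ) ∣ b := h4.trans (Int.gcd_dvd_right _ _)
      have h7 := Int.le_of_dvd ha h5
      exact ⟨by omega, h1, by omega, h5, h6⟩
  have e2 : (range (z + 1)).filter (fun p : ℕ => p.Prime ∧ 3 ≤ p ∧ ¬ (p : ℤ) ∣ a) =
      (Icc 3 z).filter (fun p : ℕ => p.Prime ∧ ¬ (p : ℤ) ∣ a) := by
    ext p
    simp only [mem_filter, mem_range, mem_Icc]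
    constructor
    · rintro ⟨h0, h1, h2, h3⟩; exact ⟨⟨h2, by omega⟩, h1, h3⟩
    · rintro ⟨⟨h0, h1⟩, h2, h3⟩; exact ⟨by omega, h2, h0, h3⟩
  rw [e1, e2]
  split_ifs
  · ring
  · ring

theorem gcdQ_pos (a b : ℤ) : 0 < gcdQ a b := by
  unfold gcdQ
  apply prod_pos
  intro p hp
  have : (2 : ℝ) < p := by exact_mod_cast (mem_filter.1 hp).2
  apply div_pos <;> linarith

theorem epsQ_pos (a b : ℤ) : 0 < epsQ a b := by
  unfold epsQ; split_ifs <;> norm_num

/-- an admissible quadratic has no fixed prime divisor -/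
theorem adm_rho (a b c : ℤ) (h : Admissible a b c) (p : ℕ) (hp : p.Prime) :
    rho (C a * X ^ 2 + C b * X) c p < p := by
  obtain ⟨ha, hg, h2, -⟩ := h
  have hp0 : (0 : ℤ) < p := by exact_mod_cast hp.pos
  have hev : ∀ m : ℤ, (C a * X ^ 2 + C b * X : ℤ[X]).eval m = a * m ^ 2 + b * m := by
    intro m
    simp
  obtain ⟨m, hm⟩ : ∃ m : ℤ, ¬ (p : ℤ) ∣ a * m ^ 2 + b * m + c := by
    by_contra hc
    push Not at hc
    have h0 := hc 0
    have h1 := hc 1
    have h3 := hc (-1)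
    have e0 : a * (0 : ℤ) ^ 2 + b * 0 + c = c := by ring
    have e1 : a * (1 : ℤ) ^ 2 + b * 1 + c = a + b + c := by ring
    have e3 : a * (-1 : ℤ) ^ 2 + b * (-1) + c = a - b + c := by ring
    rw [e0] at h0
    rw [e1] at h1
    rw [e3] at h3
    have h4 : (p : ℤ) ∣ a + b := by
      have := dvd_sub h1 h0
      rwa [add_sub_cancel_right] at this
    have h5 : (p : ℤ) ∣ a - b := by
      have := dvd_sub h3 h0
      rwa [add_sub_cancel_right] at this
    rcases hp.eq_two_or_odd' with hp2 | hpo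
    · apply h2
      rw [hp2] at h4 h0
      exact ⟨by exact_mod_cast h4, by exact_mod_cast h0⟩
    · have h6 : (p : ℤ) ∣ 2 * a := by
        have := dvd_add h4 h5
        have e : a + b + (a - b) = 2 * a := by ring
        rwa [e] at this
      have hpp : Prime (p : ℤ) := Nat.prime_iff_prime_int.1 hp
      have h7 : (p : ℤ) ∣ a := by
        rcases hpp.dvd_or_dvd h6 with h8 | h8
        · exfalso
          have h9 : p ∣ 2 := by exact_mod_cast h8
          have h10 := (Nat.prime_dvd_prime_iff_eq hp Nat.prime_two).1 h9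
          rw [h10] at hpo
          exact absurd hpo (by decide)
        · exact h8
      have h8 : (p : ℤ) ∣ b := by
        have := dvd_sub h4 h7
        rwa [add_sub_cancel_left] at this
      have h9 := hg _ h7 h8 h0
      exact hpp.not_unit h9
  unfold rho
  have hlt : (m % p).toNat < p := by
    have h1 := Int.emod_nonneg m hp0.ne'
    have h2 := Int.emod_lt_of_pos m hp0
    omega
  have hcast : (((m % p).toNat : ℕ) : ℤ) = m % p := Int.toNat_of_nonneg (Int.emod_nonneg m hp0.ne')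
  have hss : (range p).filter (fun r : ℕ => (p : ℤ) ∣ (C a * X ^ 2 + C b * X : ℤ[X]).eval (r : ℤ) + c) ⊂
      range p := by
    rw [filter_ssubset]
    refine ⟨(m % p).toNat, mem_range.2 hlt, ?_⟩
    intro hd
    rw [hcast] at hd
    apply hm
    have h1 : (p : ℤ) ∣ m - m % p := Int.dvd_self_sub_emod
    have h2 : (m - m % p) ∣ (C a * X ^ 2 + C b * X : ℤ[X]).eval m -
      (C a * X ^ 2 + C b * X : ℤ[X]).eval (m % p) := Polynomial.sub_dvd_eval_sub m (m % p) _
    have h3 := dvd_add (h1.trans h2) hd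
    rw [hev m] at h3
    have e : a * m ^ 2 + b * m - (C a * X ^ 2 + C b * X : ℤ[X]).eval (m % p) +
      ((C a * X ^ 2 + C b * X : ℤ[X]).eval (m % p) + c) = a * m ^ 2 + b * m + c := by ring
    rwa [e] at h3
  have := card_lt_card hss
  rwa [card_range] at this

theorem rt_one (N : ℕ) : rt 1 N ^ 1 = √(N : ℝ) := by
  unfold rt
  rw [pow_one, Real.sqrt_eq_rpow]
  norm_num

/-- the exact constant -/
theorem qz (h1 : S_QC1) (h2 : S_QC2) (a b : ℤ) (ha : 0 < a) (j : ℕ) (hj : 1 ≤ j) (κ ε : ℝ)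
    (hκ : 1 ≤ κ) (hε : 0 < ε) : ∃ B N₀ : ℕ, ∀ N : ℕ, N₀ ≤ N → ∀ H : ℕ, Real.log N ^ B ≤ H →
    (H : ℝ) ^ 2 ≤ N → ∃ Bad : Finset ℤ, (Bad.card : ℝ) ≤ ε * N ∧ ∀ c : ℤ, -(N : ℤ) ≤ c → c < 0 →
    c ∉ Bad → Admissible a b c → ∃ S : ℝ, 0 < S ∧ Tendsto (fun z : ℕ => cutQ a b c z) atTop (𝓝 S) ∧
    ∀ u v : ℤ, (H : ℝ) ≤ (v : ℝ) - u → (v : ℝ) - u ≤ κ * H →
      (∀ m ∈ Ioc u v, 2 ≤ a * m ^ 2 + b * m + c ∧
        ((a * m ^ 2 + b * m + c : ℤ) : ℝ) ≤ κ * ((v : ℝ) - u) * √(N : ℝ)) →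
      |((zp (C a * X ^ 2 + C b * X) c u v).card : ℝ) - epsQ a b * S * gcdQ a b *
        ∑ m ∈ Ioc u v, 1 / Real.log ((a * m ^ 2 + b * m + c : ℤ) : ℝ)| ≤
        ε * (epsQ a b * S * gcdQ a b * ∑ m ∈ Ioc u v, 1 / Real.log ((a * m ^ 2 + b * m + c : ℤ) : ℝ)) ∧
      0 < (zp (C a * X ^ 2 + C b * X) c u v).card ∧
      CovZ (zp (C a * X ^ 2 + C b * X) c u v) j (Real.log N ^ B)
        (ε * (zp (C a * X ^ 2 + C b * X) c u v).card) := by
  classical
  obtain ⟨F, hFd⟩ : ∃ F : ℤ[X], F = C a * X ^ 2 + C b * X := ⟨_, rfl⟩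
  have hF : F.natDegree = 1 + 1 := by
    rw [hFd]
    have h3 : (C a * X ^ 2 + C b * X : ℤ[X]) = C a * X ^ 2 + C b * X + C 0 := by simp
    rw [h3, natDegree_quadratic ha.ne']
  have hev : ∀ m : ℤ, F.eval m = a * m ^ 2 + b * m := by
    intro m
    rw [hFd]
    simp
  obtain ⟨η, hη⟩ : ∃ η : ℝ, η = min (ε / 8) (1 / 4) := ⟨_, rfl⟩
  have hη0 : 0 < η := by rw [hη]; positivity
  have hη1 : η ≤ ε / 8 := by rw [hη]; exact min_le_left _ _
  have hη2 : η ≤ 1 / 4 := by rw [hη]; exact min_le_right _ _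
  obtain ⟨E1, B1, X1, hnz⟩ := nz_all 1 le_rfl F hF j hj κ η hκ hη0
  obtain ⟨B2, X2, hboth⟩ := both 1 le_rfl F hF 1 1 η hη0
  obtain ⟨X3, hqc⟩ := h2 a b ha η hη0 (B2 + 1)
  obtain ⟨X4, hX4⟩ := Pool.Agent.Y843.HS.log_ge (max (max (4 / ε) κ) 2)
  refine ⟨B1 + B2 + 1, max (max X1 X2) (max X3 X4), fun N hN H hH hHN => ?_⟩
  have hN1 : X1 ≤ N := le_trans (le_trans (le_max_left _ _) (le_max_left _ _)) hN
  have hN2 : X2 ≤ N := le_trans (le_trans (le_max_right _ _) (le_max_left _ _)) hN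
  have hN3 : X3 ≤ N := le_trans (le_trans (le_max_left _ _) (le_max_right _ _)) hN
  have hN4 : X4 ≤ N := le_trans (le_trans (le_max_right _ _) (le_max_right _ _)) hN
  have hl := hX4 N hN4
  have hlε : 4 / ε ≤ Real.log N := le_trans (le_trans (le_max_left _ _) (le_max_left _ _)) hl
  have hlκ : κ ≤ Real.log N := le_trans (le_trans (le_max_right _ _) (le_max_left _ _)) hl
  have hl2 : 2 ≤ Real.log N := (le_max_right _ _).trans hl
  have hl1 : 1 ≤ Real.log N := by linarith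
  have hl0 : 0 < Real.log N := by linarith
  have hNr : (0 : ℝ) ≤ N := Nat.cast_nonneg _
  have hH1 : Real.log N ^ B1 ≤ H := (pow_le_pow_right₀ hl1 (by omega)).trans hH
  have hH2 : Real.log N ^ B2 ≤ H := (pow_le_pow_right₀ hl1 (by omega)).trans hH
  have hH0 : (1 : ℝ) ≤ H := (one_le_pow₀ hl1).trans hH
  obtain ⟨Ba, hBa1, hBa2⟩ := hnz N hN1 H hH1 hHN
  obtain ⟨Bb, _, hBb1, hBb2⟩ := hboth N hN2
  obtain ⟨z, hz1, hz2, Bc, hBc1, hBc2⟩ := hqc N hN3
  refine ⟨Ba ∪ Bb ∪ Bc, ?_, fun c hc1 hc2 hcB hadm => ?_⟩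
  · have a1 := card_union_le (Ba ∪ Bb) Bc
    have a2 := card_union_le Ba Bb
    have a3 : ((Ba ∪ Bb ∪ Bc).card : ℝ) ≤ Ba.card + Bb.card + Bc.card := by
      exact_mod_cast (by omega : (Ba ∪ Bb ∪ Bc).card ≤ Ba.card + Bb.card + Bc.card)
    have a4 : (N : ℝ) / Real.log N ^ 1 ≤ ε / 4 * N := by
      rw [pow_one, div_le_iff₀ hl0]
      rw [div_le_iff₀ hε] at hlε
      have b2 := mul_le_mul_of_nonneg_right hlε hNr
      linarith
    have a5 : η * (N : ℝ) ≤ ε / 8 * N := mul_le_mul_of_nonneg_right hη1 hNr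
    have a6 : 0 ≤ ε * (N : ℝ) := by positivity
    linarith
  · rw [mem_union, mem_union, not_or, not_or] at hcB
    obtain ⟨⟨hca, hcb⟩, hcc⟩ := hcB
    have hcI : c ∈ Icc (-(N : ℤ)) N := mem_Icc.2 ⟨hc1, by omega⟩
    have hrho : ∀ p : ℕ, p.Prime → rho F c p < p := by
      intro p hp
      rw [hFd]
      exact adm_rho a b c hadm p hp
    obtain ⟨_, hwA⟩ := hBa2 c hcI hca hrho
    have hz1' : Real.log N ^ B2 ≤ z := (pow_le_pow_right₀ hl1 (by omega)).trans hz1
    have hz2' : (2 : ℝ) ≤ z := by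
      refine le_trans ?_ hz1
      calc (2 : ℝ) ≤ Real.log N := hl2
        _ = Real.log N ^ 1 := (pow_one _).symm
        _ ≤ _ := pow_le_pow_right₀ hl1 (by omega)
    have hz2'' : 2 ≤ z := by exact_mod_cast hz2'
    obtain ⟨hhp, hwB⟩ := hBb2 c hcI hcb hrho z hz1' hz2
    obtain ⟨S', hS'0, hS'lim, hS'z⟩ := hBc2 c hc1 hc2 hcc hadm
    have heg : 0 < epsQ a b * gcdQ a b := mul_pos (epsQ_pos a b) (gcdQ_pos a b)
    have he0 : epsQ a b ≠ 0 := (epsQ_pos a b).ne'
    have hg0 : gcdQ a b ≠ 0 := (gcdQ_pos a b).ne'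
    refine ⟨2 * S' / (epsQ a b * gcdQ a b), by positivity, ?_, ?_⟩
    · have h3 : Tendsto (fun y : ℕ => 2 * CF a b c y / (epsQ a b * gcdQ a b)) atTop
          (𝓝 (2 * S' / (epsQ a b * gcdQ a b))) := (hS'lim.const_mul 2).div_const _
      apply h3.congr'
      filter_upwards [eventually_ge_atTop a.toNat] with y hy
      rw [CF_eq a b c ha y (by omega)]
      field_simp
    · intro u v huv1 huv2 hval
      have hconst : epsQ a b * (2 * S' / (epsQ a b * gcdQ a b)) * gcdQ a b = 2 * S' := by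
        field_simp
      rw [hconst]
      have huv0 : u < v := by
        have : (u : ℝ) < v := by linarith
        exact_mod_cast this
      have hval' : ∀ m ∈ Ioc u v, 2 ≤ F.eval m + c ∧
          ((F.eval m + c : ℤ) : ℝ) ≤ κ * ((v : ℝ) - u) * rt 1 N ^ 1 := by
        intro m hm
        rw [hev, rt_one]
        exact hval m hm
      obtain ⟨_, r2, r3⟩ := hwA u v huv1 huv2 hval'
      have hwt : ∑ m ∈ Ioc u v, wt (F.eval m + c).natAbs =
          ∑ m ∈ Ioc u v, 1 / Real.log ((a * m ^ 2 + b * m + c : ℤ) : ℝ) := by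
        apply sum_congr rfl
        intro m hm
        unfold wt
        have h3 := (hval m hm).1
        rw [hev]
        have h4 : (((a * m ^ 2 + b * m + c).natAbs : ℕ) : ℤ) = a * m ^ 2 + b * m + c := by omega
        have h5 : (((a * m ^ 2 + b * m + c).natAbs : ℕ) : ℝ) = ((a * m ^ 2 + b * m + c : ℤ) : ℝ) := by
          rw [← h4]
          simp
        rw [h5]
      have r1 := (hwB u v huv0 (by
        intro m hm
        refine ⟨(hval' m hm).1, (hval' m hm).2.trans ?_⟩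
        rw [rt_one, pow_one]
        have h3 : 0 ≤ (v : ℝ) - u := by linarith
        calc κ * ((v : ℝ) - u) * √(N : ℝ) = ((v : ℝ) - u) * (√(N : ℝ) * κ) := by ring
          _ ≤ ((v : ℝ) - u) * (√(N : ℝ) * Real.log N) := by gcongr)).1 (hH2.trans huv1)
      rw [hwt] at r1
      have hzp : (Ioc u v).filter (fun m => (F.eval m + c).natAbs.Prime) = zp F c u v := by
        unfold zp
        apply filter_congr
        intro m _
        exact Iff.rfl
      rw [hzp] at r1
      have hqz : hh F c z = 2 * CF a b c z := by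
        rw [hFd]
        exact h1 a b c hadm z hz2''
      rw [hqz] at r1 hhp
      rw [← hFd]
      obtain ⟨M, hM⟩ : ∃ M, M = ∑ m ∈ Ioc u v, 1 / Real.log ((a * m ^ 2 + b * m + c : ℤ) : ℝ) := ⟨_, rfl⟩
      rw [← hM] at r1 ⊢
      have hM0 : 0 ≤ M := by
        rw [hM]
        apply sum_nonneg
        intro m hm
        have h3 := (hval m hm).1
        have h4 : (2 : ℝ) ≤ ((a * m ^ 2 + b * m + c : ℤ) : ℝ) := by exact_mod_cast h3
        exact (one_div_pos.2 (Real.log_pos (by linarith))).le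
      refine ⟨?_, r2, CovZ_mono (Subset.refl _) (pow_le_pow_right₀ hl1 (by omega)) ?_ r3⟩
      · obtain ⟨T, hT⟩ : ∃ T, T = CF a b c z := ⟨_, rfl⟩
        rw [← hT] at r1 hS'z
        have h3 := abs_le.1 hS'z
        have h4 : |(2 * T - 2 * S') * M| ≤ 2 * (η * S') * M := by
          rw [abs_mul, abs_of_nonneg hM0]
          apply mul_le_mul_of_nonneg_right _ hM0
          rw [abs_le]
          constructor <;> linarith
        have h5 : ((zp F c u v).card : ℝ) - 2 * S' * M =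
            (((zp F c u v).card : ℝ) - 2 * T * M) + (2 * T - 2 * S') * M := by ring
        rw [h5]
        refine (abs_add_le _ _).trans ((add_le_add r1 h4).trans ?_)
        have h6 : T ≤ 2 * S' := by
          have : η * S' ≤ 1 / 4 * S' := mul_le_mul_of_nonneg_right hη2 hS'0.le
          linarith
        have hSM : 0 ≤ S' * M := by positivity
        have h7 : η * (2 * T * M) ≤ ε / 8 * (2 * (2 * S') * M) := by
          have h8 : 2 * T * M ≤ 2 * (2 * S') * M := by gcongr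
          exact mul_le_mul hη1 h8 (by
            have : 0 ≤ T := by linarith
            positivity) (by positivity)
        have h8 : 2 * (η * S') * M ≤ 2 * (ε / 8 * S') * M := by gcongr
        have h9 : ε / 8 * (2 * (2 * S') * M) + 2 * (ε / 8 * S') * M = 3 / 4 * (ε * (S' * M)) := by ring
        have h10 : ε * (2 * S' * M) = 2 * (ε * (S' * M)) := by ring
        have h11 : 0 ≤ ε * (S' * M) := by positivity
        linarith
      · apply mul_le_mul_of_nonneg_right _ (Nat.cast_nonneg _)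
        linarith

end Pool.Agent.Y871.LW
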