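import Pool.Agent.Y871.LW.Top
import Pool.Agent.TH892.OW.B7
import Pool.Agent.TH892.SW.S11

/-!
# Primes `|n² + a|`: all windows of length `(log X) ^ B`, and the windows near `√(-a)`
-/

set_option autoImplicit false

namespace Pool.Agent.Y871.LW

open Finset Filter Topology
open Pool.Agent.TH892.SW (HP vn wt)

/-- the `n` with `m < n ≤ N` for which `|n² + a|` is prime -/
def sq (a : ℤ) (m N : ℕ) : Finset ℕ :=
  (Ioc m N).filter (fun n : ℕ => ((n : ℤ) ^ 2 + a).natAbs.Prime)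

theorem InAP_mono {S : Finset ℕ} {k : ℕ} {D D' : ℝ} (hD : D ≤ D') {n : ℕ} (h : InAP S k D n) :
    InAP S k D' n := by
  obtain ⟨b, d, h1, h2, h3⟩ := h
  exact ⟨b, d, h1, h2.trans hD, h3⟩

theorem Cov_mono {P P' : Finset ℕ} (hP : P ⊆ P') {k : ℕ} {D D' t t' : ℝ} (hD : D ≤ D') (ht : t ≤ t')
    (h : Cov P' k D t) : Cov P k D' t' := by
  intro S hS T hT hn
  exact (h S (hS.trans hP) T hT (fun n hn' hc => hn n hn' (InAP_mono hD hc))).trans ht

open Classical in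
/-- the theorem for one interval of shifts -/
theorem one (k : ℕ) (hk : 1 ≤ k) (ε : ℝ) (hε : 0 < ε) : ∃ B X₀ : ℕ, ∀ X H m : ℕ, X₀ ≤ X →
    Real.log X ^ B ≤ H → ∀ A : ℤ,
    (((Ioc A (A + X)).filter (fun a => ¬ Cov (sq a m (m + H)) k (Real.log X ^ B)
      (ε * H / Real.log X))).card : ℝ) ≤ ε * X := by
  obtain ⟨B, X₀, h⟩ := poly_all k 1 (fun _ => Polynomial.X ^ 2) hk (by intro l; simp) ε hε
  refine ⟨B, X₀, fun X H m hX hH A => ?_⟩
  have h1 := h X H m hX hH (fun _ => A) (fun _ => X) (fun _ => le_rfl)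
  have h2 : (∏ _l : Fin 1, ((X : ℕ) : ℝ)) = X := by simp
  rw [h2] at h1
  refine le_trans ?_ h1
  rw [Nat.cast_le]
  apply card_le_card_of_injOn (fun a _ => a)
  · intro a ha
    rw [mem_coe, mem_filter] at ha ⊢
    refine ⟨Fintype.mem_piFinset.2 (fun _ => ha.1), ?_⟩
    have e : pts (fun _ : Fin 1 => (Polynomial.X ^ 2 : Polynomial ℤ)) (fun _ => a) m H =
        sq a m (m + H) := by
      unfold pts sq
      apply filter_congr
      intro n _
      simp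
    rw [e, pow_one]
    exact ha.2
  · intro a _ b _ hab
    exact congrFun hab 0

theorem sum_odd (n : ℕ) : ∑ s ∈ range n, (2 * s + 1) = n ^ 2 := by
  induction n with
  | zero => rfl
  | succ n ih => rw [sum_range_succ, ih]; ring

open Classical in
/-- the exceptional `K` for a property which holds for most `K` in the intervals `[s², (s+1)²)` -/
theorem badC {G : ℕ → Prop} {ε₁ : ℝ} (hε₁ : 0 ≤ ε₁) (X S0 : ℕ)
    (h : ∀ s : ℕ, S0 ≤ s → s ≤ Nat.sqrt X → (((Ioc (-((s : ℤ) + 1) ^ 2) (-((s : ℤ) + 1) ^ 2 + ((2 * s + 1 : ℕ) : ℤ))).filter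
      (fun a => ¬ G a.natAbs)).card : ℝ) ≤ ε₁ * ((2 * s + 1 : ℕ) : ℝ)) :
    (((Icc 1 X).filter (fun K => Nat.sqrt K < S0 ∨ ¬ G K)).card : ℝ) ≤
      (S0 : ℝ) ^ 2 + ε₁ * ((Nat.sqrt X + 1 : ℕ) : ℝ) ^ 2 := by
  obtain ⟨U, hU⟩ : ∃ U : ℕ → Finset ℕ, U = fun s : ℕ =>
      (((Ioc (-((s : ℤ) + 1) ^ 2) (-((s : ℤ) + 1) ^ 2 + ((2 * s + 1 : ℕ) : ℤ))).filter
        (fun a => ¬ G a.natAbs)).image Int.natAbs) := ⟨_, rfl⟩
  have h1 : (Icc 1 X).filter (fun K => Nat.sqrt K < S0 ∨ ¬ G K) ⊆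
      range (S0 ^ 2) ∪ (Icc S0 (Nat.sqrt X)).biUnion U := by
    intro K hK
    rw [mem_filter, mem_Icc] at hK
    rw [mem_union]
    by_cases hs : Nat.sqrt K < S0
    · left
      rw [mem_range]
      rw [Nat.sqrt_lt'] at hs
      exact hs
    · right
      have hG := hK.2.resolve_left hs
      rw [mem_biUnion]
      refine ⟨Nat.sqrt K, ?_, ?_⟩
      · rw [mem_Icc]
        exact ⟨not_lt.1 hs, Nat.sqrt_le_sqrt hK.1.2⟩
      · rw [hU, mem_image]
        refine ⟨-(K : ℤ), ?_, by simp⟩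
        rw [mem_filter, mem_Ioc]
        have e1 := Nat.sqrt_le' K
        have e2 := Nat.lt_succ_sqrt' K
        have e1' : ((Nat.sqrt K : ℕ) : ℤ) ^ 2 ≤ K := by exact_mod_cast e1
        have e2' : (K : ℤ) < ((Nat.sqrt K : ℕ) + 1 : ℤ) ^ 2 := by exact_mod_cast e2
        refine ⟨⟨by linarith, ?_⟩, by simpa using hG⟩
        push_cast
        nlinarith
  have h2 := (card_le_card h1).trans (card_union_le _ _)
  have hUc : ∀ s ∈ Icc S0 (Nat.sqrt X), ((U s).card : ℝ) ≤ ε₁ * ((2 * s + 1 : ℕ) : ℝ) := by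
    intro s hs
    refine le_trans ?_ (h s (mem_Icc.1 hs).1 (mem_Icc.1 hs).2)
    rw [hU, Nat.cast_le]
    exact card_image_le
  have h3 : (((Icc S0 (Nat.sqrt X)).biUnion U).card : ℝ) ≤ ε₁ * ((Nat.sqrt X + 1 : ℕ) : ℝ) ^ 2 := by
    have h4 : (((Icc S0 (Nat.sqrt X)).biUnion U).card : ℝ) ≤ ∑ s ∈ Icc S0 (Nat.sqrt X), ((U s).card : ℝ) := by
      exact_mod_cast card_biUnion_le
    refine h4.trans ((sum_le_sum hUc).trans ?_)
    rw [← mul_sum]
    apply mul_le_mul_of_nonneg_left _ hε₁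
    have h5 : ∑ s ∈ Icc S0 (Nat.sqrt X), (2 * s + 1) ≤ (Nat.sqrt X + 1) ^ 2 := by
      rw [← sum_odd]
      apply sum_le_sum_of_subset
      intro s hs
      rw [mem_Icc] at hs
      rw [mem_range]
      omega
    exact_mod_cast h5
  have h6 : (((Icc 1 X).filter (fun K => Nat.sqrt K < S0 ∨ ¬ G K)).card : ℝ) ≤
      ((range (S0 ^ 2)).card : ℝ) + (((Icc S0 (Nat.sqrt X)).biUnion U).card : ℝ) := by
    exact_mod_cast h2
  rw [card_range] at h6
  push_cast at h6 h3 ⊢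
  linarith

open Classical in
/-- the windows near `√K` -/
theorem near (k : ℕ) (hk : 1 ≤ k) (κ ε : ℝ) (C : ℕ) (hκ : 0 < κ) (hε : 0 < ε) : ∃ B X₀ : ℕ,
    ∀ X : ℕ, X₀ ≤ X → ∀ H : ℕ, Real.log X ^ B ≤ H → (H : ℝ) ≤ √X * Real.log X ^ C →
    ∃ Bad : Finset ℕ, (Bad.card : ℝ) ≤ ε * X ∧
    ∀ K ∈ Icc 1 X, K ∉ Bad → (∀ i, 2 ≤ vn K i) ∧
    ∃ h : ℝ, 0 < h ∧ Tendsto (fun N => HP K N) atTop (𝓝 h) ∧
    ∀ m N : ℕ, m + H ≤ N → (N : ℝ) - m ≤ κ * H → |(m : ℝ) - √(K : ℝ)| ≤ κ * H →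
      |((sq (-(K : ℤ)) m N).card : ℝ) - h * ∑ i ∈ Ioc m N, wt (vn K i)| ≤
        ε * (h * ∑ i ∈ Ioc m N, wt (vn K i)) ∧
      Cov (sq (-(K : ℤ)) m N) k (Real.log X ^ B) (ε * (sq (-(K : ℤ)) m N).card) := by
  obtain ⟨κ', hκ'⟩ : ∃ κ' : ℝ, κ' = max κ 1 := ⟨_, rfl⟩
  have hκ1 : 1 ≤ κ' := by rw [hκ']; exact le_max_right _ _
  have hκκ : κ ≤ κ' := by rw [hκ']; exact le_max_left _ _
  obtain ⟨δ0, hδ0, hgood⟩ := Pool.Agent.TH892.OW.h_good (ε / 8) (by positivity)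
  obtain ⟨E1, hE1⟩ := hgood 1 one_pos
  obtain ⟨Xa, hXa⟩ := hE1 E1 le_rfl 1 le_rfl
  obtain ⟨B2, Xb, hXb⟩ := Pool.Agent.TH892.SW.both 1 (C + 1) (min ε (1 / 2)) (by positivity)
  obtain ⟨ε₁, hε₁⟩ : ∃ ε₁ : ℝ, ε₁ = min (ε / 32) (ε * δ0 / (96 * κ')) := ⟨_, rfl⟩
  have hε₁0 : 0 < ε₁ := by rw [hε₁]; positivity
  have hε₁1 : ε₁ ≤ ε / 32 := by rw [hε₁]; exact min_le_left _ _
  have hε₁2 : ε₁ ≤ ε * δ0 / (96 * κ') := by rw [hε₁]; exact min_le_right _ _
  obtain ⟨B1, X1, h1⟩ := one k hk ε₁ hε₁0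
  obtain ⟨Xc, hXc⟩ := Pool.Agent.Y843.HS.log_ge (max (8 / ε + 2) (1 + 2 * κ'))
  obtain ⟨Xd, hXd⟩ := Pool.Agent.Y843.HS.log_pow_le (2 * C + 2) 2
  obtain ⟨Xe, hXe⟩ := exists_nat_ge ((8 / ε) ^ 2)
  refine ⟨B1 + B2 + 1, max (max (max Xa Xb) (max Xc Xd)) (max (max Xe (X1 ^ 4)) 100), fun X hX H hH hHX => ?_⟩
  have hXa' : Xa ≤ X := le_trans (le_trans (le_trans (le_max_left _ _) (le_max_left _ _)) (le_max_left _ _)) hX
  have hXb' : Xb ≤ X := le_trans (le_trans (le_trans (le_max_right _ _) (le_max_left _ _)) (le_max_left _ _)) hX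
  have hXc' : Xc ≤ X := le_trans (le_trans (le_trans (le_max_left _ _) (le_max_right _ _)) (le_max_left _ _)) hX
  have hXd' : Xd ≤ X := le_trans (le_trans (le_trans (le_max_right _ _) (le_max_right _ _)) (le_max_left _ _)) hX
  have hXe' : Xe ≤ X := le_trans (le_trans (le_trans (le_max_left _ _) (le_max_left _ _)) (le_max_right _ _)) hX
  have hX1' : X1 ^ 4 ≤ X := le_trans (le_trans (le_trans (le_max_right _ _) (le_max_left _ _)) (le_max_right _ _)) hX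
  have hX100 : 100 ≤ X := le_trans (le_trans (le_max_right _ _) (le_max_right _ _)) hX
  obtain ⟨Ba, hBa1, hBa2⟩ := hXa X hXa'
  obtain ⟨Bb, hBb0, hBb1, hBb2⟩ := hXb X hXb'
  have hl := hXc X hXc'
  have hlε : 8 / ε + 2 ≤ Real.log X := (le_max_left _ _).trans hl
  have hlκ : 1 + 2 * κ' ≤ Real.log X := (le_max_right _ _).trans hl
  have hpow := hXd X hXd'
  have h8ε : 0 < 8 / ε := by positivity
  have hl2 : 2 ≤ Real.log X := by linarith
  have hl0 : 0 < Real.log X := by linarith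
  have hl1 : 1 ≤ Real.log X := by linarith
  have hX0 : (0 : ℝ) < X := by exact_mod_cast (show 0 < X by omega)
  have hXr : (100 : ℝ) ≤ X := by exact_mod_cast hX100
  have hsX0 : 0 < √(X : ℝ) := Real.sqrt_pos.2 hX0
  have hsX2 : √(X : ℝ) * √(X : ℝ) = X := Real.mul_self_sqrt hX0.le
  have hsX10 : 10 ≤ √(X : ℝ) := by
    apply Real.le_sqrt_of_sq_le
    linarith
  have hH1 : (1 : ℝ) ≤ H := (one_le_pow₀ hl1).trans hH
  -- the threshold
  obtain ⟨S0, hS0⟩ : ∃ S0, S0 = Nat.sqrt (Nat.sqrt X) := ⟨_, rfl⟩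
  have hS0a : ((S0 : ℕ) : ℝ) ^ 2 ≤ √(X : ℝ) := by
    have a1 : S0 ^ 2 ≤ Nat.sqrt X := by rw [hS0]; exact Nat.sqrt_le' _
    have a2 : ((Nat.sqrt X : ℕ) : ℝ) ≤ √(X : ℝ) := Real.nat_sqrt_le_real_sqrt
    have a3 : ((S0 : ℕ) : ℝ) ^ 2 ≤ ((Nat.sqrt X : ℕ) : ℝ) := by exact_mod_cast a1
    linarith
  have hS0b : X < (S0 + 1) ^ 4 := by
    have a1 : Nat.sqrt X < (S0 + 1) ^ 2 := by rw [hS0]; exact Nat.lt_succ_sqrt' _
    have a2 : X < (Nat.sqrt X + 1) ^ 2 := Nat.lt_succ_sqrt' _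
    have a3 : (Nat.sqrt X + 1) ^ 2 ≤ ((S0 + 1) ^ 2) ^ 2 := Nat.pow_le_pow_left a1 2
    have a4 : ((S0 + 1) ^ 2) ^ 2 = (S0 + 1) ^ 4 := by ring
    omega
  have hlogs : ∀ s : ℕ, S0 ≤ s → Real.log X / 4 ≤ Real.log ((2 * s + 1 : ℕ) : ℝ) := by
    intro s hs
    have a1 : (X : ℝ) ≤ ((2 * s + 1 : ℕ) : ℝ) ^ 4 := by
      have a2 : (S0 + 1) ^ 4 ≤ (2 * s + 1) ^ 4 := Nat.pow_le_pow_left (by omega) 4
      exact_mod_cast (hS0b.le.trans a2)
    have a3 := Real.log_le_log hX0 a1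
    rw [Real.log_pow] at a3
    push_cast at a3 ⊢
    linarith
  have hX1s : ∀ s : ℕ, S0 ≤ s → X1 ≤ 2 * s + 1 := by
    intro s hs
    by_contra hcon
    have a1 : (S0 + 1) ^ 4 ≤ X1 ^ 4 := Nat.pow_le_pow_left (by omega) 4
    omega
  -- the window
  obtain ⟨L1, hL1⟩ : ∃ L1, L1 = ⌈κ' * H⌉₊ := ⟨_, rfl⟩
  obtain ⟨L2, hL2⟩ : ∃ L2, L2 = ⌈2 * κ' * H⌉₊ + 1 := ⟨_, rfl⟩
  have hκH : (1 : ℝ) ≤ κ' * H := by nlinarith
  have hL1a : κ' * H ≤ (L1 : ℝ) := by rw [hL1]; exact Nat.le_ceil _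
  have hL1b : (L1 : ℝ) ≤ κ' * H + 1 := by rw [hL1]; exact (Nat.ceil_lt_add_one (by positivity)).le
  have hL2a : 2 * κ' * H + 1 ≤ (L2 : ℝ) := by
    rw [hL2]; push_cast
    have := Nat.le_ceil (2 * κ' * (H : ℝ))
    linarith
  have hL2b : (L2 : ℝ) ≤ 2 * κ' * H + 2 := by
    rw [hL2]; push_cast
    have := (Nat.ceil_lt_add_one (show (0 : ℝ) ≤ 2 * κ' * H by positivity)).le
    linarith
  have hLL : ((L1 + L2 : ℕ) : ℝ) ≤ 6 * κ' * H := by push_cast; linarith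
  have hLH : (H : ℝ) ≤ ((L1 + L2 : ℕ) : ℝ) := by push_cast; nlinarith
  -- the property
  obtain ⟨G, hG⟩ : ∃ G : ℕ → Prop, G = fun K : ℕ => Cov (sq (-(K : ℤ)) (Nat.sqrt K - L1) (Nat.sqrt K - L1 + (L1 + L2)))
    k (Real.log ((2 * Nat.sqrt K + 1 : ℕ) : ℝ) ^ B1) (ε₁ * ((L1 + L2 : ℕ) : ℝ) / Real.log ((2 * Nat.sqrt K + 1 : ℕ) : ℝ)) := ⟨_, rfl⟩
  have hlogX : ∀ s : ℕ, s ≤ Nat.sqrt X → Real.log ((2 * s + 1 : ℕ) : ℝ) ≤ Real.log X := by
    intro s hs
    apply Real.log_le_log (by positivity)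
    have a1 : (s : ℝ) ≤ √(X : ℝ) := (by exact_mod_cast hs : (s : ℝ) ≤ (Nat.sqrt X : ℕ)).trans Real.nat_sqrt_le_real_sqrt
    push_cast
    nlinarith
  have hbad := badC (G := G) hε₁0.le X S0 (by
    intro s hs hsX
    have a1 := h1 (2 * s + 1) (L1 + L2) (s - L1) (hX1s s hs) (by
      refine le_trans ?_ hLH
      refine le_trans ?_ hH
      have b1 := hlogX s hsX
      have b2 := hlogs s hs
      calc Real.log ((2 * s + 1 : ℕ) : ℝ) ^ B1 ≤ Real.log X ^ B1 := pow_le_pow_left₀ (by linarith) b1 _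
        _ ≤ Real.log X ^ (B1 + B2 + 1) := pow_le_pow_right₀ hl1 (by omega)) (-((s : ℤ) + 1) ^ 2)
    refine le_trans ?_ a1
    rw [Nat.cast_le]
    apply card_le_card
    intro a ha
    rw [mem_filter] at ha ⊢
    refine ⟨ha.1, ?_⟩
    intro hc
    apply ha.2
    have b1 := mem_Ioc.1 ha.1
    push_cast at b1
    have b2 : a < 0 ∨ a = 0 := by
      rcases b1 with ⟨_, b3⟩
      rcases lt_trichotomy a 0 with h | h | h
      · exact Or.inl h
      · exact Or.inr h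
      · nlinarith
    have b3 : ((a.natAbs : ℕ) : ℤ) = -a := by omega
    have b4 : Nat.sqrt a.natAbs = s := by
      symm
      rw [Nat.eq_sqrt']
      constructor
      · zify
        rw [abs_of_nonpos (by omega)]
        nlinarith [b1.2]
      · zify
        rw [abs_of_nonpos (by omega)]
        nlinarith [b1.1]
    rw [hG]
    simp only
    rw [b4, b3, neg_neg]
    exact hc)
  have hbad2 : (((Icc 1 X).filter (fun K => Nat.sqrt K < S0 ∨ ¬ G K)).card : ℝ) ≤ ε / 4 * X := by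
    refine hbad.trans ?_
    have a1 : ((Nat.sqrt X : ℕ) : ℝ) ≤ √(X : ℝ) := Real.nat_sqrt_le_real_sqrt
    have a2 : √(X : ℝ) ≤ ε / 8 * X := by
      have b1 : 8 / ε ≤ √(X : ℝ) := by
        apply Real.le_sqrt_of_sq_le
        exact hXe.trans (by exact_mod_cast hXe')
      rw [div_le_iff₀ hε] at b1
      have b2 := mul_le_mul_of_nonneg_right b1 hsX0.le
      nlinarith
    have a3 : ((Nat.sqrt X + 1 : ℕ) : ℝ) ^ 2 ≤ 4 * X := by
      push_cast
      have b1 : ((Nat.sqrt X : ℕ) : ℝ) + 1 ≤ 2 * √(X : ℝ) := by linarith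
      have b2 : (0 : ℝ) ≤ ((Nat.sqrt X : ℕ) : ℝ) + 1 := by positivity
      calc (((Nat.sqrt X : ℕ) : ℝ) + 1) ^ 2 ≤ (2 * √(X : ℝ)) ^ 2 := pow_le_pow_left₀ b2 b1 2
        _ = 4 * (√(X : ℝ) * √(X : ℝ)) := by ring
        _ = 4 * X := by rw [hsX2]
    have a4 : ε₁ * ((Nat.sqrt X + 1 : ℕ) : ℝ) ^ 2 ≤ ε / 32 * (4 * X) := by gcongr
    linarith
  refine ⟨Ba ∪ Bb ∪ (Icc 1 X).filter (fun K => Nat.sqrt K < S0 ∨ ¬ G K), ?_, ?_⟩
  · have a1 := card_union_le (Ba ∪ Bb) ((Icc 1 X).filter (fun K => Nat.sqrt K < S0 ∨ ¬ G K))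
    have a2 := card_union_le Ba Bb
    have a3 : ((Ba ∪ Bb ∪ (Icc 1 X).filter (fun K => Nat.sqrt K < S0 ∨ ¬ G K)).card : ℝ) ≤
        Ba.card + Bb.card + ((Icc 1 X).filter (fun K => Nat.sqrt K < S0 ∨ ¬ G K)).card := by
      exact_mod_cast (by omega : (Ba ∪ Bb ∪ (Icc 1 X).filter (fun K => Nat.sqrt K < S0 ∨ ¬ G K)).card ≤
        Ba.card + Bb.card + ((Icc 1 X).filter (fun K => Nat.sqrt K < S0 ∨ ¬ G K)).card)
    have a4 : (X : ℝ) / Real.log X ^ 1 ≤ ε / 8 * X := by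
      rw [pow_one, div_le_iff₀ hl0]
      have b1 : 8 / ε ≤ Real.log X := by linarith
      rw [div_le_iff₀ hε] at b1
      nlinarith
    have a5 : 0 ≤ ε * (X : ℝ) := by positivity
    linarith
  · intro K hK hKB
    rw [mem_union, mem_union, not_or, not_or] at hKB
    obtain ⟨⟨hKa, hKb⟩, hKc⟩ := hKB
    have hK1 := mem_Icc.1 hK
    obtain ⟨hvn, h, hh, hlim, hwin⟩ := hBb2 K hK hKb
    refine ⟨hvn, h, hh, hlim, ?_⟩
    have hnsq : ¬ IsSquare (K : ℤ) := by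
      rintro ⟨r, hr⟩
      have c1 := hvn r.natAbs
      have c2 : vn K r.natAbs = 0 := by
        unfold vn
        have c3 : ((r.natAbs : ℕ) : ℤ) ^ 2 = (K : ℤ) := by
          rw [Int.natAbs_sq, pow_two, ← hr]
        rw [c3, sub_self]
        rfl
      omega
    have hδh := (hBa2 K hK hKa hnsq h hh hlim).1
    have hGK : S0 ≤ Nat.sqrt K ∧ G K := by
      by_contra hcon
      apply hKc
      rw [mem_filter]
      refine ⟨hK, ?_⟩
      by_cases h1 : Nat.sqrt K < S0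
      · exact Or.inl h1
      · right
        intro h2
        exact hcon ⟨not_lt.1 h1, h2⟩
    obtain ⟨hSK, hGK⟩ := hGK
    rw [hG] at hGK
    intro m N hmN hNH hmK
    have hmN' : m < N := by
      have : 1 ≤ H := by exact_mod_cast hH1
      omega
    have hmNr : (m : ℝ) + H ≤ N := by exact_mod_cast hmN
    have hNm : (H : ℝ) ≤ (N : ℝ) - m := by linarith
    have hKX : √(K : ℝ) ≤ √(X : ℝ) := Real.sqrt_le_sqrt (by exact_mod_cast hK1.2)
    have hab := abs_le.1 hmK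
    have hlC1 : 1 ≤ Real.log X ^ C := one_le_pow₀ hl1
    have hNle : (N : ℝ) ≤ √X * Real.log X ^ (C + 1) := by
      have c1 : (N : ℝ) ≤ √(X : ℝ) + 2 * κ * H := by linarith
      have c2 : 2 * κ * H ≤ 2 * κ' * (√X * Real.log X ^ C) := by gcongr
      have c3 : √(X : ℝ) ≤ √X * Real.log X ^ C := le_mul_of_one_le_right hsX0.le hlC1
      have c4 : (1 + 2 * κ') * (√X * Real.log X ^ C) ≤ Real.log X * (√X * Real.log X ^ C) := by gcongr
      rw [pow_succ]
      nlinarith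
    have hwn := (hwin m N hmN' hNle (by
      refine hmK.trans ?_
      calc κ * H ≤ Real.log X * ((N : ℝ) - m) := by
            apply mul_le_mul _ hNm (by positivity) hl0.le
            linarith
        _ ≤ Real.log X ^ (C + 1) * ((N : ℝ) - m) := by
            apply mul_le_mul_of_nonneg_right _ (by linarith)
            calc Real.log X = Real.log X ^ 1 := (pow_one _).symm
              _ ≤ Real.log X ^ (C + 1) := pow_le_pow_right₀ hl1 (by omega)
        _ = ((N : ℝ) - m) * Real.log X ^ (C + 1) := mul_comm _ _)).1 (by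
      refine le_trans ?_ (hH.trans hNm)
      exact pow_le_pow_right₀ hl1 (by omega))
    have hcnt : ((Ioc m N).filter (fun i => (vn K i).Prime)).card = (sq (-(K : ℤ)) m N).card := by
      unfold sq
      congr 1
    rw [hcnt] at hwn
    obtain ⟨W, hW⟩ : ∃ W, W = ∑ i ∈ Ioc m N, wt (vn K i) := ⟨_, rfl⟩
    rw [← hW] at hwn ⊢
    have hWlow : (H : ℝ) / (2 * Real.log X) ≤ W := by
      have c1 : ∀ i ∈ Ioc m N, 1 / (2 * Real.log X) ≤ wt (vn K i) := by
        intro i hi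
        unfold wt
        have d1 := hvn i
        have d2 : (vn K i : ℝ) ≤ (X : ℝ) ^ 2 := by
          have e1 : (vn K i : ℝ) ≤ (i : ℝ) ^ 2 + K := by
            have e2 : vn K i ≤ i ^ 2 + K := by
              unfold vn
              zify
              rw [abs_le]
              constructor <;> nlinarith [sq_nonneg (i : ℤ), Int.natCast_nonneg K]
            exact_mod_cast e2
          have e3 : (i : ℝ) ≤ N := by exact_mod_cast (mem_Ioc.1 hi).2
          have e4 : (i : ℝ) ^ 2 ≤ (√X * Real.log X ^ (C + 1)) ^ 2 :=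
            pow_le_pow_left₀ (by positivity) (e3.trans hNle) 2
          have e5 : (√X * Real.log X ^ (C + 1)) ^ 2 = X * Real.log X ^ (2 * C + 2) := by
            rw [mul_pow, ← pow_mul, pow_two (√(X : ℝ)), hsX2]
            congr 2
            ring
          have e6 : (K : ℝ) ≤ X := by exact_mod_cast hK1.2
          have e7 : 1 ≤ Real.log X ^ (2 * C + 2) := one_le_pow₀ hl1
          nlinarith
        have d3 : Real.log (vn K i : ℝ) ≤ 2 * Real.log X := by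
          have e1 : (0 : ℝ) < vn K i := by exact_mod_cast (show 0 < vn K i by omega)
          have e2 := Real.log_le_log e1 d2
          rw [Real.log_pow] at e2
          push_cast at e2
          exact e2
        have d4 : 0 < Real.log (vn K i : ℝ) := Real.log_pos (by exact_mod_cast (show 1 < vn K i by omega))
        exact one_div_le_one_div_of_le d4 d3
      have c2 := sum_le_sum c1
      rw [sum_const, nsmul_eq_mul, Nat.card_Ioc, Nat.cast_sub hmN'.le, ← hW] at c2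
      refine le_trans ?_ c2
      rw [mul_one_div]
      exact div_le_div_of_nonneg_right hNm (by positivity)
    have hW0 : 0 < W := lt_of_lt_of_le (by positivity) hWlow
    have hhW : 0 < h * W := mul_pos hh hW0
    have hPlow : δ0 * H / (4 * Real.log X) ≤ (sq (-(K : ℤ)) m N).card := by
      have c1 := (abs_le.1 hwn).1
      have c2 : min ε (1 / 2) * (h * W) ≤ 1 / 2 * (h * W) :=
        mul_le_mul_of_nonneg_right (min_le_right _ _) hhW.le
      have c3 : δ0 * (H / (2 * Real.log X)) ≤ h * W := mul_le_mul hδh hWlow (by positivity) hh.le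
      have c4 : δ0 * H / (4 * Real.log X) = 1 / 2 * (δ0 * (H / (2 * Real.log X))) := by
        field_simp
        ring
      rw [c4]
      linarith
    refine ⟨hwn.trans (mul_le_mul_of_nonneg_right (min_le_left _ _) hhW.le), ?_⟩
    refine Cov_mono ?_ ?_ ?_ hGK
    · unfold sq
      apply filter_subset_filter
      intro n hn
      rw [mem_Ioc] at hn ⊢
      have c1 : ((Nat.sqrt K : ℕ) : ℝ) ≤ √(K : ℝ) := Real.nat_sqrt_le_real_sqrt
      have c2 : √(K : ℝ) ≤ ((Nat.sqrt K : ℕ) : ℝ) + 1 := Real.real_sqrt_le_nat_sqrt_succ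
      have c3 : κ * (H : ℝ) ≤ κ' * H := mul_le_mul_of_nonneg_right hκκ (by positivity)
      have c4 : Nat.sqrt K ≤ m + L1 := by
        have : ((Nat.sqrt K : ℕ) : ℝ) ≤ m + L1 := by linarith
        exact_mod_cast this
      have c5 : N ≤ Nat.sqrt K + L2 := by
        have : (N : ℝ) ≤ ((Nat.sqrt K : ℕ) : ℝ) + L2 := by linarith
        exact_mod_cast this
      constructor <;> omega
    · calc Real.log ((2 * Nat.sqrt K + 1 : ℕ) : ℝ) ^ B1 ≤ Real.log X ^ B1 :=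
            pow_le_pow_left₀ (by have := hlogs _ hSK; linarith) (hlogX _ (Nat.sqrt_le_sqrt hK1.2)) _
        _ ≤ Real.log X ^ (B1 + B2 + 1) := pow_le_pow_right₀ hl1 (by omega)
    · have c1 := hlogs _ hSK
      calc ε₁ * ((L1 + L2 : ℕ) : ℝ) / Real.log ((2 * Nat.sqrt K + 1 : ℕ) : ℝ)
          ≤ ε₁ * (6 * κ' * H) / (Real.log X / 4) := by
            apply div_le_div₀ (by positivity) _ (by positivity) c1
            exact mul_le_mul_of_nonneg_left hLL hε₁0.le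
        _ = ε₁ * (96 * κ') * (H / (4 * Real.log X)) := by
            field_simp
            ring
        _ ≤ (ε * δ0) * (H / (4 * Real.log X)) := by
            apply mul_le_mul_of_nonneg_right _ (by positivity)
            rw [le_div_iff₀ (by positivity)] at hε₁2
            exact hε₁2
        _ = ε * (δ0 * H / (4 * Real.log X)) := by ring
        _ ≤ ε * (sq (-(K : ℤ)) m N).card := mul_le_mul_of_nonneg_left hPlow hε.le

end Pool.Agent.Y871.LW
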