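import Pool.Agent.Y843.HS.Stm

/-!
# Project LW (helper871): Szemerédi's theorem in windows of logarithmic length, for almost all shifts

Let `F l`, `l < q`, be nonconstant integer polynomials. For almost all vectors `a` of a box with sides
`≥ X` and for ALL windows `(m, m + H]`, `H ≥ (log X) ^ B`, the set of the `n` in the window such that
all the numbers `|F l (n) + a l|` are prime satisfies Szemerédi's theorem relative to the upper bound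
`H / (log X) ^ q`, with differences `≤ (log X) ^ B`.

The proof is that of helper843 (`Y843.HS`: Szemerédi relative to sifted sets). The windows are now
indexed by the vector `x` of shifts, and the weight at the point `i` of the window is
`∏ nu (x l + φ l i)`.
-/

set_option autoImplicit false

open Finset

namespace Pool.Agent.Y871.LW

open Pool.Agent.H602R3.DHJ (av)
open Pool.Agent.Y727.PSP (rp)
open Pool.Agent.Y843.HS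

/-- For `1 ≤ i ≤ N` the values `φ i` lie in a class modulo `p ∈ (s, R]` only if `i` lies in one of
at most `e` classes modulo `p`. -/
def PC (e s R N : ℕ) (φ : ℕ → ℕ) : Prop :=
  ∀ p ∈ Pr s R, ∀ c : ℕ, (((Icc 1 N).filter (fun i => φ i % p = c)).image (fun i => i % p)).card ≤ e

/-- (GAVP) the average of `Gd` over the values of `φ` -/
def S_GAVP : Prop := ∀ r e K : ℕ, ∀ ε : ℝ, 0 < ε → ∃ s₀ B₀ X₀ : ℕ, ∀ s R X N : ℕ, s₀ ≤ s → X₀ ≤ X →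
  R ≤ X → Real.log X ^ B₀ ≤ N → ∀ Z : ℕ → Finset ℕ, Sv r s R Z → ∀ φ : ℕ → ℕ, PC e s R N φ →
    ∀ h : ℤ, (∑ i ∈ Icc 1 N, (Gd K Z s R ((φ i : ℤ) - h) - 1)) / N ≤ ε

/-- two independent homomorphisms to `ZMod N`, `N` prime -/
def Ind {Y : Type} [AddCommGroup Y] {N : ℕ} (f g : Y →+ ZMod N) : Prop :=
  (∃ v, f v ≠ 0 ∧ g v = 0) ∧ ∃ w, f w = 0 ∧ g w ≠ 0

/-- the correlations of the weights `ν x`, `x ∈ Ω`, are close to one in the mean over `x` -/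
def Cor {α : Type} {N : ℕ} (Ω : Finset α) (ν : α → ZMod N → ℝ) (M : ℕ) (E : ℝ) : Prop :=
  ∀ (Y : Type) [AddCommGroup Y] [Fintype Y] (I : Type) [Fintype I], Fintype.card I ≤ M →
    ∀ f : I → Y →+ ZMod N, (∀ i j, i ≠ j → Ind (f i) (f j)) → (∀ i, ∃ v, f i v ≠ 0) →
    |(∑ x ∈ Ω, av (fun y : Y => ∏ i, ν x (f i y))) / Ω.card - 1| ≤ E

/-- (TRANS) the relative Szemerédi theorem for a family of weights on `ZMod N` -/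
def S_TRANS : Prop := ∀ k : ℕ, 2 ≤ k → ∀ δ : ℝ, 0 < δ → ∃ c E : ℝ, 0 < c ∧ 0 < E ∧
  ∀ (N : ℕ) [NeZero N], N.Prime → k < N → ∀ (α : Type) (Ω : Finset α) (ν F : α → ZMod N → ℝ),
    Ω.Nonempty → (∀ x a, 0 ≤ F x a ∧ F x a ≤ ν x a) → Cor Ω ν (2 * (k * 2 ^ k)) E →
    δ * Ω.card ≤ ∑ x ∈ Ω, av (F x) →
    ∃ x ∈ Ω, c ≤ av (fun p : ZMod N × ZMod N => ∏ j ∈ range k, F x (p.1 + (j : ZMod N) * p.2))

/-- the weight in the window which belongs to the vector `x` of shifts -/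
noncomputable def nuS {q : ℕ} (Z : Fin q → ℕ → Finset ℕ) (s z R : ℕ) (θ : Fin q → Finset ℕ → ℝ)
    (φ : Fin q → ℕ → ℕ) (N : ℕ) (x : Fin q → ℕ) (a : ZMod N) : ℝ :=
  ∏ l, nu (Z l) s z R (θ l) (x l + φ l (rp a))

/-- the vectors `x` with `A l < x l ≤ A l + Xs l` -/
def bx {q : ℕ} (A Xs : Fin q → ℕ) : Finset (Fin q → ℕ) :=
  Fintype.piFinset fun l => Ioc (A l) (A l + Xs l)

/-- (CORS) the correlations of the weight `nuS` -/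
def S_CORS : Prop := ∀ q r e M C : ℕ, ∃ C1 : ℕ, ∀ E : ℝ, 0 < E → ∃ g s₀ B₀ : ℕ, ∀ s : ℕ, s₀ ≤ s →
  ∃ J₁ : ℕ, ∀ J X N : ℕ, J₁ ≤ J → (2 ^ 2 ^ J) ^ C1 ≤ X → Real.log X ^ B₀ ≤ N → N.Prime →
    ∀ A Xs : Fin q → ℕ, (∀ l, X ≤ Xs l) → ∀ Z : Fin q → ℕ → Finset ℕ,
    (∀ l, Sv r s (2 ^ 2 ^ J) (Z l)) → ∀ θ : Fin q → Finset ℕ → ℝ,
    (∀ l, Wt C (Z l) (2 ^ 2 ^ (J - g)) (2 ^ 2 ^ J) (θ l)) →
    ∀ φ : Fin q → ℕ → ℕ, (∀ l, PC e s (2 ^ 2 ^ J) N (φ l)) →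
    Cor (bx A Xs) (nuS Z s (2 ^ 2 ^ (J - g)) (2 ^ 2 ^ J) θ φ N) M E

/-- (PA) the theorem relative to sets sifted by the primes of `(s, Y]`, in windows of length `N / 2` -/
def S_PA : Prop := ∀ k : ℕ, 2 ≤ k → ∀ q r e L : ℕ, ∀ δ : ℝ, 0 < δ → ∃ s₀ : ℕ, ∀ s : ℕ, s₀ ≤ s →
  ∃ B X₀ : ℕ, ∀ X Y N : ℕ, X₀ ≤ X → X ≤ Y ^ L → Y ≤ X ^ L → N.Prime → Real.log X ^ B ≤ N →
    ∀ A Xs : Fin q → ℕ, (∀ l, X ≤ Xs l) → ∀ Z : Fin q → ℕ → Finset ℕ, (∀ l, Sv r s Y (Z l)) →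
    ∀ φ : Fin q → ℕ → ℕ, (∀ l, PC e s Y N (φ l)) → ∀ T : Finset ((Fin q → ℕ) × ℕ),
    (∀ t ∈ T, t.1 ∈ bx A Xs ∧ 1 ≤ t.2 ∧ 2 * t.2 < N) →
    (∀ t ∈ T, ∀ l, ∀ p ∈ Pr s Y, (t.1 l + φ l t.2) % p ∉ Z l p) →
    δ * (∏ l, (Xs l : ℝ)) * N * ∏ l, VV (Z l) s Y ≤ T.card →
    ∃ (x : Fin q → ℕ) (b d : ℕ), 1 ≤ d ∧ d < N ∧ ∀ j < k, (x, b + j * d) ∈ T

/-- (GEN) the theorem relative to sets sifted by the primes up to `X ^ κ`, in windows of length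
`H ≥ (log X) ^ B` -/
def S_GEN : Prop := ∀ k q r e p₀ : ℕ, ∀ κ δ : ℝ, 0 < κ → 0 < δ → ∃ B X₀ : ℕ, ∀ X H : ℕ, X₀ ≤ X →
  Real.log X ^ B ≤ H → ∀ A Xs : Fin q → ℕ, (∀ l, X ≤ Xs l) → ∀ Z : Fin q → ℕ → Finset ℕ,
  (∀ l, ∀ p : ℕ, p.Prime → (p : ℝ) ≤ (X : ℝ) ^ κ →
    (Z l p).card ≤ r ∧ (Z l p).card < p ∧ ∀ c ∈ Z l p, c < p) →
  ∀ φ : Fin q → ℕ → ℕ,
  (∀ l m, ∀ i ∈ Icc 1 (2 * H), ∀ j ∈ Icc 1 (2 * H), i ≡ j [MOD m] → φ l i ≡ φ l j [MOD m]) →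
  (∀ l, ∀ p : ℕ, p.Prime → p₀ < p → ∀ c : ℕ,
    (((Icc 1 (2 * H)).filter (fun i => φ l i % p = c)).image (fun i => i % p)).card ≤ e) →
  ∀ T : Finset ((Fin q → ℕ) × ℕ), (∀ t ∈ T, t.1 ∈ bx A Xs ∧ 1 ≤ t.2 ∧ t.2 ≤ H) →
  (∀ t ∈ T, ∀ l, ∀ p : ℕ, p.Prime → (p : ℝ) ≤ (X : ℝ) ^ κ → (t.1 l + φ l t.2) % p ∉ Z l p) →
  δ * (∏ l, (Xs l : ℝ)) * H * ∏ l, VV (Z l) 0 ⌊(X : ℝ) ^ κ⌋₊ ≤ T.card →
  ∃ (x : Fin q → ℕ) (b d : ℕ), 1 ≤ d ∧ (d : ℝ) ≤ Real.log X ^ B ∧ ∀ j < k, (x, b + j * d) ∈ T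

/-- `n` is a term of a progression of `k` terms in `S` with a difference `1 ≤ d ≤ D` -/
def InAP (S : Finset ℕ) (k : ℕ) (D : ℝ) (n : ℕ) : Prop :=
  ∃ b d : ℕ, 1 ≤ d ∧ (d : ℝ) ≤ D ∧ (∀ j < k, b + j * d ∈ S) ∧ ∃ j < k, n = b + j * d

/-- in every subset of `P`, all elements but at most `t` lie in progressions of `k` terms of the
subset with a difference `≤ D` -/
def Cov (P : Finset ℕ) (k : ℕ) (D t : ℝ) : Prop :=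
  ∀ S ⊆ P, ∀ T ⊆ S, (∀ n ∈ T, ¬ InAP S k D n) → (T.card : ℝ) ≤ t

/-- the `n` in `(m, m + H]` for which all `|F l (n) + a l|` are prime -/
def pts {q : ℕ} (F : Fin q → Polynomial ℤ) (a : Fin q → ℤ) (m H : ℕ) : Finset ℕ :=
  (Ioc m (m + H)).filter (fun n : ℕ => ∀ l, ((F l).eval (n : ℤ) + a l).natAbs.Prime)

open Classical in
/-- (POLY) prime values of polynomials in all windows of length `≥ (log X) ^ B`, for all but `ε ∏ Xs`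
of the vectors of shifts in a box with sides `Xs l ≥ X` -/
def S_POLY : Prop := ∀ (k q : ℕ) (F : Fin q → Polynomial ℤ), 1 ≤ k → (∀ l, 1 ≤ (F l).natDegree) →
  ∀ ε : ℝ, 0 < ε → ∃ B X₀ : ℕ, ∀ X H m : ℕ, X₀ ≤ X → Real.log X ^ B ≤ H →
  ∀ (A : Fin q → ℤ) (Xs : Fin q → ℕ), (∀ l, X ≤ Xs l) →
    (((Fintype.piFinset fun l => Ioc (A l) (A l + Xs l)).filter (fun a =>
      ¬ Cov (pts F a m H) k (Real.log X ^ B) (ε * H / Real.log X ^ q))).card : ℝ) ≤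
      ε * ∏ l, (Xs l : ℝ)

end Pool.Agent.Y871.LW
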