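import Pool.Agent.Y871.LW.Stm
import Pool.Agent.TH892.FullBox
import Pool.Agent.H300R2.FB.ThinAbs

/-!
# Project LW, part B (helper871): almost all polynomials of height `H`

For almost all polynomials `f` of degree `j ≥ 2` and height `≤ H` without fixed prime divisor, and for
`(log H) ^ B ≤ K ≤ H / (log H) ^ B`, the set of the `t ≤ K` with `|f(t)|` prime satisfies Szemerédi's
theorem relative to its true size (which is known: `Pool.Agent.Y889.SK.exc_boxS`).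
-/

set_option autoImplicit false

open Finset

namespace Pool.Agent.Y871.LW

open Pool.Agent.TH892 (box pol)
open Pool.Agent.H300R2.BH (SS rho)
open Pool.Agent.H300R2.FB (pa la)

open Classical in
/-- (LT) the lower tail of the truncated singular series -/
def S_LT : Prop := ∀ j : ℕ, 1 ≤ j → ∀ η : ℝ, 0 < η → ∃ δ : ℝ, 0 < δ ∧ ∀ E : ℕ, ∃ H₀ : ℕ, ∀ H : ℕ,
  H₀ ≤ H → (((box j H).filter (fun c =>
    (∀ p : ℕ, p.Prime → p ≤ ⌊Real.log H ^ E⌋₊ → rho (pol c) p ≠ p) ∧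
      SS ⌊Real.log H ^ E⌋₊ (pol c) < δ)).card : ℝ) ≤ η * (box j H).card

/-- (LA) the sum of `1 / log |f(t)|` -/
def S_LA : Prop := ∀ j : ℕ, 1 ≤ j → ∃ c₀ : ℝ, 0 < c₀ ∧ ∃ H₀ : ℕ, ∀ H : ℕ, H₀ ≤ H →
  ∀ c ∈ box j H, ∀ K : ℕ, H₀ ≤ K → K ≤ H → c₀ * K / Real.log H ≤ la (pol c) K

open Classical in
/-- (UNI) prime values of polynomials in all windows, uniformly in the polynomials -/
def S_UNI : Prop := ∀ (k q e p₀ : ℕ), 1 ≤ k → ∀ ε : ℝ, 0 < ε → ∃ B X₀ : ℕ, ∀ X H m : ℕ, X₀ ≤ X →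
  Real.log X ^ B ≤ H → ∀ F : Fin q → Polynomial ℤ, (∀ l, (F l).natDegree ≤ e) →
  (∀ l, ∀ p : ℕ, p.Prime → p₀ < p → ∃ i, 1 ≤ i ∧ ¬ (p : ℤ) ∣ (F l).coeff i) →
  ∀ (A : Fin q → ℤ) (Xs : Fin q → ℕ), (∀ l, X ≤ Xs l) →
    (((Fintype.piFinset fun l => Ioc (A l) (A l + Xs l)).filter (fun a =>
      ¬ Cov (pts F a m H) k (Real.log X ^ B) (ε * H / Real.log X ^ q))).card : ℝ) ≤
      ε * ∏ l, (Xs l : ℝ)

open Classical in
/-- (CONT) few polynomials of degree `j ≥ 2` have a prime `p > p₀` dividing all the coefficients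
`c i`, `i ≥ 1` -/
def S_CONT : Prop := ∀ j : ℕ, 2 ≤ j → ∀ η : ℝ, 0 < η → ∃ p₀ H₀ : ℕ, ∀ H : ℕ, H₀ ≤ H →
  (((box j H).filter (fun c => ∃ p : ℕ, p.Prime ∧ p₀ < p ∧ ∀ i : Fin (j + 1), 1 ≤ (i : ℕ) →
    (p : ℤ) ∣ c i)).card : ℝ) ≤ η * (box j H).card

end Pool.Agent.Y871.LW
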