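import Pool.Agent.Y871.LW.PA
import Pool.Agent.Y843.HS.Top
import Pool.Agent.Y759.LW.Gavp
import Pool.Agent.Y239.LW.Trans
import Pool.Agent.Y813.LW.Cors
import Pool.Agent.Y73.LW.Gen
import Pool.Agent.Y497.LW.Poly

/-!
# Project LW: all parts together

Parts: helper759 (GAVP), helper239 (TRANS), helper813 (CORS), helper73 (GEN), helper497 (POLY),
helper871 (PA).
-/

set_option autoImplicit false

namespace Pool.Agent.Y871.LW

theorem gen_all : S_GEN :=
  Pool.Agent.Y73.LW.t_GEN (t_PA Pool.Agent.Y257.HS.s_TH Pool.Agent.Y79.HS.den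
    (Pool.Agent.Y813.LW.t_CORS Pool.Agent.Y759.LW.t_GAVP Pool.Agent.Y843.HS.cor_all)
    (Pool.Agent.Y239.LW.t_TRANS Pool.Agent.Y843.HS.rs_all))

theorem poly_all : S_POLY := Pool.Agent.Y497.LW.t_POLY gen_all

end Pool.Agent.Y871.LW
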