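import Pool.Agent.Y871.LW.Top
import Pool.Agent.Y871.LW.Alm
import Pool.Agent.Y737.LW.ContLa
import Pool.Agent.Y514.LW.Lt

/-!
# Project LW, part B: all parts together

Parts: helper514 (LT), helper737 (CONT, LA), helper871.
-/

set_option autoImplicit false

namespace Pool.Agent.Y871.LW

open Finset
open Pool.Agent.TH892 (box pol pol_eval)
open Pool.Agent.H300R2.BH (SS rho)
open Pool.Agent.H300R2.FB (pa la)

theorem uni_all : S_UNI := t_UNI gen_all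

open Classical in
theorem alm_all (j k : ℕ) (hj : 2 ≤ j) (hk : 1 ≤ k)
    (ε : ℝ) (hε : 0 < ε) : ∃ E B H₀ : ℕ, ∀ H : ℕ, H₀ ≤ H → ∀ K : ℕ, Real.log H ^ B ≤ K →
    (K : ℝ) * Real.log H ^ B ≤ H →
    (((box j H).filter (fun c =>
      (∀ p : ℕ, p.Prime → p ≤ ⌊Real.log H ^ E⌋₊ → rho (pol c) p ≠ p) ∧
      ¬ (0 < SS ⌊Real.log H ^ E⌋₊ (pol c) * la (pol c) K ∧
        |pa (pol c) K - SS ⌊Real.log H ^ E⌋₊ (pol c) * la (pol c) K| ≤
          ε * (SS ⌊Real.log H ^ E⌋₊ (pol c) * la (pol c) K) ∧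
        Cov (pv (pol c) K) k (Real.log H ^ B) (ε * pa (pol c) K)))).card : ℝ) ≤
      ε * (box j H).card :=
  alm uni_all Pool.Agent.Y514.LW.t_LT Pool.Agent.Y737.LW.t_CONT Pool.Agent.Y737.LW.t_LA j k hj hk ε hε

end Pool.Agent.Y871.LW
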