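import Pool.Agent.Y871.LW.Top
import Pool.Agent.Y871.LW.NzB
import Pool.Agent.Y438.LW.Lt0

/-!
# Project LW, part C: all parts together

Parts: helper438 (LT0), helper871, and the parts A and B.
-/

set_option autoImplicit false

namespace Pool.Agent.Y871.LW

open Finset Polynomial
open Pool.Agent.TH204.WR (rt hh rho)
open Pool.Agent.TH892.SW (wt)

theorem nz_all (k : ℕ) (hk : 1 ≤ k) (F : ℤ[X]) (hF : F.natDegree = k + 1)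
    (j : ℕ) (hj : 1 ≤ j) (κ ε : ℝ) (hκ : 1 ≤ κ) (hε : 0 < ε) : ∃ E B N₀ : ℕ, ∀ N : ℕ, N₀ ≤ N →
    ∀ H : ℕ, Real.log N ^ B ≤ H → (H : ℝ) ^ (k + 1) ≤ N → ∃ Bad : Finset ℤ, (Bad.card : ℝ) ≤ ε * N ∧
    ∀ t ∈ Icc (-(N : ℤ)) N, t ∉ Bad → (∀ p : ℕ, p.Prime → rho F t p < p) →
    0 < hh F t ⌊Real.log N ^ E⌋₊ ∧ ∀ a b : ℤ, (H : ℝ) ≤ (b : ℝ) - a → (b : ℝ) - a ≤ κ * H →
      (∀ m ∈ Ioc a b, 2 ≤ F.eval m + t ∧
        ((F.eval m + t : ℤ) : ℝ) ≤ κ * ((b : ℝ) - a) * rt k N ^ k) →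
      |((zp F t a b).card : ℝ) - hh F t ⌊Real.log N ^ E⌋₊ * ∑ m ∈ Ioc a b, wt (F.eval m + t).natAbs| ≤
        ε * (hh F t ⌊Real.log N ^ E⌋₊ * ∑ m ∈ Ioc a b, wt (F.eval m + t).natAbs) ∧
      0 < (zp F t a b).card ∧ CovZ (zp F t a b) j (Real.log N ^ B) (ε * (zp F t a b).card) :=
  nz (t_UNI gen_all) Pool.Agent.Y438.LW.t_LT0 k hk F hF j hj κ ε hκ hε

end Pool.Agent.Y871.LW
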