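import Pool.Agent.Y871.LW.Qz
import Pool.Agent.Y737.LW.Qc1
import Pool.Agent.Y252.LW.Qc2

/-!
# Project LW, part D: all parts together

Parts: helper737 (QC1), helper252 (QC2), helper871, and the parts A, B and C.
-/

set_option autoImplicit false

namespace Pool.Agent.Y871.LW

open Finset Polynomial Filter Topology
open Pool.Agent.W468.ConjF (Admissible)

theorem qz_all (a b : ℤ) (ha : 0 < a) (j : ℕ) (hj : 1 ≤ j) (κ ε : ℝ)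
    (hκ : 1 ≤ κ) (hε : 0 < ε) : ∃ B N₀ : ℕ, ∀ N : ℕ, N₀ ≤ N → ∀ H : ℕ, Real.log N ^ B ≤ H →
    (H : ℝ) ^ 2 ≤ N → ∃ Bad : Finset ℤ, (Bad.card : ℝ) ≤ ε * N ∧ ∀ c : ℤ, -(N : ℤ) ≤ c → c < 0 →
    c ∉ Bad → Admissible a b c → ∃ S : ℝ, 0 < S ∧ Tendsto (fun z : ℕ => cutQ a b c z) atTop (𝓝 S) ∧
    ∀ u v : ℤ, (H : ℝ) ≤ (v : ℝ) - u → (v : ℝ) - u ≤ κ * H →
      (∀ m ∈ Ioc u v, 2 ≤ a * m ^ 2 + b * m + c ∧
        ((a * m ^ 2 + b * m + c : ℤ) : ℝ) ≤ κ * ((v : ℝ) - u) * √(N : ℝ)) →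
      |((zp (C a * X ^ 2 + C b * X) c u v).card : ℝ) - epsQ a b * S * gcdQ a b *
        ∑ m ∈ Ioc u v, 1 / Real.log ((a * m ^ 2 + b * m + c : ℤ) : ℝ)| ≤
        ε * (epsQ a b * S * gcdQ a b * ∑ m ∈ Ioc u v, 1 / Real.log ((a * m ^ 2 + b * m + c : ℤ) : ℝ)) ∧
      0 < (zp (C a * X ^ 2 + C b * X) c u v).card ∧
      CovZ (zp (C a * X ^ 2 + C b * X) c u v) j (Real.log N ^ B)
        (ε * (zp (C a * X ^ 2 + C b * X) c u v).card) :=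
  qz Pool.Agent.Y737.LW.t_QC1 Pool.Agent.Y252.LW.t_QC2 a b ha j hj κ ε hκ hε

end Pool.Agent.Y871.LW
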