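import Pool.Agent.Y871.LW.Al1
import Pool.Agent.Y871.LW.Top
import Pool.Agent.Y514.LW.Lt
import Pool.Agent.Y737.LW.ContLa
import Pool.Agent.Y888.LW.RATIO
import Pool.Agent.Y889.LW.Vvc

/-!
# Project LW, part E: all parts together

Parts: helper759 (GAVP), helper239 (TRANS), helper813 (CORS), helper73 (GEN), helper497 (POLY),
helper514 (LT), helper737 (LA), helper888 (RATIO), helper889 (VVC), helper871 (PA, APU, Al1).
-/

set_option autoImplicit false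

namespace Pool.Agent.Y871.LW

open Finset
open Pool.Agent.TH892 (box pol pol_eval)
open Pool.Agent.H300R2.BH (SS rho)
open Pool.Agent.H300R2.FB (pa la)

theorem gen2_all : S_GEN2 :=
  t_GEN2 (t_PA Pool.Agent.Y257.HS.s_TH Pool.Agent.Y79.HS.den
    (Pool.Agent.Y813.LW.t_CORS Pool.Agent.Y759.LW.t_GAVP Pool.Agent.Y843.HS.cor_all)
    (Pool.Agent.Y239.LW.t_TRANS Pool.Agent.Y843.HS.rs_all))

theorem apu_all : S_APU := apu gen2_all Pool.Agent.Y889.LW.t_VVC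

open Classical in
theorem alm1_all (k : ℕ) (hk : 1 ≤ k)
    (ε : ℝ) (hε : 0 < ε) : ∃ E B H₀ : ℕ, 2 ≤ E ∧ ∀ H : ℕ, H₀ ≤ H → ∀ K : ℕ, Real.log H ^ B ≤ K →
    (K : ℝ) * Real.log H ^ B ≤ H →
    (((box 1 H).filter (fun c =>
      (∀ p : ℕ, p.Prime → p ≤ ⌊Real.log H ^ E⌋₊ → rho (pol c) p ≠ p) ∧
      ¬ (0 < SS ⌊Real.log H ^ E⌋₊ (pol c) * la (pol c) K ∧
        |pa (pol c) K - SS ⌊Real.log H ^ E⌋₊ (pol c) * la (pol c) K| ≤
          ε * (SS ⌊Real.log H ^ E⌋₊ (pol c) * la (pol c) K) ∧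
        Cov (pv (pol c) K) k (Real.log H ^ B) (ε * pa (pol c) K)))).card : ℝ) ≤
      ε * (box 1 H).card :=
  alm1 apu_all Pool.Agent.Y514.LW.t_LT Pool.Agent.Y888.LW.t_RATIO Pool.Agent.Y737.LW.t_LA k hk ε hε

end Pool.Agent.Y871.LW
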