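import Pool.Agent.Y871.LW.StmB
import Pool.Agent.Y497.LW.Poly

/-!
# The uniform version of (POLY) (adapted from helper497's proof of (POLY))
-/

set_option autoImplicit false

namespace Pool.Agent.Y871.LW

open Finset
open Pool.Agent.Y843.HS
open Pool.Agent.Y497.LW

/-- the number of classes on which a polynomial is in a given class -/
theorem roots_le2 (F : Polynomial ℤ) {e : ℕ} (hF : F.natDegree ≤ e) (p : ℕ) (hp : p.Prime)
    (hco : ∃ i, 1 ≤ i ∧ ¬ (p : ℤ) ∣ F.coeff i) (m c1 N : ℕ) (φ : ℕ → ℕ)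
    (hφ : ∀ i ∈ Icc 1 N, (φ i : ℤ) = F.eval ((m + i : ℕ) : ℤ) + c1) (c : ℕ) :
    (((Icc 1 N).filter (fun i => φ i % p = c)).image (fun i => i % p)).card ≤ e := by
  classical
  have := Fact.mk hp
  obtain ⟨G, hG⟩ : ∃ G : Polynomial (ZMod p), G = F.map (Int.castRingHom (ZMod p)) +
    Polynomial.C ((c1 : ZMod p) - c) := ⟨_, rfl⟩
  obtain ⟨i0, hi0, hpi0⟩ := hco
  have hco : G.coeff i0 ≠ 0 := by
    rw [hG, Polynomial.coeff_add, Polynomial.coeff_map, Polynomial.coeff_C, if_neg (by omega),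
      add_zero]
    intro h
    have h1 : ((F.coeff i0 : ℤ) : ZMod p) = 0 := h
    rw [ZMod.intCast_zmod_eq_zero_iff_dvd] at h1
    exact hpi0 h1
  have hG0 : G ≠ 0 := by
    intro h
    rw [h] at hco
    simp at hco
  have hdeg : G.natDegree ≤ e := by
    rw [hG, Polynomial.natDegree_add_C]
    exact Polynomial.natDegree_map_le.trans hF
  refine le_trans ?_ ((Multiset.toFinset_card_le _).trans ((Polynomial.card_roots' G).trans hdeg))
  refine card_le_card_of_injOn (fun r => ((m + r : ℕ) : ZMod p)) ?_ ?_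
  · intro r hr
    rw [mem_coe, mem_image] at hr
    obtain ⟨i, hi, rfl⟩ := hr
    rw [mem_filter] at hi
    rw [mem_coe, Multiset.mem_toFinset, Polynomial.mem_roots hG0, Polynomial.IsRoot.def, hG,
      Polynomial.eval_add, Polynomial.eval_C]
    have h1 : ((m + i % p : ℕ) : ZMod p) = ((m + i : ℕ) : ZMod p) := by
      push_cast
      rw [ZMod.natCast_mod]
    have h2 := congrArg (fun z : ℤ => (z : ZMod p)) (hφ i hi.1)
    simp only [Int.cast_natCast, Int.cast_add] at h2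
    have h3 : ((φ i : ℕ) : ZMod p) = (c : ZMod p) := by
      rw [← hi.2, ZMod.natCast_mod]
    have h4 : Polynomial.eval (((m + i : ℕ) : ZMod p)) (F.map (Int.castRingHom (ZMod p))) =
        ((F.eval ((m + i : ℕ) : ℤ) : ℤ) : ZMod p) := by
      have := Polynomial.eval_intCast_map (Int.castRingHom (ZMod p)) F ((m + i : ℕ) : ℤ)
      simpa using this
    simp only
    rw [h1, h4]
    rw [h3] at h2
    rw [h2]
    ring
  · intro a ha b hb hab
    rw [mem_coe, mem_image] at ha hb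
    obtain ⟨i, -, rfl⟩ := ha
    obtain ⟨j, -, rfl⟩ := hb
    simp only at hab
    rw [ZMod.natCast_eq_natCast_iff] at hab
    have h1 : i % p ≡ j % p [MOD p] := Nat.ModEq.add_left_cancel' m hab
    have h2 : (i % p) % p = (j % p) % p := h1
    rwa [Nat.mod_mod, Nat.mod_mod] at h2

open Classical in
theorem t_UNI (hG : Pool.Agent.Y871.LW.S_GEN) : Pool.Agent.Y871.LW.S_UNI := by
  intro k q e p₀ hk ε hε
  obtain ⟨C, hC0, X₂, hVV⟩ := VV_le
  obtain ⟨δ, hδ⟩ : ∃ δ : ℝ, δ = ε ^ 2 / (2 * C ^ q) := ⟨_, rfl⟩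
  have hδ0 : 0 < δ := by rw [hδ]; positivity
  obtain ⟨B, X₀, hGen⟩ := hG k q 1 e p₀ (1 / 2) δ (by norm_num) hδ0
  obtain ⟨X₁, hX₁⟩ := log_small q (ε ^ 2 / (6 * (q + 1))) (by positivity)
  refine ⟨B, max (max X₀ X₁) (max X₂ 3), fun X H m hX hH F hFe hFp A Xs hXs => ?_⟩
  have hX0 : X₀ ≤ X := by omega
  have hX1 : X₁ ≤ X := by omega
  have hX2 : X₂ ≤ X := by omega
  have hX3 : 3 ≤ X := by omega
  by_contra hcon
  push Not at hcon
  obtain ⟨box, hbox⟩ : ∃ box, box = Fintype.piFinset fun l => Ioc (A l) (A l + Xs l) := ⟨_, rfl⟩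
  obtain ⟨t, ht⟩ : ∃ t : ℝ, t = ε * H / Real.log X ^ q := ⟨_, rfl⟩
  obtain ⟨D, hD⟩ : ∃ D : ℝ, D = Real.log X ^ B := ⟨_, rfl⟩
  rw [← hbox, ← ht, ← hD] at hcon
  generalize hbad : box.filter (fun a => ¬ Cov (pts F a m H) k D t) = bad at hcon
  have hbadm : ∀ a, a ∈ bad ↔ a ∈ box ∧ ¬ Cov (pts F a m H) k D t := by
    intro a
    rw [← hbad, mem_filter]
  have hex : ∀ a : Fin q → ℤ, ∃ ST : Finset ℕ × Finset ℕ, a ∈ bad → ST.1 ⊆ pts F a m H ∧
      ST.2 ⊆ ST.1 ∧ (∀ n ∈ ST.2, ¬ InAP ST.1 k D n) ∧ t < ST.2.card := by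
    intro a
    by_cases ha : a ∈ bad
    · have h1 := ((hbadm a).1 ha).2
      unfold Cov at h1
      push Not at h1
      obtain ⟨S, hS, T, hT, h2, h3⟩ := h1
      exact ⟨(S, T), fun _ => ⟨hS, hT, h2, h3⟩⟩
    · exact ⟨(∅, ∅), fun h => absurd h ha⟩
  choose ST hST using hex
  -- the polynomials
  obtain ⟨c1, hc1⟩ : ∃ c1 : Fin q → ℕ, ∀ l, ∀ i ∈ Icc 1 (2 * H),
      0 ≤ (F l).eval ((m + i : ℕ) : ℤ) + c1 l := by
    refine ⟨fun l => ∑ i ∈ Icc 1 (2 * H), ((F l).eval ((m + i : ℕ) : ℤ)).natAbs, fun l i hi => ?_⟩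
    have h1 := single_le_sum (f := fun i => ((F l).eval ((m + i : ℕ) : ℤ)).natAbs)
      (fun _ _ => Nat.zero_le _) hi
    have h2 : (((F l).eval ((m + i : ℕ) : ℤ)).natAbs : ℤ) ≤
      ((∑ i ∈ Icc 1 (2 * H), ((F l).eval ((m + i : ℕ) : ℤ)).natAbs : ℕ) : ℤ) := by exact_mod_cast h1
    change 0 ≤ (F l).eval ((m + i : ℕ) : ℤ) +
      ((∑ i ∈ Icc 1 (2 * H), ((F l).eval ((m + i : ℕ) : ℤ)).natAbs : ℕ) : ℤ)
    omega
  obtain ⟨φ, hφd⟩ : ∃ φ : Fin q → ℕ → ℕ, φ = fun l i => ((F l).eval ((m + i : ℕ) : ℤ) + c1 l).toNat :=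
    ⟨_, rfl⟩
  have hφ : ∀ l, ∀ i ∈ Icc 1 (2 * H), (φ l i : ℤ) = (F l).eval ((m + i : ℕ) : ℤ) + c1 l := by
    intro l i hi
    rw [hφd]
    exact Int.toNat_of_nonneg (hc1 l i hi)
  obtain ⟨Z, hZ⟩ : ∃ Z : Fin q → ℕ → Finset ℕ, ∀ l p, Z l p = {(((c1 l : ℤ) - A l) % p).toNat} :=
    ⟨fun l p => {(((c1 l : ℤ) - A l) % p).toNat}, fun _ _ => rfl⟩
  obtain ⟨y, hy⟩ : ∃ y : ℕ, y = ⌊(X : ℝ) ^ (1 / 2 : ℝ)⌋₊ := ⟨_, rfl⟩
  obtain ⟨U, hU⟩ : ∃ U : (Fin q → ℤ) → Finset ℕ, U = fun a =>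
    (ST a).2.filter (fun n : ℕ => ∀ l, y < ((F l).eval (n : ℤ) + a l).natAbs) := ⟨_, rfl⟩
  have hUm : ∀ a ∈ bad, ∀ n ∈ U a, (∀ l, A l < a l ∧ a l ≤ A l + Xs l) ∧ m < n ∧ n ≤ m + H ∧
      (∀ l, ((F l).eval (n : ℤ) + a l).natAbs.Prime ∧ y < ((F l).eval (n : ℤ) + a l).natAbs) ∧
      n ∈ (ST a).2 := by
    intro a ha n hn
    rw [hU] at hn
    simp only at hn
    rw [mem_filter] at hn
    obtain ⟨h1, h2⟩ := hn
    obtain ⟨h3, h4, -, -⟩ := hST a ha
    have h5 := h3 (h4 h1)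
    unfold pts at h5
    rw [mem_filter, mem_Ioc] at h5
    have h6 := ((hbadm a).1 ha).1
    rw [hbox, Fintype.mem_piFinset] at h6
    exact ⟨fun l => mem_Ioc.1 (h6 l), h5.1.1, h5.1.2, fun l => ⟨h5.2 l, h2 l⟩, h1⟩
  obtain ⟨g, hg⟩ : ∃ g : (Σ _ : Fin q → ℤ, ℕ) → (Fin q → ℕ) × ℕ,
    g = fun t => (fun l => (t.1 l - A l).toNat, t.2 - m) := ⟨_, rfl⟩
  obtain ⟨T, hT⟩ : ∃ T : Finset ((Fin q → ℕ) × ℕ), T = (bad.sigma U).image g := ⟨_, rfl⟩
  have hinj : Set.InjOn g (bad.sigma U : Set (Σ _ : Fin q → ℤ, ℕ)) := by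
    rintro ⟨a, n⟩ h1 ⟨a', n'⟩ h2 h3
    rw [mem_coe, mem_sigma] at h1 h2
    obtain ⟨u1, u2, -, -, -⟩ := hUm a h1.1 n h1.2
    obtain ⟨v1, v2, -, -, -⟩ := hUm a' h2.1 n' h2.2
    rw [hg] at h3
    simp only [Prod.mk.injEq] at h3
    obtain ⟨h4, h5⟩ := h3
    obtain rfl : a = a' := by
      funext l
      have h6 := congrFun h4 l
      have := u1 l
      have := v1 l
      omega
    obtain rfl : n = n' := by omega
    rfl
  have hTcard : T.card = ∑ a ∈ bad, (U a).card := by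
    rw [hT, card_image_of_injOn hinj, card_sigma]
  obtain ⟨L, hL⟩ : ∃ L : ℕ, L = ∑ a ∈ box,
      ((Ioc m (m + H)).filter (fun n : ℕ => ∃ l, ((F l).eval (n : ℤ) + a l).natAbs ≤ y)).card :=
    ⟨_, rfl⟩
  have hsum : ∑ a ∈ bad, (ST a).2.card ≤ T.card + L := by
    rw [hTcard, hL]
    refine (sum_le_sum (g := fun a => (U a).card + ((Ioc m (m + H)).filter (fun n : ℕ =>
      ∃ l, ((F l).eval (n : ℤ) + a l).natAbs ≤ y)).card) fun a ha => ?_).trans ?_
    · rw [hU]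
      simp only
      rw [← card_filter_add_card_filter_not (s := (ST a).2)
        (fun n : ℕ => ∀ l, y < ((F l).eval (n : ℤ) + a l).natAbs)]
      refine Nat.add_le_add_left (card_le_card ?_) _
      intro n hn
      rw [mem_filter] at hn ⊢
      obtain ⟨h3, h4, -, -⟩ := hST a ha
      have h5 := h3 (h4 hn.1)
      unfold pts at h5
      refine ⟨(mem_filter.1 h5).1, ?_⟩
      have h6 := hn.2
      push Not at h6
      exact h6
    · rw [sum_add_distrib]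
      refine Nat.add_le_add_left (sum_le_sum_of_subset ?_) _
      intro a ha
      exact ((hbadm a).1 ha).1
  have hLX : X * L ≤ H * (q * ((2 * y + 1) * ∏ l, Xs l)) := by
    have := small_all A Xs X y hXs (Ioc m (m + H)) (fun l n => (F l).eval (n : ℤ))
    rw [Nat.card_Ioc, Nat.add_sub_cancel_left, ← hbox, ← hL] at this
    exact this
  -- real inequalities
  obtain ⟨P, hP⟩ : ∃ P : ℝ, P = ∏ l, (Xs l : ℝ) := ⟨_, rfl⟩
  have hP0 : 0 ≤ P := by rw [hP]; positivity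
  rw [← hP] at hcon
  have hXr : (3 : ℝ) ≤ X := by exact_mod_cast hX3
  have hlX : 0 < Real.log X := Real.log_pos (by linarith)
  obtain ⟨Λ, hΛ⟩ : ∃ Λ : ℝ, Λ = Real.log X ^ q := ⟨_, rfl⟩
  have hΛ0 : 0 < Λ := by rw [hΛ]; positivity
  obtain ⟨s, hs⟩ : ∃ s : ℝ, s = (X : ℝ) ^ (1 / 2 : ℝ) := ⟨_, rfl⟩
  have hs1 : 1 ≤ s := by
    rw [hs]
    exact Real.one_le_rpow (by linarith) (by norm_num)
  have hss : s * s = X := by
    rw [hs, ← Real.rpow_add (by linarith)]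
    norm_num
  have hys : (y : ℝ) ≤ s := by
    rw [hy, ← hs]
    exact Nat.floor_le (by linarith)
  have hΛs : Λ ≤ ε ^ 2 / (6 * (q + 1)) * s := by
    rw [hΛ, hs]
    exact hX₁ X hX1
  have hLr : (X : ℝ) * L ≤ H * (q * ((2 * y + 1) * P)) := by
    rw [hP]
    exact_mod_cast hLX
  have hH0 : (0 : ℝ) ≤ H := Nat.cast_nonneg _
  have hL0 : (0 : ℝ) ≤ L := Nat.cast_nonneg _
  have hq0 : (0 : ℝ) ≤ q := Nat.cast_nonneg _
  have hLs : s * L ≤ 3 * (H * q * P) := by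
    have h1 : s * (s * L) ≤ s * (3 * (H * q * P)) := by
      calc s * (s * L) = X * L := by rw [← hss]; ring
        _ ≤ H * (q * ((2 * y + 1) * P)) := hLr
        _ ≤ H * (q * ((3 * s) * P)) := by gcongr; linarith
        _ = _ := by ring
    exact le_of_mul_le_mul_left h1 (by linarith)
  have hLΛ : L * Λ ≤ ε ^ 2 / 2 * (H * P) := by
    calc L * Λ ≤ L * (ε ^ 2 / (6 * (q + 1)) * s) := mul_le_mul_of_nonneg_left hΛs hL0
      _ = ε ^ 2 / (6 * (q + 1)) * (s * L) := by ring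
      _ ≤ ε ^ 2 / (6 * (q + 1)) * (3 * (H * q * P)) :=
        mul_le_mul_of_nonneg_left hLs (by positivity)
      _ = ε ^ 2 / 2 * (H * P) * (q / (q + 1)) := by
        field_simp
        ring
      _ ≤ ε ^ 2 / 2 * (H * P) * 1 := by
        refine mul_le_mul_of_nonneg_left ?_ (by positivity)
        rw [div_le_one (by linarith)]
        linarith
      _ = _ := mul_one _
  have ht0 : 0 ≤ t := by rw [ht]; positivity
  have htΛ : t * Λ = ε * H := by
    rw [ht, ← hΛ]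
    field_simp
  have h1 : ε * P * t ≤ T.card + L := by
    have h2 : (bad.card : ℝ) * t ≤ ∑ a ∈ bad, ((ST a).2.card : ℝ) := by
      rw [← nsmul_eq_mul]
      exact card_nsmul_le_sum _ _ _ fun a ha => (hST a ha).2.2.2.le
    have h3 : ∑ a ∈ bad, ((ST a).2.card : ℝ) ≤ T.card + L := by exact_mod_cast hsum
    have h4 : ε * P * t ≤ bad.card * t := mul_le_mul_of_nonneg_right hcon.le ht0
    linarith
  have h2 : ε ^ 2 / 2 * (H * P) ≤ T.card * Λ := by
    have h3 : ε * P * t * Λ ≤ (T.card + L) * Λ := mul_le_mul_of_nonneg_right h1 hΛ0.le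
    have h4 : ε * P * t * Λ = ε ^ 2 * (H * P) := by
      rw [mul_assoc, htΛ]
      ring
    nlinarith
  have hprod : δ * (∏ l, (Xs l : ℝ)) * H * ∏ l, VV (Z l) 0 ⌊(X : ℝ) ^ (1 / 2 : ℝ)⌋₊ ≤ T.card := by
    rw [← hP]
    have h3 : ∏ l, VV (Z l) 0 ⌊(X : ℝ) ^ (1 / 2 : ℝ)⌋₊ ≤ (C / Real.log X) ^ q := by
      have h4 : ∀ l, 0 ≤ VV (Z l) 0 ⌊(X : ℝ) ^ (1 / 2 : ℝ)⌋₊ ∧
          VV (Z l) 0 ⌊(X : ℝ) ^ (1 / 2 : ℝ)⌋₊ ≤ C / Real.log X := by
        intro l
        refine hVV X hX2 (Z l) fun p => ?_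
        rw [hZ, card_singleton]
      refine (prod_le_prod (fun l _ => (h4 l).1) (fun l _ => (h4 l).2)).trans_eq ?_
      rw [prod_const, card_univ, Fintype.card_fin]
    calc δ * P * H * ∏ l, VV (Z l) 0 ⌊(X : ℝ) ^ (1 / 2 : ℝ)⌋₊ ≤
          δ * P * H * (C / Real.log X) ^ q := mul_le_mul_of_nonneg_left h3 (by positivity)
      _ = ε ^ 2 / 2 * (H * P) / Λ := by
        rw [hδ, hΛ, div_pow]
        field_simp
      _ ≤ T.card := by
        rw [div_le_iff₀ hΛ0]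
        exact h2
  obtain ⟨x, b, d, hd1, hd2, hxb⟩ := hGen X H hX0 hH (fun _ => 0) Xs hXs Z
    (by
      intro l p hp _
      rw [hZ, card_singleton]
      refine ⟨le_rfl, hp.one_lt, fun c hc => ?_⟩
      rw [mem_singleton] at hc
      have h3 := Int.emod_nonneg ((c1 l : ℤ) - A l) (show (p : ℤ) ≠ 0 by exact_mod_cast hp.ne_zero)
      have h4 := Int.emod_lt_of_pos ((c1 l : ℤ) - A l) (show (0 : ℤ) < p by exact_mod_cast hp.pos)
      omega)
    φ
    (fun l M => phi_modEq (F l) m (c1 l) (2 * H) (φ l) (hφ l) M)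
    (fun l p hp hp0 c => roots_le2 (F l) (hFe l) p hp (hFp l p hp hp0) m (c1 l) (2 * H) (φ l)
      (hφ l) c)
    T
    (by
      intro t' ht'
      rw [hT, mem_image] at ht'
      obtain ⟨⟨a, n⟩, han, rfl⟩ := ht'
      rw [mem_sigma] at han
      obtain ⟨u1, u2, u3, -, -⟩ := hUm a han.1 n han.2
      rw [hg]
      simp only
      refine ⟨?_, by omega, by omega⟩
      unfold bx
      rw [Fintype.mem_piFinset]
      intro l
      rw [mem_Ioc]
      change 0 < (a l - A l).toNat ∧ (a l - A l).toNat ≤ 0 + Xs l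
      have h3 : A l < a l ∧ a l ≤ A l + Xs l := u1 l
      omega)
    (by
      intro t' ht' l p hp hpX
      rw [hT, mem_image] at ht'
      obtain ⟨⟨a, n⟩, han, rfl⟩ := ht'
      rw [mem_sigma] at han
      obtain ⟨u1, u2, u3, u4, -⟩ := hUm a han.1 n han.2
      rw [hg]
      simp only
      rw [hZ, mem_singleton]
      intro hcon2
      have h3 := Int.emod_nonneg ((c1 l : ℤ) - A l) (show (p : ℤ) ≠ 0 by exact_mod_cast hp.ne_zero)
      have h4 := hφ l (n - m) (mem_Icc.2 ⟨by omega, by omega⟩)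
      rw [show m + (n - m) = n by omega] at h4
      have h5 : ((((a l - A l).toNat + φ l (n - m)) % p : ℕ) : ℤ) = ((c1 l : ℤ) - A l) % p := by
        rw [hcon2]
        exact Int.toNat_of_nonneg h3
      push_cast at h5
      rw [h4, Int.toNat_of_nonneg (by have := u1 l; omega)] at h5
      have h6 : (p : ℤ) ∣ (a l - A l + ((F l).eval (n : ℤ) + c1 l)) - ((c1 l : ℤ) - A l) :=
        Int.ModEq.dvd (Int.ModEq.symm h5)
      have h7 : (a l - A l + ((F l).eval (n : ℤ) + c1 l)) - ((c1 l : ℤ) - A l) =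
        (F l).eval (n : ℤ) + a l := by ring
      rw [h7] at h6
      have h8 := Int.natAbs_dvd_natAbs.2 h6
      rw [Int.natAbs_natCast] at h8
      have h9 := (Nat.prime_dvd_prime_iff_eq hp (u4 l).1).1 h8
      have h10 : p ≤ y := by
        rw [hy]
        exact Nat.le_floor hpX
      have h11 := (u4 l).2
      omega)
    hprod
  -- the progression
  have hpt : ∀ j < k, (fun l => (x l : ℤ) + A l) ∈ bad ∧
      m + b + j * d ∈ (ST (fun l => (x l : ℤ) + A l)).2 := by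
    intro j hj
    have h3 := hxb j hj
    rw [hT, mem_image] at h3
    obtain ⟨⟨a, n⟩, han, hgg⟩ := h3
    rw [mem_sigma] at han
    obtain ⟨u1, u2, u3, -, u5⟩ := hUm a han.1 n han.2
    simp only at u1 u2 u3 u5 han
    rw [hg] at hgg
    simp only [Prod.mk.injEq] at hgg
    obtain ⟨h4, h5⟩ := hgg
    have h6 : (fun l => (x l : ℤ) + A l) = a := by
      funext l
      have h7 := congrFun h4 l
      have := u1 l
      omega
    rw [h6, show m + b + j * d = n by omega]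
    exact ⟨han.1, u5⟩
  obtain ⟨h3, h4⟩ := hpt 0 (by omega)
  obtain ⟨-, h5, h6, -⟩ := hST _ h3
  refine h6 _ h4 ⟨m + b, d, hd1, by rw [hD]; exact hd2, fun j hj => h5 (hpt j hj).2, 0, by omega, rfl⟩

end Pool.Agent.Y871.LW
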